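import Pool.Agent.GYD.Defs

set_option autoImplicit false
set_option linter.unusedVariables false

/-!
# Statements of Part 3 (counting)
-/

namespace GYD

open Finset

/-! ## general facts -/

/-- walks of length at most two -/
def Stmt_D01 : Prop := ∀ (V : Type) [Fintype V] [DecidableEq V] (G : SimpleGraph V) (D : ℕ),
  (∀ v, (gn G univ v).card ≤ D) → ∀ v,
    ∑ x ∈ univ.erase v, (cdg G v x + ad G v x) ≤ D ^ 2 ∧ (hn G univ v).card ≤ D ^ 2

/-- (F2) -/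
def Stmt_D02 : Prop := ∀ (V : Type) [Fintype V] [DecidableEq V] (G : SimpleGraph V)
  (D s : ℕ) (U C : Finset V), Base G D s U C → ∀ v ∈ C,
    ∑ x ∈ hn G U v, (cdg G v x + ad G v x - 1) + ∑ x ∈ univ \ U, (cdg G v x + ad G v x)
      ≤ slk G D U v

/-- (F3) -/
def Stmt_D03 : Prop := ∀ (V : Type) [Fintype V] [DecidableEq V] (G : SimpleGraph V)
  (D s : ℕ) (U C : Finset V), Base G D s U C → ∀ v ∈ C,
    ∑ x ∈ univ \ C, (cdg G v x + ad G v x) ≤ s ∧ slk G D U v ≤ s ∧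
    ∑ m ∈ gn G C v, (gn G (univ \ C) m).card ≤ s

open Classical in
/-- (F4) -/
def Stmt_D04 : Prop := ∀ (V : Type) [Fintype V] [DecidableEq V] (G : SimpleGraph V)
  (D s : ℕ) (U C : Finset V), Base G D s U C → ∀ v ∈ C,
    ∑ m ∈ gn G univ v, (D - (gn G C m).card) ≤ s ∧ D ≤ (gn G univ v).card + 72 ∧
    ((gn G univ v).filter (fun m => 2 * (gn G C m).card < D)).card ≤ 144 ∧
    D ≤ (gn G C v).card + (gn G (univ \ C) v).card + 72

/-- (F1) -/
def Stmt_D05 : Prop := ∀ (V : Type) [Fintype V] [DecidableEq V] (G : SimpleGraph V)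
  (D s : ℕ) (U C : Finset V) (φ : V → ℕ), Fail G D s U C φ → ∀ v ∈ C,
    ∑ j ∈ JJ G D C (U \ C) φ, (mult G (U \ C) φ v j - 1) +
      ∑ j ∈ range (D ^ 2 + 1) \ JJ G D C (U \ C) φ, mult G (U \ C) φ v j +
      slk G D U v + 1 ≤ 2 * (gn G (U \ C) v).card + dfc G D C (U \ C) φ v

/-- total deficiency, and trivial bounds -/
def Stmt_D06 : Prop := ∀ (V : Type) [Fintype V] [DecidableEq V] (G : SimpleGraph V)
  (D : ℕ) (U C : Finset V) (φ : V → ℕ),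
    ∑ v ∈ C, dfc G D C (U \ C) φ v = TT G D C (U \ C) φ ∧
    ∀ v, (gn G (U \ C) v).card ≤ (gn G (univ \ C) v).card

/-- (F0) -/
def Stmt_D07 : Prop := ∀ (V : Type) [Fintype V] [DecidableEq V] (G : SimpleGraph V)
  (D s : ℕ) (U C : Finset V) (φ : V → ℕ), Fail G D s U C φ →
    (JJ G D C (U \ C) φ).card * C.card ≤
      s * C.card + 2 * ∑ v ∈ C, (gn G (U \ C) v).card + TT G D C (U \ C) φ ∧
    ∀ e ≤ D, ∑ v ∈ C, (gn G (U \ C) v).card ≤ e * D ^ 2 →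
      (e ≤ 1000 → (JJ G D C (U \ C) φ).card ≤ s + 2 * e + 1 ∧
        TT G D C (U \ C) φ ≤ (2 * e + 1) * (324 * D))

/-- the dichotomy -/
def Stmt_D08 : Prop := ∀ (V : Type) [Fintype V] [DecidableEq V] (G : SimpleGraph V)
  (D s : ℕ) (U C : Finset V), Base G D s U C →
    (∑ v ∈ C, (gn G (univ \ C) v).card ≤ 217 * D ^ 2) ∨
    (∀ v ∈ C, (gn G C v).card ≤ 144 ∧ D ≤ (gn G (univ \ C) v).card + 216)

/-- existence of an admissible labelling with minimal squared loads -/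
def Stmt_D09 : Prop := ∀ (V : Type) [Fintype V] [DecidableEq V] (G : SimpleGraph V)
  (D : ℕ) (U E C : Finset V) (P : Finset (V × V)) (w : V → ℕ), E ⊆ U → C = E \ pv P →
    Pairs G E P → (∃ φ, Lab G (U \ C) (D ^ 2) φ ∧ ∀ p ∈ P, φ p.1 = φ p.2) →
    ∃ φ, Lab G (U \ C) (D ^ 2) φ ∧ (∀ p ∈ P, φ p.1 = φ p.2) ∧ MinLoad G D (U \ E) (U \ C) φ w

open Classical in
/-- number of free labels -/
def Stmt_D10 : Prop := ∀ (V : Type) [Fintype V] [DecidableEq V] (G : SimpleGraph V)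
  (D : ℕ) (S : Finset V) (φ : V → ℕ) (y : V), (∀ v, (gn G univ v).card ≤ D) → y ∈ S →
    D ^ 2 ≤ ((range (D ^ 2 + 1)).filter (fun i => i ≠ φ y ∧ Free G S φ y i)).card +
      ((hn G S y).image φ).card + 2 * D

/-- double counting of edges between two sets, and of common neighbours -/
def Stmt_D11 : Prop := ∀ (V : Type) [Fintype V] [DecidableEq V] (G : SimpleGraph V)
  (A B C : Finset V) (f : V → ℕ),
    (∑ x ∈ A, ∑ m ∈ gn G B x, f m = ∑ m ∈ B, (gn G A m).card * f m) ∧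
    (∀ x, ∑ z ∈ B, cp G C x z = ∑ m ∈ gn G C x, (gn G B m).card) ∧
    (∑ x ∈ A, ∑ y ∈ A, cp G C x y = ∑ m ∈ C, (gn G A m).card ^ 2) ∧
    (∑ x ∈ A, ∑ y ∈ A, cp G C x y ^ 2 = ∑ v ∈ C, ∑ w ∈ C, cp G A v w ^ 2) ∧
    (∀ x y, cp G C x y ≤ cdg G x y) ∧ (∀ x y, cp G C x y = cp G C y x) ∧
    (∀ x, cp G C x x = (gn G C x).card)

/-! ## type II -/

/-- (II.1), (II.2): many lines have labels near `JJ` -/
def Stmt_E01 : Prop := ∀ (V : Type) [Fintype V] [DecidableEq V] (G : SimpleGraph V)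
  (D s : ℕ) (U C : Finset V) (φ : V → ℕ), Fail G D s U C φ → ∀ v ∈ C,
    1 + (gn G (univ \ C) v).card ≤
      3 * ((gn G (U \ C) v).filter (fun y => φ y ∈ Jp G D C (U \ C) φ)).card
        + dfc G D C (U \ C) φ v

/-- (II.2) summed and restricted to `U \ E`; number of labels -/
def Stmt_E02 : Prop := ∀ (V : Type) [Fintype V] [DecidableEq V] (G : SimpleGraph V)
  (D s : ℕ) (U E C : Finset V) (P : Finset (V × V)) (φ : V → ℕ), Full G D s U E C P φ →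
    (∀ v ∈ C, D ≤ (gn G (univ \ C) v).card + 216) →
    100 * (C.card * D) ≤ 302 * ∑ v ∈ C,
      ((gn G (U \ E) v).filter (fun y => φ y ∈ Jp G D C (U \ C) φ)).card ∧
    (Jp G D C (U \ C) φ).card ≤ 225 * D

/-- (II.3) -/
def Stmt_E03 : Prop := ∀ (V : Type) [Fintype V] [DecidableEq V] (G : SimpleGraph V)
  (D s : ℕ) (U E C : Finset V) (P : Finset (V × V)) (φ : V → ℕ), Full G D s U E C P φ →
    (∀ v ∈ C, D ≤ (gn G (univ \ C) v).card + 216) →
    10 * (C.card * D) ≤ 44 * ∑ v ∈ C, (gn G (ZZ G D U E C φ) v).card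

/-- (II.4) -/
def Stmt_E04 : Prop := ∀ (V : Type) [Fintype V] [DecidableEq V] (G : SimpleGraph V)
  (D s : ℕ) (U E C : Finset V) (P : Finset (V × V)) (φ : V → ℕ), Full G D s U E C P φ →
    MinLoad G D (U \ E) (U \ C) φ (fun y => (gn G C y).card) →
    ∀ y ∈ ZZ G D U E C φ, (hn G (ZZ G D U E C φ) y).card ≤ 2480 * D

/-- (II.5) the two sums and the number of pairs -/
def Stmt_E05 : Prop := ∀ (V : Type) [Fintype V] [DecidableEq V] (G : SimpleGraph V)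
  (D s : ℕ) (U C Z : Finset V), Base G D s U C →
    ∑ y ∈ Z, ∑ y' ∈ Z, cp G C y y' ^ 2 ≤ 74 * D * ∑ v ∈ C, (gn G Z v).card

/-- (II.5) -/
def Stmt_E06 : Prop := ∀ (V : Type) [Fintype V] [DecidableEq V] (G : SimpleGraph V)
  (D s : ℕ) (U E C : Finset V) (P : Finset (V × V)) (φ : V → ℕ), Full G D s U E C P φ →
    (∀ v ∈ C, D ≤ (gn G (univ \ C) v).card + 216) →
    ¬ MinLoad G D (U \ E) (U \ C) φ (fun y => (gn G C y).card)

/-! ## type I -/

/-- (I.2), the inequality (*) -/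
def Stmt_G01 : Prop := ∀ (V : Type) [Fintype V] [DecidableEq V] (G : SimpleGraph V)
  (D s : ℕ) (U C O : Finset V) (φ : V → ℕ), Fail G D s U C φ → O ⊆ U \ C → ∀ z ∈ C,
    ∑ j ∈ JJ G D C (U \ C) φ, (dj G C O φ z j - 1) +
      ∑ j ∈ range (D ^ 2 + 1) \ JJ G D C (U \ C) φ, dj G C O φ z j +
      ∑ x ∈ univ \ U, cp G C z x + 1 ≤ 2 * (gn G (U \ C) z).card + dfc G D C (U \ C) φ z

/-- (I.2), consequences -/
def Stmt_G02 : Prop := ∀ (V : Type) [Fintype V] [DecidableEq V] (G : SimpleGraph V)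
  (D s : ℕ) (U C O : Finset V) (φ : V → ℕ), Fail G D s U C φ → O ⊆ U \ C → ∀ z ∈ C,
    (∀ j ≤ D ^ 2, dj G C O φ z j ≤ 2 * (gn G (U \ C) z).card + dfc G D C (U \ C) φ z) ∧
    ∑ j ∈ range (D ^ 2 + 1), dj G C O φ z j * (dj G C O φ z j - 1)
      ≤ 4 * (gn G (U \ C) z).card ^ 2 + 3 * D * dfc G D C (U \ C) φ z

/-- the size of `M_j` and the sums of `d_j` -/
def Stmt_G03 : Prop := ∀ (V : Type) [Fintype V] [DecidableEq V] (G : SimpleGraph V)
  (D s : ℕ) (U C O : Finset V) (φ : V → ℕ), Fail G D s U C φ → O ⊆ U \ C → ∀ j,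
    (Mj G C O φ j).card = load O φ (fun y => (gn G C y).card) j ∧
    ∑ z ∈ C, dj G C O φ z j = ∑ m ∈ Mj G C O φ j, (gn G C m).card ∧
    (∀ z ∈ C, dj G C O φ z j ≤ ∑ y ∈ O.filter (fun y => φ y = j), cp G C z y) ∧
    (∀ z ∈ C, ∑ y ∈ O.filter (fun y => φ y = j), cp G C z y ≤ dj G C O φ z j)

/-- (I.3), the pairs of outside lines -/
def Stmt_G04 : Prop := ∀ (V : Type) [Fintype V] [DecidableEq V] (G : SimpleGraph V)
  (D s : ℕ) (U C L : Finset V), Base G D s U C → L ⊆ univ \ C →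
    5 * ∑ v ∈ C, (gn G L v).card ^ 2 ≤
      5 * ∑ v ∈ C, (gn G L v).card + 9 * L.card ^ 2
        + ∑ v ∈ C, (gn G L v).card * slk G D U v

/-- (I.3), the second moment -/
def Stmt_G05 : Prop := ∀ (V : Type) [Fintype V] [DecidableEq V] (G : SimpleGraph V)
  (D s e : ℕ) (U C : Finset V) (φ : V → ℕ), Fail G D s U C φ →
    ∑ v ∈ C, (gn G (univ \ C) v).card ≤ e * D ^ 2 →
    3 * ∑ v ∈ C, (gn G (univ \ C) v).card ^ 2 ≤
      (36 * e ^ 2 + 1157 * e + 62208) * D ^ 2 + 62208 + D * TT G D C (U \ C) φ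

/-- (I.3'), the bootstrap -/
def Stmt_G06 : Prop := ∀ (V : Type) [Fintype V] [DecidableEq V] (G : SimpleGraph V)
  (D s : ℕ) (U C : Finset V) (φ : V → ℕ), Fail G D s U C φ →
    ∑ v ∈ C, (gn G (univ \ C) v).card ≤ 217 * D ^ 2 →
    ∑ v ∈ C, (gn G (univ \ C) v).card ≤ 73 * D ^ 2 ∧
    (JJ G D C (U \ C) φ).card ≤ s + 147 ∧ TT G D C (U \ C) φ ≤ 47628 * D ∧
    ∑ v ∈ C, (gn G (univ \ C) v).card ^ 2 ≤ 130000 * D ^ 2

/-- the numerical facts of type I -/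
structure NumI {V : Type} [Fintype V] [DecidableEq V] (G : SimpleGraph V) (D s : ℕ) (U C : Finset V) (φ : V → ℕ) : Prop where
  o1 : ∑ v ∈ C, (gn G (univ \ C) v).card ≤ 73 * D ^ 2
  J : (JJ G D C (U \ C) φ).card ≤ s + 147
  T : TT G D C (U \ C) φ ≤ 47628 * D
  o2 : ∑ v ∈ C, (gn G (univ \ C) v).card ^ 2 ≤ 130000 * D ^ 2

/-- (I.4) -/
def Stmt_G07 : Prop := ∀ (V : Type) [Fintype V] [DecidableEq V] (G : SimpleGraph V)
  (D s : ℕ) (U C O : Finset V) (φ : V → ℕ), Fail G D s U C φ → NumI G D s U C φ →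
    O ⊆ U \ C → ∀ j, (Mj G C O φ j).card ≤ 222 * D

/-- (I.5) -/
def Stmt_G08 : Prop := ∀ (V : Type) [Fintype V] [DecidableEq V] (G : SimpleGraph V)
  (D s : ℕ) (U E C : Finset V) (P : Finset (V × V)) (φ : V → ℕ), Full G D s U E C P φ →
    NumI G D s U C φ → P.card ≤ 250

/-- (I.6) -/
def Stmt_G09 : Prop := ∀ (V : Type) [Fintype V] [DecidableEq V] (G : SimpleGraph V)
  (D s : ℕ) (U E C : Finset V) (P : Finset (V × V)) (φ : V → ℕ), Full G D s U E C P φ →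
    NumI G D s U C φ → P.card ≤ 250 →
    MinLoad G D (U \ E) (U \ C) φ (fun y => (hn G C y).card) →
    ∀ x ∈ cl1 G D U E C P φ, (hn G C x).card ≤ 365 * D

/-- walks from an outside vertex into the clique -/
def Stmt_G10 : Prop := ∀ (V : Type) [Fintype V] [DecidableEq V] (G : SimpleGraph V)
  (D s : ℕ) (U C : Finset V), Base G D s U C → ∀ x, x ∉ C →
    ∑ v ∈ gn G C x, (gn G C v).card ≤ (hn G C x).card + ∑ v ∈ gn G C x, slk G D U v

/-- (I.7) -/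
def Stmt_G11 : Prop := ∀ (V : Type) [Fintype V] [DecidableEq V] (G : SimpleGraph V)
  (D s : ℕ) (U C X : Finset V) (φ : V → ℕ), Fail G D s U C φ → NumI G D s U C φ →
    X ⊆ univ \ C → (∀ x ∈ X, (hn G C x).card ≤ 365 * D) →
    ∑ x ∈ X, (gn G C x).card ^ 2 ≤ 465000 * D ^ 2

/-- (I.8), outside vertices without a label of `JJ`, and unlabelled ones -/
def Stmt_G12 : Prop := ∀ (V : Type) [Fintype V] [DecidableEq V] (G : SimpleGraph V)
  (D s : ℕ) (U C O X : Finset V) (φ : V → ℕ), Fail G D s U C φ → NumI G D s U C φ →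
    O ⊆ U \ C → (∀ x ∈ X, x ∉ U ∨ (x ∈ O ∧ φ x ∉ JJ G D C (U \ C) φ)) →
    ∑ x ∈ X, (gn G C x).card ≤ 131000 * D

/-- (I.8) -/
def Stmt_G13 : Prop := ∀ (V : Type) [Fintype V] [DecidableEq V] (G : SimpleGraph V)
  (D s : ℕ) (U E C : Finset V) (P : Finset (V × V)) (φ : V → ℕ), Full G D s U E C P φ →
    NumI G D s U C φ → P.card ≤ 250 →
    ∑ x ∈ cl2 G D U E C P φ, (gn G C x).card ≤ 188000 * D

/-- (I.9), nearly every vertex of the clique has a neighbour of class one -/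
def Stmt_G14 : Prop := ∀ (V : Type) [Fintype V] [DecidableEq V] (G : SimpleGraph V)
  (D s : ℕ) (U E C : Finset V) (P : Finset (V × V)) (φ : V → ℕ), Full G D s U E C P φ →
    ∃ C₀ ⊆ C, (∀ m ∈ C₀, ∃ x ∈ cl1 G D U E C P φ, G.Adj m x) ∧
      C.card ≤ C₀.card + TT G D C (U \ C) φ + ∑ x ∈ cl2 G D U E C P φ, (gn G C x).card

open Classical in
/-- pairs with the same value -/
def Stmt_G15 : Prop := ∀ (V : Type) [Fintype V] [DecidableEq V] (C₀ : Finset V)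
  (J : Finset ℕ) (f : V → ℕ), (∀ m ∈ C₀, f m ∈ J) →
    C₀.card ^ 2 ≤ J.card * (((C₀ ×ˢ C₀).filter
      (fun p => p.1 ≠ p.2 ∧ f p.1 = f p.2)).card + C₀.card)

open Classical in
/-- (I.9), upper bound for the number of pairs -/
def Stmt_G16 : Prop := ∀ (V : Type) [Fintype V] [DecidableEq V] (G : SimpleGraph V)
  (D s : ℕ) (U C O C₀ : Finset V) (φ : V → ℕ) (y : V → V), Fail G D s U C φ → O ⊆ U \ C →
    C₀ ⊆ C → (∀ m ∈ C₀, y m ∈ O ∧ G.Adj m (y m)) →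
    ((C₀ ×ˢ C₀).filter (fun p => p.1 ≠ p.2 ∧ φ (y p.1) = φ (y p.2))).card ≤
      ∑ x ∈ univ \ C, (gn G C x).card ^ 2 + 2 * ∑ v ∈ C, (gn G (U \ C) v).card +
        TT G D C (U \ C) φ +
        ∑ z ∈ C, ∑ j ∈ range (D ^ 2 + 1), dj G C O φ z j * (dj G C O φ z j - 1)

/-- type I is impossible -/
def Stmt_G17 : Prop := ∀ (V : Type) [Fintype V] [DecidableEq V] (G : SimpleGraph V)
  (D s : ℕ) (U E C : Finset V) (P : Finset (V × V)) (φ : V → ℕ), Full G D s U E C P φ →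
    ∑ v ∈ C, (gn G (univ \ C) v).card ≤ 217 * D ^ 2 →
    ¬ MinLoad G D (U \ E) (U \ C) φ (fun y => (hn G C y).card)

end GYD
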