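import Pool.Agent.GYD.StmtsB
import Pool.Agent.GYD.StmtsC
import Pool.Agent.GYA.A_THM

set_option autoImplicit false
set_option linter.unusedVariables false

/-!
# Theorem A inside a graph
-/

namespace GYD

open Finset

theorem t_A2 (hD01 : Stmt_D01) : Stmt_A2 := by
  classical
  intro V _ _ G U D hdeg hD hno
  let W := {x : V // x ∈ U}
  let A : SimpleGraph W := G.comap Subtype.val
  let N : SimpleGraph W :=
    { Adj := fun u v => HA G u.1 v.1
      symm := ⟨fun u v h => h.symm⟩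
      loopless := ⟨fun u h => h.1 rfl⟩ }
  have hAadj : ∀ u v : W, A.Adj u v ↔ G.Adj u.1 v.1 := fun u v => Iff.rfl
  have hNadj : ∀ u v : W, N.Adj u v ↔ HA G u.1 v.1 := fun u v => Iff.rfl
  have h1 : ∀ u v, A.Adj u v → N.Adj u v := fun u v h => HA.of_adj h
  have h2 : ∀ v, (GYA.nb A v).card ≤ D := by
    intro v
    refine le_trans ?_ (hdeg v.1)
    refine Finset.card_le_card_of_injOn Subtype.val ?_ (fun a _ b _ h => Subtype.ext h)
    intro u hu
    have hu' := GYA.mem_nb.mp (Finset.mem_coe.mp hu)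
    exact Finset.mem_coe.mpr (mem_gn.mpr ⟨mem_univ _, hu'⟩)
  have h3 : ∀ v, (GYA.nb N v).card ≤ D ^ 2 := by
    intro v
    refine le_trans ?_ (hD01 V G D hdeg v.1).2
    refine Finset.card_le_card_of_injOn Subtype.val ?_ (fun a _ b _ h => Subtype.ext h)
    intro u hu
    have hu' := GYA.mem_nb.mp (Finset.mem_coe.mp hu)
    exact Finset.mem_coe.mpr (mem_hn.mpr ⟨mem_univ _, hu'⟩)
  have h4 : ¬ ∃ f : W → ℕ, (∀ v, f v ≤ D ^ 2) ∧ (∀ u v, N.Adj u v → f u ≠ f v) ∧
      (∀ u v, A.Adj u v → f u + 2 ≤ f v ∨ f v + 2 ≤ f u) := by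
    rintro ⟨f, hf1, hf2, hf3⟩
    apply hno
    refine ⟨fun x => if h : x ∈ U then f ⟨x, h⟩ else 0, ?_, ?_, ?_⟩
    · intro u hu
      simp only [dif_pos hu]
      exact hf1 _
    · intro u hu v hv huv
      simp only [dif_pos hu, dif_pos hv]
      exact hf2 ⟨u, hu⟩ ⟨v, hv⟩ huv
    · intro u hu v hv huv
      simp only [dif_pos hu, dif_pos hv]
      exact hf3 ⟨u, hu⟩ ⟨v, hv⟩ huv
  obtain ⟨K, hK, hKc⟩ := GYA.near_clique A N D (by omega) h1 h2 h3 h4
  refine ⟨K.map ⟨Subtype.val, Subtype.val_injective⟩, ?_, ?_, ?_⟩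
  · intro x hx
    rw [Finset.mem_map] at hx
    obtain ⟨a, _, rfl⟩ := hx
    exact a.2
  · intro u hu v hv huv
    rw [Finset.mem_map] at hu hv
    obtain ⟨a, ha, rfl⟩ := hu
    obtain ⟨b, hb, rfl⟩ := hv
    exact hK a ha b hb (fun h => huv (by rw [h]))
  · rw [Finset.card_map]
    exact hKc

end GYD
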