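import Pool.Agent.GYD.StmtsB
import Pool.Agent.GYD.StmtsC

set_option autoImplicit false

/-!
# B01: the closure of a large clique
-/

namespace GYD

open Finset

namespace B01

variable {V : Type} [Fintype V] [DecidableEq V] {G : SimpleGraph V}

theorem hn_clique {C : Finset V} (h : ∀ u ∈ C, ∀ v ∈ C, u ≠ v → HA G u v) {e : V} (he : e ∈ C) :
    hn G C e = C.erase e := by
  ext u
  rw [mem_hn, mem_erase]
  constructor
  · rintro ⟨h1, h2⟩
    exact ⟨h2.ne.symm, h1⟩
  · rintro ⟨h1, h2⟩
    exact ⟨h2, h e he u h2 h1.symm⟩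

theorem hn_union (S T : Finset V) (x : V) : hn G (S ∪ T) x = hn G S x ∪ hn G T x := by
  ext u
  simp only [mem_hn, mem_union]
  tauto

theorem double_count (S T : Finset V) :
    ∑ x ∈ S, (hn G T x).card = ∑ e ∈ T, (hn G S e).card := by
  classical
  have h1 : ∀ (S T : Finset V), ∑ x ∈ S, (hn G T x).card =
      ∑ x ∈ S, ∑ e ∈ T, if HA G x e then 1 else 0 := by
    intro S T
    refine sum_congr rfl fun x _ => ?_
    rw [hn, card_filter]
  rw [h1, h1, sum_comm]
  refine sum_congr rfl fun e _ => sum_congr rfl fun x _ => ?_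
  simp only [HA.comm (u := x) (v := e)]

end B01

open B01 in
theorem t_B01 (hD01 : Stmt_D01) : Stmt_B01 := by
  classical
  intro V _ _ G U C₀ D hdeg hD hCU hcl hcard
  have hdeg2 : ∀ v, (hn G univ v).card ≤ D ^ 2 := fun v => (hD01 V G D hdeg v).2
  have hsq : 10 ^ 8 * D ≤ D ^ 2 := by
    rw [pow_two]
    exact Nat.mul_le_mul_right D hD
  have hC0 : C₀.Nonempty := by
    rw [← card_pos]
    omega
  have hcle : ∀ e ∈ C₀, (hn G C₀ e).card + 1 = C₀.card := by
    intro e he
    rw [hn_clique hcl he, card_erase_add_one he]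
  have hn0 : C₀.card ≤ D ^ 2 + 1 := by
    obtain ⟨e, he⟩ := hC0
    have h1 := hcle e he
    have h2 := card_le_card (hn_mono G (subset_univ C₀) e)
    have h3 := hdeg2 e
    omega
  set E : Finset V := U.filter (fun x => 4 * (C₀.card - 1) ≤ 5 * (hn G C₀ x).card) with hE
  have hCE : C₀ ⊆ E := by
    intro e he
    rw [hE, mem_filter]
    refine ⟨hCU he, ?_⟩
    have h1 := hcle e he
    omega
  -- the number of new vertices
  have hR : (E \ C₀).card ≤ 77 * D := by
    have h1 : ∀ e ∈ C₀, (hn G (E \ C₀) e).card ≤ 61 * D := by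
      intro e he
      have h2 : (hn G (E \ C₀) e ∪ hn G C₀ e).card = (hn G (E \ C₀) e).card + (hn G C₀ e).card := by
        apply card_union_of_disjoint
        rw [disjoint_left]
        intro u hu hu'
        rw [mem_hn, mem_sdiff] at hu
        rw [mem_hn] at hu'
        exact hu.1.2 hu'.1
      have h3 : (hn G (E \ C₀) e ∪ hn G C₀ e).card ≤ (hn G univ e).card := by
        rw [← hn_union]
        exact card_le_card (hn_mono G (subset_univ _) e)
      have h4 := hdeg2 e
      have h5 := hcle e he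
      omega
    have h2 : ∑ e ∈ C₀, (hn G (E \ C₀) e).card ≤ C₀.card * (61 * D) := by
      have := sum_le_card_nsmul C₀ (fun e => (hn G (E \ C₀) e).card) (61 * D) h1
      rwa [smul_eq_mul] at this
    have h3 : ∀ x ∈ E \ C₀, 4 * (C₀.card - 1) ≤ 5 * (hn G C₀ x).card := by
      intro x hx
      rw [mem_sdiff, hE, mem_filter] at hx
      exact hx.1.2
    have h4 : (E \ C₀).card * (4 * (C₀.card - 1)) ≤ ∑ x ∈ E \ C₀, 5 * (hn G C₀ x).card := by
      have := card_nsmul_le_sum (E \ C₀) (fun x => 5 * (hn G C₀ x).card) (4 * (C₀.card - 1)) h3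
      rwa [smul_eq_mul] at this
    rw [← mul_sum, double_count] at h4
    have h5 : (E \ C₀).card * (4 * (C₀.card - 1)) ≤ 5 * (C₀.card * (61 * D)) :=
      h4.trans (Nat.mul_le_mul_left 5 h2)
    by_contra hlt
    push Not at hlt
    obtain ⟨m, hm⟩ : ∃ m, C₀.card = m + 1 := ⟨C₀.card - 1, by omega⟩
    rw [hm] at h5
    have h6 : (77 * D + 1) * (4 * (m + 1 - 1)) ≤ (E \ C₀).card * (4 * (m + 1 - 1)) :=
      Nat.mul_le_mul_right _ hlt
    have h7 : (77 * D + 1) * (4 * (m + 1 - 1)) ≤ 5 * ((m + 1) * (61 * D)) := h6.trans h5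
    have h8 : 305 ≤ m := by omega
    have h9 : 305 * D ≤ m * D := Nat.mul_le_mul_right D h8
    rw [Nat.add_sub_cancel] at h7
    nlinarith
  have hEc : E.card = (E \ C₀).card + C₀.card := by
    rw [card_sdiff_add_card_eq_card hCE]
  refine ⟨E, filter_subset _ _, by omega, fun x hx => ?_, fun y hy hyE => ?_⟩
  · rw [hE, mem_filter] at hx
    have h1 := card_le_card (hn_mono G hCE x)
    omega
  · have h1 : ¬ 4 * (C₀.card - 1) ≤ 5 * (hn G C₀ y).card := by
      intro h
      apply hyE
      rw [hE, mem_filter]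
      exact ⟨hy, h⟩
    have h2 : (hn G E y).card ≤ (hn G (E \ C₀) y).card + (hn G C₀ y).card := by
      have h3 : E = E \ C₀ ∪ C₀ := by
        rw [sdiff_union_of_subset hCE]
      have h4 : hn G E y = hn G (E \ C₀) y ∪ hn G C₀ y := by
        conv_lhs => rw [h3]
        exact hn_union _ _ _
      rw [h4]
      exact card_union_le _ _
    have h3 : (hn G (E \ C₀) y).card ≤ (E \ C₀).card := by
      rw [hn]
      exact card_filter_le _ _
    omega

end GYD
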