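import Pool.Agent.GYD.StmtsB

set_option autoImplicit false

/-!
# B02: a maximal set of disjoint non-adjacent pairs
-/

namespace GYD

open Finset

namespace B02

variable {V : Type} [Fintype V] [DecidableEq V]

theorem pairs_empty (G : SimpleGraph V) (E : Finset V) : Pairs G E ∅ :=
  ⟨fun p hp => absurd hp (notMem_empty p), fun p hp => absurd hp (notMem_empty p),
    fun p hp => absurd hp (notMem_empty p), fun p hp => absurd hp (notMem_empty p)⟩

theorem pairs_insert {G : SimpleGraph V} {E : Finset V} {P : Finset (V × V)} (hP : Pairs G E P)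
    {x y : V} (hx : x ∈ E \ pv P) (hy : y ∈ E \ pv P) (hxy : x ≠ y) (hn : ¬ HA G x y) :
    Pairs G E (insert (x, y) P) := by
  rw [mem_sdiff] at hx hy
  have hx' : ∀ p ∈ P, x ≠ p.1 ∧ x ≠ p.2 := fun p hp =>
    ⟨fun h => hx.2 (mem_pv.2 ⟨p, hp, Or.inl h⟩), fun h => hx.2 (mem_pv.2 ⟨p, hp, Or.inr h⟩)⟩
  have hy' : ∀ p ∈ P, y ≠ p.1 ∧ y ≠ p.2 := fun p hp =>
    ⟨fun h => hy.2 (mem_pv.2 ⟨p, hp, Or.inl h⟩), fun h => hy.2 (mem_pv.2 ⟨p, hp, Or.inr h⟩)⟩
  refine ⟨?_, ?_, ?_, ?_⟩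
  · intro p hp
    rcases mem_insert.1 hp with rfl | hp
    · exact ⟨hx.1, hy.1⟩
    · exact hP.mem p hp
  · intro p hp
    rcases mem_insert.1 hp with rfl | hp
    · exact hxy
    · exact hP.ne p hp
  · intro p hp
    rcases mem_insert.1 hp with rfl | hp
    · exact hn
    · exact hP.nadj p hp
  · intro p hp q hq hpq
    rcases mem_insert.1 hp with rfl | hp <;> rcases mem_insert.1 hq with rfl | hq
    · exact absurd rfl hpq
    · exact ⟨(hx' q hq).1, (hx' q hq).2, (hy' q hq).1, (hy' q hq).2⟩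
    · exact ⟨(hx' p hp).1.symm, (hy' p hp).1.symm, (hx' p hp).2.symm, (hy' p hp).2.symm⟩
    · exact hP.disj p hp q hq hpq

end B02

theorem t_B02 : Stmt_B02 := by
  intro V _ _ G E
  classical
  obtain ⟨P, hP, hmax⟩ := exists_max_image ((univ : Finset (Finset (V × V))).filter
    (fun P => Pairs G E P)) (fun P => P.card)
    ⟨∅, mem_filter.2 ⟨mem_univ _, B02.pairs_empty G E⟩⟩
  have hP' : Pairs G E P := (mem_filter.1 hP).2
  refine ⟨P, hP', fun x hx y hy hxy => ?_⟩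
  by_contra hn
  have h1 := hmax (insert (x, y) P) (mem_filter.2 ⟨mem_univ _, B02.pairs_insert hP' hx hy hxy hn⟩)
  have h2 : (x, y) ∉ P := fun h => (mem_sdiff.1 hx).2 (mem_pv.2 ⟨(x, y), h, Or.inl rfl⟩)
  rw [card_insert_of_notMem h2] at h1
  omega

end GYD
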