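import Pool.Agent.GYD.StmtsB

/-!
# B03: the number of vertices of a set of pairs, subsets
-/

set_option autoImplicit false

namespace GYD

open Finset

theorem t_B03 : Stmt_B03 := by
  intro V _ _ G E P hP
  refine ⟨?_, ?_, ?_⟩
  · have h1 : (P.image Prod.fst).card = P.card := by
      refine card_image_of_injOn fun p hp q hq h => ?_
      by_contra hne
      exact (hP.disj p hp q hq hne).1 h
    have h2 : (P.image Prod.snd).card = P.card := by
      refine card_image_of_injOn fun p hp q hq h => ?_
      by_contra hne
      exact (hP.disj p hp q hq hne).2.2.2 h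
    have h3 : Disjoint (P.image Prod.fst) (P.image Prod.snd) := by
      rw [disjoint_left]
      intro x hx hx'
      obtain ⟨p, hp, rfl⟩ := mem_image.1 hx
      obtain ⟨q, hq, h⟩ := mem_image.1 hx'
      by_cases hpq : p = q
      · subst hpq
        exact hP.ne p hp h.symm
      · exact (hP.disj p hp q hq hpq).2.1 h.symm
    unfold pv
    rw [card_union_of_disjoint h3, h1, h2, two_mul]
  · intro x hx
    obtain ⟨p, hp, rfl | rfl⟩ := mem_pv.1 hx
    · exact (hP.mem p hp).1
    · exact (hP.mem p hp).2
  · intro P' h'
    exact ⟨fun p hp => hP.mem p (h' hp), fun p hp => hP.ne p (h' hp),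
      fun p hp => hP.nadj p (h' hp), fun p hp q hq => hP.disj p (h' hp) q (h' hq)⟩

end GYD
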