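import Pool.Agent.GYD.StmtsB

set_option autoImplicit false
set_option linter.unusedVariables false
set_option linter.unusedSectionVars false

/-!
# B04: extension of a labelling by one vertex or by two non-adjacent vertices
-/

namespace GYD

open Finset

namespace B04

variable {V : Type} [Fintype V] [DecidableEq V]

theorem key1 {G : SimpleGraph V} {W : Finset V} {φ : V → ℕ} {z u : V} {i : ℕ}
    (hi : i ∉ forb G W φ z) (hu : u ∈ W) (h : HA G z u) : φ u ≠ i := by
  classical
  intro he
  apply hi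
  unfold forb
  exact mem_union_left _ (mem_image.2 ⟨u, mem_hn.2 ⟨hu, h⟩, he⟩)

theorem key2 {G : SimpleGraph V} {W : Finset V} {φ : V → ℕ} {z u : V} {i : ℕ}
    (hi : i ∉ forb G W φ z) (hu : u ∈ W) (h : G.Adj z u) : i + 2 ≤ φ u ∨ φ u + 2 ≤ i := by
  classical
  have h1 : φ u ≠ i := key1 hi hu (HA.of_adj h)
  have h2 : φ u + 1 ≠ i := by
    intro he
    apply hi
    unfold forb
    exact mem_union_right _ (mem_union_left _ (mem_image.2 ⟨u, mem_gn.2 ⟨hu, h⟩, he⟩))
  have h3 : φ u - 1 ≠ i := by
    intro he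
    apply hi
    unfold forb
    exact mem_union_right _ (mem_union_right _ (mem_image.2 ⟨u, mem_gn.2 ⟨hu, h⟩, he⟩))
  omega

end B04

theorem t_B04 : Stmt_B04 := by
  classical
  intro V _ _ G W N φ x y hL hx hy hxy hc
  obtain ⟨i, hi1, hi2⟩ : ∃ i ∈ range (N + 1), i ∉ forb G W φ x ∪ forb G W φ y := by
    apply Finset.exists_mem_notMem_of_card_lt_card
    rw [card_range]
    omega
  rw [mem_range] at hi1
  rw [mem_union, not_or] at hi2
  have hz : ∀ z, (z = x ∨ z = y) → i ∉ forb G W φ z := by
    rintro z (rfl | rfl)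
    · exact hi2.1
    · exact hi2.2
  have hzz : ∀ z w, (z = x ∨ z = y) → (w = x ∨ w = y) → ¬ HA G z w := by
    rintro z w (rfl | rfl) (rfl | rfl)
    · exact not_HA_self
    · exact hxy
    · exact fun h => hxy h.symm
    · exact not_HA_self
  have hmem : ∀ u, u ∈ insert x (insert y W) → (u = x ∨ u = y) ∨ (¬ (u = x ∨ u = y) ∧ u ∈ W) := by
    intro u hu
    rw [mem_insert, mem_insert] at hu
    by_cases h : u = x ∨ u = y
    · exact Or.inl h
    · refine Or.inr ⟨h, ?_⟩
      rcases hu with hu | hu | hu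
      · exact absurd (Or.inl hu) h
      · exact absurd (Or.inr hu) h
      · exact hu
  refine ⟨fun u => if u = x ∨ u = y then i else φ u, ⟨?_, ?_, ?_⟩, ?_, ?_⟩
  · intro u hu
    show (if u = x ∨ u = y then i else φ u) ≤ N
    rcases hmem u hu with h | ⟨h, h'⟩
    · rw [if_pos h]; omega
    · rw [if_neg h]; exact hL.le u h'
  · intro u hu v hv h
    show (if u = x ∨ u = y then i else φ u) ≠ (if v = x ∨ v = y then i else φ v)
    rcases hmem u hu with h1 | ⟨h1, h1'⟩ <;> rcases hmem v hv with h2 | ⟨h2, h2'⟩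
    · exact absurd h (hzz u v h1 h2)
    · rw [if_pos h1, if_neg h2]
      exact (B04.key1 (hz u h1) h2' h).symm
    · rw [if_neg h1, if_pos h2]
      exact B04.key1 (hz v h2) h1' h.symm
    · rw [if_neg h1, if_neg h2]
      exact hL.ne u h1' v h2' h
  · intro u hu v hv h
    show (if u = x ∨ u = y then i else φ u) + 2 ≤ (if v = x ∨ v = y then i else φ v) ∨
      (if v = x ∨ v = y then i else φ v) + 2 ≤ (if u = x ∨ u = y then i else φ u)
    rcases hmem u hu with h1 | ⟨h1, h1'⟩ <;> rcases hmem v hv with h2 | ⟨h2, h2'⟩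
    · exact absurd (HA.of_adj h) (hzz u v h1 h2)
    · rw [if_pos h1, if_neg h2]
      exact B04.key2 (hz u h1) h2' h
    · rw [if_neg h1, if_pos h2]
      exact (B04.key2 (hz v h2) h1' h.symm).symm
    · rw [if_neg h1, if_neg h2]
      exact hL.adj u h1' v h2' h
  · intro u hu
    show (if u = x ∨ u = y then i else φ u) = φ u
    rw [if_neg]
    rintro (rfl | rfl)
    · exact hx hu
    · exact hy hu
  · show (if x = x ∨ x = y then i else φ x) = (if y = x ∨ y = y then i else φ y)
    rw [if_pos (Or.inl rfl), if_pos (Or.inr rfl)]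

end GYD
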