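import Pool.Agent.GYD.StmtsB
import Pool.Agent.GYD.StmtsC

set_option autoImplicit false

/-!
# Griggs-Yeh, part B, module B05 (labelling the pairs)
-/

namespace GYD

open Finset

namespace B05

variable {V : Type} [Fintype V] [DecidableEq V]

theorem forb_card (G : SimpleGraph V) (W : Finset V) (φ : V → ℕ) (x : V) :
    (forb G W φ x).card ≤ (hn G W x).card + 2 * (gn G W x).card := by
  unfold forb
  refine (card_union_le _ _).trans ?_
  refine Nat.add_le_add card_image_le ?_
  refine (card_union_le _ _).trans ?_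
  have h1 := card_image_le (s := gn G W x) (f := fun u => φ u + 1)
  have h2 := card_image_le (s := gn G W x) (f := fun u => φ u - 1)
  rw [two_mul]
  exact Nat.add_le_add card_image_le card_image_le

theorem bound (G : SimpleGraph V) (U E W Q : Finset V) (D : ℕ) (x : V)
    (hdeg : (gn G univ x).card ≤ D) (h2 : (hn G univ x).card ≤ D ^ 2)
    (hE : D ^ 2 + 1 ≤ E.card + 61 * D)
    (hc2 : 5 * (E.card - (hn G E x).card) ≤ D ^ 2 + 400 * D) (hW : W = (U \ E) ∪ Q)
    (hQ : Q.card ≤ 10 * D) (φ : V → ℕ) :
    5 * (forb G W φ x).card ≤ D ^ 2 + 765 * D := by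
  have h3 := forb_card G W φ x
  have h4 : (gn G W x).card ≤ D := (card_le_card (gn_mono G (subset_univ W) x)).trans hdeg
  have h5 : (hn G W x).card ≤ (hn G (U \ E) x).card + Q.card := by
    refine (card_le_card ?_).trans (card_union_le _ _)
    intro u hu
    rw [mem_hn, hW, mem_union] at hu
    rw [mem_union, mem_hn]
    rcases hu.1 with h | h
    · exact Or.inl ⟨h, hu.2⟩
    · exact Or.inr h
  have h6 : (hn G (U \ E) x).card + (hn G E x).card ≤ (hn G univ x).card := by
    rw [← card_union_of_disjoint]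
    · refine card_le_card ?_
      intro u hu
      rw [mem_union, mem_hn, mem_hn] at hu
      rw [mem_hn]
      rcases hu with h | h
      · exact ⟨mem_univ u, h.2⟩
      · exact ⟨mem_univ u, h.2⟩
    · rw [disjoint_left]
      intro u hu hu'
      rw [mem_hn, mem_sdiff] at hu
      rw [mem_hn] at hu'
      exact hu.1.2 hu'.1
  omega

end B05

theorem t_B05 (hB03 : Stmt_B03) (hB04 : Stmt_B04) (hD01 : Stmt_D01) : Stmt_B05 := by
  intro V _ _ G U E D P φ₀ hdeg hD hEU hE hc2 hP hPc hlab
  classical
  have key : ∀ P1 : Finset (V × V), P1 ⊆ P → ∃ φ : V → ℕ,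
      Lab G ((U \ E) ∪ pv P1) (D ^ 2) φ ∧ ∀ p ∈ P1, φ p.1 = φ p.2 := by
    intro P1
    induction P1 using Finset.induction_on with
    | empty =>
      intro _
      refine ⟨φ₀, ?_, by simp⟩
      have : pv (∅ : Finset (V × V)) = ∅ := by simp [pv]
      rw [this, union_empty]
      exact hlab
    | insert p P1 hp ih =>
      intro hsub
      have hpP : p ∈ P := hsub (mem_insert_self p P1)
      have hP1 : P1 ⊆ P := fun q hq => hsub (mem_insert_of_mem hq)
      obtain ⟨φ, hφ, hφ'⟩ := ih hP1
      have hne : ∀ q ∈ P1, p ≠ q := fun q hq h => hp (h ▸ hq)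
      have hx : p.1 ∉ (U \ E) ∪ pv P1 := by
        intro h
        rw [mem_union, mem_sdiff, mem_pv] at h
        rcases h with h | ⟨q, hq, h⟩
        · exact h.2 (hP.mem p hpP).1
        · have hd := hP.disj p hpP q (hP1 hq) (hne q hq)
          rcases h with h | h
          · exact hd.1 h
          · exact hd.2.1 h
      have hy : p.2 ∉ (U \ E) ∪ pv P1 := by
        intro h
        rw [mem_union, mem_sdiff, mem_pv] at h
        rcases h with h | ⟨q, hq, h⟩
        · exact h.2 (hP.mem p hpP).2
        · have hd := hP.disj p hpP q (hP1 hq) (hne q hq)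
          rcases h with h | h
          · exact hd.2.2.1 h
          · exact hd.2.2.2 h
      have hQ : (pv P1).card ≤ 10 * D := by
        have h1 := (hB03 V G E P1 ((hB03 V G E P hP).2.2 P1 hP1)).1
        have h2 := card_le_card hP1
        omega
      have hb : (forb G ((U \ E) ∪ pv P1) φ p.1 ∪ forb G ((U \ E) ∪ pv P1) φ p.2).card ≤
          D ^ 2 := by
        have h1 := B05.bound G U E ((U \ E) ∪ pv P1) (pv P1) D p.1 (hdeg _)
          (hD01 V G D hdeg _).2 hE (hc2 _ (hP.mem p hpP).1) rfl hQ φ
        have h2 := B05.bound G U E ((U \ E) ∪ pv P1) (pv P1) D p.2 (hdeg _)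
          (hD01 V G D hdeg _).2 hE (hc2 _ (hP.mem p hpP).2) rfl hQ φ
        have h3 := card_union_le (forb G ((U \ E) ∪ pv P1) φ p.1)
          (forb G ((U \ E) ∪ pv P1) φ p.2)
        have h4 : 10 ^ 8 * D ≤ D ^ 2 := by
          rw [pow_two]
          exact Nat.mul_le_mul_right D hD
        omega
      obtain ⟨φ', h1, h2, h3⟩ := hB04 V G ((U \ E) ∪ pv P1) (D ^ 2) φ p.1 p.2 hφ hx hy
        (hP.nadj p hpP) (by
          convert hb)
      refine ⟨φ', ?_, ?_⟩
      · have h4 : (U \ E) ∪ pv (insert p P1) = insert p.1 (insert p.2 ((U \ E) ∪ pv P1)) := by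
          ext u
          simp only [mem_union, mem_insert, mem_sdiff, mem_pv]
          constructor
          · rintro (h | ⟨q, rfl | hq, rfl | rfl⟩)
            · exact Or.inr (Or.inr (Or.inl h))
            · exact Or.inl rfl
            · exact Or.inr (Or.inl rfl)
            · exact Or.inr (Or.inr (Or.inr ⟨q, hq, Or.inl rfl⟩))
            · exact Or.inr (Or.inr (Or.inr ⟨q, hq, Or.inr rfl⟩))
          · rintro (rfl | rfl | h | ⟨q, hq, h⟩)
            · exact Or.inr ⟨p, Or.inl rfl, Or.inl rfl⟩
            · exact Or.inr ⟨p, Or.inl rfl, Or.inr rfl⟩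
            · exact Or.inl h
            · exact Or.inr ⟨q, Or.inr hq, h⟩
        rw [h4]
        exact h1
      · intro q hq
        rw [mem_insert] at hq
        rcases hq with rfl | hq
        · exact h3
        · rw [h2, h2]
          · exact hφ' q hq
          · exact mem_union_right _ (mem_pv.2 ⟨q, hq, Or.inr rfl⟩)
          · exact mem_union_right _ (mem_pv.2 ⟨q, hq, Or.inl rfl⟩)
  obtain ⟨φ, h1, h2⟩ := key P (Subset.refl P)
  refine ⟨φ, ?_, h2⟩
  have hpvE : pv P ⊆ E := (hB03 V G E P hP).2.1
  have h3 : U \ (E \ pv P) = (U \ E) ∪ pv P := by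
    ext u
    simp only [mem_sdiff, mem_union]
    constructor
    · rintro ⟨hu, h⟩
      by_cases hE' : u ∈ E
      · right
        by_contra hc
        exact h ⟨hE', hc⟩
      · exact Or.inl ⟨hu, hE'⟩
    · rintro (⟨hu, h⟩ | h)
      · exact ⟨hu, fun h' => h h'.1⟩
      · exact ⟨hEU (hpvE h), fun h' => h'.2 h⟩
  rw [h3]
  exact h1

end GYD
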