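import Pool.Agent.GYD.StmtsB

set_option autoImplicit false
set_option linter.unusedVariables false
set_option linter.unusedSectionVars false

/-!
# B06: atypical vertices
-/

namespace GYD

open Finset

namespace B06

variable {V : Type} [Fintype V] [DecidableEq V]

open Classical in
theorem card_not_HA (G : SimpleGraph V) (E : Finset V) (x : V) :
    (E.filter (fun v => ¬ HA G v x)).card = E.card - (hn G E x).card := by
  have h := Finset.card_filter_add_card_filter_not (s := E) (p := fun v => HA G v x)
  have e : E.filter (fun v => HA G v x) = hn G E x := by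
    ext v
    rw [mem_filter, mem_hn]
    exact and_congr_right fun _ => HA.comm
  rw [e] at h
  omega

end B06

open B06 in
theorem t_B06 (hB03 : Stmt_B03) : Stmt_B06 := by
  intro V _ _ G E D P hdeg hD hE hP hPc
  classical
  let A : Finset V := (E \ pv P).filter
    (fun v => (P.filter (fun p => HA G v p.1 ∧ HA G v p.2)).card < 2 * D)
  refine ⟨A, filter_subset _ _, ?_, ?_⟩
  · have hsum : ∑ v ∈ A, (P.filter (fun p => ¬ (HA G v p.1 ∧ HA G v p.2))).card =
        ∑ p ∈ P, (A.filter (fun v => ¬ (HA G v p.1 ∧ HA G v p.2))).card := by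
      simp only [card_eq_sum_ones, sum_filter]
      exact sum_comm
    have hlow : A.card * (3 * D) ≤
        ∑ v ∈ A, (P.filter (fun p => ¬ (HA G v p.1 ∧ HA G v p.2))).card := by
      rw [← smul_eq_mul]
      apply Finset.card_nsmul_le_sum
      intro v hv
      have h1 := (mem_filter.1 hv).2
      have h2 := Finset.card_filter_add_card_filter_not (s := P)
        (p := fun p => HA G v p.1 ∧ HA G v p.2)
      omega
    have hup : 5 * ∑ p ∈ P, (A.filter (fun v => ¬ (HA G v p.1 ∧ HA G v p.2))).card ≤
        P.card * (2 * (D ^ 2 + 400 * D)) := by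
      rw [Finset.mul_sum, ← smul_eq_mul]
      apply Finset.sum_le_card_nsmul
      intro p hp
      have h1 : (A.filter (fun v => ¬ (HA G v p.1 ∧ HA G v p.2))).card ≤
          (E.filter (fun v => ¬ HA G v p.1)).card + (E.filter (fun v => ¬ HA G v p.2)).card := by
        refine le_trans (card_le_card ?_) (card_union_le _ _)
        intro v hv
        obtain ⟨hv1, hv2⟩ := mem_filter.1 hv
        have hvE : v ∈ E := (mem_sdiff.1 (mem_filter.1 hv1).1).1
        rw [mem_union, mem_filter, mem_filter]
        by_cases h3 : HA G v p.1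
        · right
          exact ⟨hvE, fun h4 => hv2 ⟨h3, h4⟩⟩
        · left
          exact ⟨hvE, h3⟩
      rw [card_not_HA, card_not_HA] at h1
      have h2 := hE p.1 (hP.mem p hp).1
      have h3 := hE p.2 (hP.mem p hp).2
      omega
    rw [← hsum, hPc] at hup
    have hD0 : 0 < D := by omega
    have h5 : 15 * D * A.card ≤ 15 * D * 0 + 5 * D * (2 * (D ^ 2 + 400 * D)) := by
      calc 15 * D * A.card = 5 * (A.card * (3 * D)) := by ring
        _ ≤ 5 * ∑ v ∈ A, (P.filter (fun p => ¬ (HA G v p.1 ∧ HA G v p.2))).card :=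
          Nat.mul_le_mul_left 5 hlow
        _ ≤ 5 * D * (2 * (D ^ 2 + 400 * D)) := hup
        _ ≤ _ := by omega
    have h6 : (5 * D) * (3 * A.card) ≤ (5 * D) * (2 * (D ^ 2 + 400 * D)) := by
      calc (5 * D) * (3 * A.card) = 15 * D * A.card := by ring
        _ ≤ _ := h5
        _ = _ := by ring
    have h7 := Nat.le_of_mul_le_mul_left h6 (by omega)
    omega
  · intro v hv
    rw [mem_sdiff] at hv
    refine ⟨P.filter (fun p => HA G v p.1 ∧ HA G v p.2), filter_subset _ _, ?_, ?_⟩
    · by_contra h
      exact hv.2 (mem_filter.2 ⟨hv.1, not_le.1 h⟩)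
    · intro p hp
      exact (mem_filter.1 hp).2

end GYD
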