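import Pool.Agent.GYD.StmtsB

set_option autoImplicit false

/-!
# GYD B07: greedy labelling of a set with few forbidden labels
-/

namespace GYD

open Finset

theorem t_B07 (hB04 : Stmt_B04) : Stmt_B07 := by
  intro V _ _ G W X N φ hφ hWX hf
  classical
  have key : ∀ Y : Finset V, Y ⊆ X →
      ∃ ψ : V → ℕ, Lab G (W ∪ Y) N ψ ∧ ∀ u ∈ W, ψ u = φ u := by
    intro Y
    induction Y using Finset.induction_on with
    | empty =>
      intro _
      exact ⟨φ, by rw [union_empty]; exact hφ, fun _ _ => rfl⟩
    | insert x Y hx ih =>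
      intro hs
      have hxX : x ∈ X := hs (mem_insert_self x Y)
      have hYX : Y ⊆ X := fun y hy => hs (mem_insert_of_mem hy)
      obtain ⟨ψ, hψ, hψW⟩ := ih hYX
      have hxW : x ∉ W := fun h => (Finset.disjoint_left.mp hWX) h hxX
      have hxWY : x ∉ W ∪ Y := by
        rw [mem_union]
        rintro (h | h)
        · exact hxW h
        · exact hx h
      have hc := hf Y ψ x hYX hxX hx hψ hψW
      obtain ⟨ψ', h1, h2, _⟩ := hB04 V G (W ∪ Y) N ψ x x hψ hxWY hxWY not_HA_self
        (by rw [union_self]; exact hc)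
      refine ⟨ψ', ?_, ?_⟩
      · rw [insert_idem] at h1
        rw [union_insert]
        exact h1
      · intro u hu
        rw [h2 u (mem_union_left Y hu), hψW u hu]
  exact key X (Finset.Subset.refl X)

end GYD
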