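import Pool.Agent.GYD.StmtsB
import Pool.Agent.GYD.StmtsC

set_option autoImplicit false

/-!
# B08: many pairs, everything can be labelled
-/

namespace GYD

open Finset

namespace B08

variable {V : Type} [Fintype V] [DecidableEq V]

theorem forb_le (G : SimpleGraph V) (D : ℕ) (hdeg : ∀ v, (gn G univ v).card ≤ D)
    (W : Finset V) (ψ : V → ℕ) (x : V) (k : ℕ) (h : ((hn G W x).image ψ).card ≤ k) :
    (forb G W ψ x).card ≤ k + 2 * D := by
  classical
  unfold forb
  have h1 : (gn G W x).card ≤ D := (card_le_card (gn_mono G (subset_univ W) x)).trans (hdeg x)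
  have h2 : ((gn G W x).image (fun u => ψ u + 1)).card ≤ D := card_image_le.trans h1
  have h3 : ((gn G W x).image (fun u => ψ u - 1)).card ≤ D := card_image_le.trans h1
  have h4 := card_union_le ((gn G W x).image (fun u => ψ u + 1))
    ((gn G W x).image (fun u => ψ u - 1))
  refine (card_union_le _ _).trans ?_
  omega

/-- the square-neighbours in two disjoint sets -/
theorem hn_add_le (G : SimpleGraph V) (D : ℕ) (h : ∀ v, (hn G univ v).card ≤ D ^ 2)
    {W T : Finset V} (hd : Disjoint W T) (x : V) :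
    (hn G W x).card + (hn G T x).card ≤ D ^ 2 := by
  classical
  have h1 : Disjoint (hn G W x) (hn G T x) := by
    rw [Finset.disjoint_left]
    intro u hu hu'
    exact (Finset.disjoint_left.1 hd) (mem_hn.1 hu).1 (mem_hn.1 hu').1
  rw [← card_union_of_disjoint h1]
  refine (card_le_card ?_).trans (h x)
  intro u hu
  rcases mem_union.1 hu with h2 | h2
  · exact hn_mono G (subset_univ W) x h2
  · exact hn_mono G (subset_univ T) x h2

theorem hn_ge (G : SimpleGraph V) {T E : Finset V} (hTE : T ⊆ E) (x : V) :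
    T.card ≤ (hn G T x).card + (E.card - (hn G E x).card) := by
  classical
  have h0 : hn G E x ⊆ E := fun u hu => (mem_hn.1 hu).1
  have h0' : hn G T x ⊆ T := fun u hu => (mem_hn.1 hu).1
  have h1 : T \ hn G T x ⊆ E \ hn G E x := by
    intro u hu
    rw [mem_sdiff] at hu ⊢
    refine ⟨hTE hu.1, fun h => hu.2 ?_⟩
    exact mem_hn.2 ⟨hu.1, (mem_hn.1 h).2⟩
  have h2 := card_le_card h1
  rw [card_sdiff_of_subset h0, card_sdiff_of_subset h0'] at h2
  have h3 := card_le_card h0'
  omega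

theorem image_le (G : SimpleGraph V) {P' : Finset (V × V)} {W : Finset V} {ψ : V → ℕ} {x : V}
    {D : ℕ} (hW : (hn G W x).card ≤ D ^ 2)
    (hmem : ∀ p ∈ P', p.1 ∈ hn G W x ∧ p.2 ∈ hn G W x)
    (hlab : ∀ p ∈ P', ψ p.1 = ψ p.2)
    (hinj : ∀ p ∈ P', ∀ q ∈ P', p.1 = q.1 → p = q)
    (hne : ∀ p ∈ P', ∀ q ∈ P', p.2 ≠ q.1) :
    ((hn G W x).image ψ).card + P'.card ≤ D ^ 2 := by
  classical
  set Q := P'.image Prod.fst with hQ
  have hQc : Q.card = P'.card := card_image_of_injOn (fun p hp q hq h => hinj p hp q hq h)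
  have hQs : Q ⊆ hn G W x := by
    intro u hu
    obtain ⟨p, hp, rfl⟩ := mem_image.1 hu
    exact (hmem p hp).1
  have h1 : (hn G W x).image ψ ⊆ ((hn G W x) \ Q).image ψ := by
    intro j hj
    obtain ⟨u, hu, rfl⟩ := mem_image.1 hj
    by_cases huQ : u ∈ Q
    · obtain ⟨p, hp, rfl⟩ := mem_image.1 huQ
      refine mem_image.2 ⟨p.2, mem_sdiff.2 ⟨(hmem p hp).2, ?_⟩, (hlab p hp).symm⟩
      intro h2
      obtain ⟨q, hq, hqe⟩ := mem_image.1 h2
      exact hne p hp q hq hqe.symm
    · exact mem_image.2 ⟨u, mem_sdiff.2 ⟨hu, huQ⟩, rfl⟩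
  have h2 := (card_le_card h1).trans card_image_le
  rw [card_sdiff_of_subset hQs, hQc] at h2
  have h3 := card_le_card hQs
  rw [hQc] at h3
  omega

end B08

open B08 in
theorem t_B08 (hB03 : Stmt_B03) (hB06 : Stmt_B06) (hB07 : Stmt_B07) (hD01 : Stmt_D01) :
    Stmt_B08 := by
  intro V _ _ G U E D P φ hdeg hD hEU hE hE5 hP hPc hlab hφ
  classical
  obtain ⟨hpv, hpvE, -⟩ := hB03 V G E P hP
  obtain ⟨A, hA, hA3, hAt⟩ := hB06 V G E D P hdeg hD hE5 hP hPc
  have hN : ∀ v, (hn G univ v).card ≤ D ^ 2 := fun v => (hD01 V G D hdeg v).2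
  set C2 := E \ pv P with hC2
  have hC2E : C2 ⊆ E := sdiff_subset
  have hC2c : C2.card = E.card - 10 * D := by
    rw [hC2, card_sdiff_of_subset hpvE, hpv, hPc]
    omega
  have hTc : (C2 \ A).card = C2.card - A.card := card_sdiff_of_subset hA
  have hAc := card_le_card hA
  have hDD : 10 ^ 8 * D ≤ D ^ 2 := by
    rw [pow_two]
    exact Nat.mul_le_mul_right D hD
  have hpvW : ∀ u ∈ pv P, u ∈ U \ C2 := by
    intro u hu
    rw [mem_sdiff]
    exact ⟨hEU (hpvE hu), fun h => (mem_sdiff.1 h).2 hu⟩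
  -- the vertices with few common pairs
  obtain ⟨φ₁, hlab₁, hφ₁⟩ := hB07 V G (U \ C2) A (D ^ 2) φ hlab (by
      rw [Finset.disjoint_left]
      intro u hu hu'
      exact (mem_sdiff.1 hu).2 (hA hu')) (by
      intro Y ψ x hY hx _ _ _
      have hxE : x ∈ E := hC2E (hA hx)
      have hd : Disjoint (U \ C2 ∪ Y) (C2 \ A) := by
        rw [Finset.disjoint_left]
        intro u hu hu'
        rw [mem_sdiff] at hu'
        rcases mem_union.1 hu with h | h
        · exact (mem_sdiff.1 h).2 hu'.1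
        · exact hu'.2 (hY h)
      have h1 := hn_add_le G D hN hd x
      have h2 := hn_ge G (T := C2 \ A) (sdiff_subset.trans hC2E) x
      have h3 := hE5 x hxE
      have h4 : 2 * D ≤ (hn G (C2 \ A) x).card := by omega
      have h5 : ((hn G (U \ C2 ∪ Y) x).image ψ).card ≤ D ^ 2 - 2 * D := by
        refine card_image_le.trans ?_
        omega
      have h6 := forb_le G D hdeg (U \ C2 ∪ Y) ψ x _ h5
      omega)
  -- the other vertices
  obtain ⟨φ₂, hlab₂, -⟩ := hB07 V G (U \ C2 ∪ A) (C2 \ A) (D ^ 2) φ₁ hlab₁ (by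
      rw [Finset.disjoint_left]
      intro u hu hu'
      rw [mem_sdiff] at hu'
      rcases mem_union.1 hu with h | h
      · exact (mem_sdiff.1 h).2 hu'.1
      · exact hu'.2 h) (by
      intro Y ψ x hY hx _ _ hψ
      obtain ⟨P', hP', hP'c, hP'h⟩ := hAt x hx
      have hW : (hn G (U \ C2 ∪ A ∪ Y) x).card ≤ D ^ 2 :=
        (card_le_card (hn_mono G (subset_univ _) x)).trans (hN x)
      have hm1 : ∀ p ∈ P', p.1 ∈ U \ C2 := fun p hp => hpvW _ (mem_pv.2 ⟨p, hP' hp, Or.inl rfl⟩)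
      have hm2 : ∀ p ∈ P', p.2 ∈ U \ C2 := fun p hp => hpvW _ (mem_pv.2 ⟨p, hP' hp, Or.inr rfl⟩)
      have h1 := image_le G (P' := P') (W := U \ C2 ∪ A ∪ Y) (ψ := ψ) (x := x) (D := D) hW
        (fun p hp => ⟨mem_hn.2 ⟨mem_union_left _ (mem_union_left _ (hm1 p hp)), (hP'h p hp).1⟩,
          mem_hn.2 ⟨mem_union_left _ (mem_union_left _ (hm2 p hp)), (hP'h p hp).2⟩⟩)
        (fun p hp => by
          rw [hψ _ (mem_union_left _ (hm1 p hp)), hψ _ (mem_union_left _ (hm2 p hp)),
            hφ₁ _ (hm1 p hp), hφ₁ _ (hm2 p hp)]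
          exact hφ p (hP' hp))
        (fun p hp q hq h => by
          by_contra hne
          exact (hP.disj p (hP' hp) q (hP' hq) hne).1 h)
        (fun p hp q hq h => by
          by_cases hpq : p = q
          · subst hpq
            exact hP.ne p (hP' hp) h.symm
          · exact (hP.disj p (hP' hp) q (hP' hq) hpq).2.2.1 h)
      have h2 : ((hn G (U \ C2 ∪ A ∪ Y) x).image ψ).card ≤ D ^ 2 - 2 * D := by omega
      have h3 := forb_le G D hdeg (U \ C2 ∪ A ∪ Y) ψ x _ h2
      omega)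
  refine ⟨φ₂, ?_⟩
  have hU : U \ C2 ∪ A ∪ C2 \ A = U := by
    ext u
    simp only [mem_union, mem_sdiff]
    constructor
    · rintro ((h | h) | h)
      · exact h.1
      · exact hEU (hC2E (hA h))
      · exact hEU (hC2E h.1)
    · intro hu
      by_cases h1 : u ∈ C2
      · by_cases h2 : u ∈ A
        · exact Or.inl (Or.inr h2)
        · exact Or.inr ⟨h1, h2⟩
      · exact Or.inl (Or.inl ⟨hu, h1⟩)
  rw [hU] at hlab₂
  exact hlab₂

end GYD
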