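import Pool.Agent.GYD.StmtsB
import Pool.Agent.GYD.StmtsC

set_option autoImplicit false
set_option linter.unusedVariables false

/-!
# Blocked labels of a vertex of the clique
-/

namespace GYD

open Finset

namespace C01

theorem swap {α β : Type*} (R : Finset α) (A : Finset β) (P : β → α → Prop)
    [∀ u j, Decidable (P u j)] (c : ℕ)
    (h : ∀ u ∈ A, (R.filter (fun j => P u j)).card ≤ c) :
    ∑ j ∈ R, (A.filter (fun u => P u j)).card ≤ c * A.card := by
  have e : ∑ j ∈ R, (A.filter (fun u => P u j)).card
      = ∑ u ∈ A, (R.filter (fun j => P u j)).card := by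
    simp_rw [Finset.card_filter]
    rw [Finset.sum_comm]
  rw [e]
  calc ∑ u ∈ A, (R.filter (fun j => P u j)).card ≤ ∑ u ∈ A, c := Finset.sum_le_sum h
    _ = c * A.card := by rw [Finset.sum_const, smul_eq_mul, mul_comm]

end C01

theorem t_C01 (hD01 : Stmt_D01) : Stmt_C01 := by
  intro V _ _ G D s U C φ hB hL v hv
  classical
  constructor
  · have hle : (hn G U v).card ≤ D ^ 2 :=
      (Finset.card_le_card (hn_mono G (Finset.subset_univ U) v)).trans
        (hD01 V G D hB.deg v).2
    have hU : hn G U v = (C.erase v) ∪ hn G (U \ C) v := by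
      ext u
      simp only [mem_hn, mem_union, mem_erase, mem_sdiff]
      constructor
      · rintro ⟨h1, h2⟩
        by_cases hu : u ∈ C
        · exact Or.inl ⟨h2.ne.symm, hu⟩
        · exact Or.inr ⟨⟨h1, hu⟩, h2⟩
      · rintro (⟨h1, h2⟩ | ⟨⟨h1, h2⟩, h3⟩)
        · exact ⟨hB.CU h2, hB.clq v hv u h2 h1.symm⟩
        · exact ⟨h1, h3⟩
    have hd : Disjoint (C.erase v) (hn G (U \ C) v) := by
      rw [Finset.disjoint_left]
      intro u h1 h2
      rw [mem_hn, mem_sdiff] at h2
      exact h2.1.2 (Finset.mem_of_mem_erase h1)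
    have hc : (hn G U v).card = (C.card - 1) + (hn G (U \ C) v).card := by
      rw [hU, Finset.card_union_of_disjoint hd, Finset.card_erase_of_mem hv]
    have hp : 0 < C.card := Finset.card_pos.mpr ⟨v, hv⟩
    have hcs := hB.cards
    unfold slk
    omega
  · have h1 : ∑ j ∈ range (D ^ 2 + 1), ((hn G (U \ C) v).filter (fun u => φ u = j)).card
        ≤ 1 * (hn G (U \ C) v).card := by
      refine C01.swap _ _ (fun u j => φ u = j) 1 fun u _ => ?_
      refine (Finset.card_le_card (t := {φ u}) ?_).trans (Finset.card_singleton _).le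
      intro j hj
      rw [mem_filter] at hj
      rw [mem_singleton]
      exact hj.2.symm
    have h2 : ∑ j ∈ range (D ^ 2 + 1), ((gn G (U \ C) v).filter
        (fun u => φ u = j + 1 ∨ φ u + 1 = j)).card ≤ 2 * (gn G (U \ C) v).card := by
      refine C01.swap _ _ (fun u j => φ u = j + 1 ∨ φ u + 1 = j) 2 fun u _ => ?_
      refine (Finset.card_le_card (t := {φ u - 1, φ u + 1}) ?_).trans Finset.card_le_two
      intro j hj
      rw [mem_filter] at hj
      rw [mem_insert, mem_singleton]
      rcases hj.2 with h | h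
      · left; omega
      · right; omega
    have e : ∑ j ∈ range (D ^ 2 + 1), mult G (U \ C) φ v j
        = ∑ j ∈ range (D ^ 2 + 1), ((hn G (U \ C) v).filter (fun u => φ u = j)).card
          + ∑ j ∈ range (D ^ 2 + 1), ((gn G (U \ C) v).filter
        (fun u => φ u = j + 1 ∨ φ u + 1 = j)).card := by
      rw [← Finset.sum_add_distrib]
      refine Finset.sum_congr rfl fun j _ => ?_
      unfold mult
      congr!
    rw [e]
    omega

end GYD
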