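import Pool.Agent.GYD.StmtsB

/-!
# The number of labels of `JJ` (PAPER 2.3)
-/

namespace GYD

open Finset

namespace C02

/-- number of blocked labels of `JJ` at one vertex -/
theorem blocked_le {V : Type} [Fintype V] [DecidableEq V] (hC01 : Stmt_C01) (G : SimpleGraph V)
    (D s : ℕ) (U C : Finset V) (φ : V → ℕ) (hB : Base G D s U C)
    (hL : Lab G (U \ C) (D ^ 2) φ) (v : V) (hv : v ∈ C) :
    ((JJ G D C (U \ C) φ).filter (fun j => ¬ mult G (U \ C) φ v j = 0)).card
      ≤ s + 2 * (gn G (U \ C) v).card := by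
  classical
  obtain ⟨h1, h2⟩ := hC01 V G D s U C φ hB hL v hv
  have h3 : ((JJ G D C (U \ C) φ).filter (fun j => ¬ mult G (U \ C) φ v j = 0)).card
      ≤ ∑ j ∈ range (D ^ 2 + 1), mult G (U \ C) φ v j := by
    rw [Finset.card_eq_sum_ones]
    calc ∑ j ∈ (JJ G D C (U \ C) φ).filter (fun j => ¬ mult G (U \ C) φ v j = 0), 1
        ≤ ∑ j ∈ (JJ G D C (U \ C) φ).filter (fun j => ¬ mult G (U \ C) φ v j = 0),
            mult G (U \ C) φ v j := by
          refine Finset.sum_le_sum fun j hj => ?_
          rw [Finset.mem_filter] at hj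
          exact Nat.one_le_iff_ne_zero.mpr hj.2
      _ ≤ ∑ j ∈ range (D ^ 2 + 1), mult G (U \ C) φ v j := by
          refine Finset.sum_le_sum_of_subset ?_
          intro j hj
          rw [Finset.mem_filter, mem_JJ] at hj
          exact Finset.mem_range.mpr (Nat.lt_succ_of_le hj.1.1)
  omega

/-- double counting -/
theorem double {V : Type} [Fintype V] [DecidableEq V] (G : SimpleGraph V)
    (C S : Finset V) (φ : V → ℕ) (J : Finset ℕ) :
    J.card * C.card = ∑ j ∈ J, (FF G C S φ j).card +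
      ∑ v ∈ C, (J.filter (fun j => ¬ mult G S φ v j = 0)).card := by
  classical
  have h1 : ∑ v ∈ C, (J.filter (fun j => ¬ mult G S φ v j = 0)).card
      = ∑ j ∈ J, (C.filter (fun v => ¬ mult G S φ v j = 0)).card := by
    simp only [Finset.card_filter]
    exact Finset.sum_comm
  rw [h1, ← Finset.sum_add_distrib]
  have h2 : ∀ j ∈ J, (FF G C S φ j).card + (C.filter (fun v => ¬ mult G S φ v j = 0)).card
      = C.card := by
    intro j _
    have : FF G C S φ j = C.filter (fun v => mult G S φ v j = 0) := by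
      ext v
      rw [mem_FF, Finset.mem_filter]
    rw [this]
    exact Finset.card_filter_add_card_filter_not (fun v => mult G S φ v j = 0)
  rw [Finset.sum_congr rfl h2, Finset.sum_const, smul_eq_mul]

end C02

theorem t_C02 (hC01 : Stmt_C01) : Stmt_C02 := by
  intro V _ _ G D s U C φ hB hL
  have hd := C02.double G C (U \ C) φ (JJ G D C (U \ C) φ)
  have hb : ∑ v ∈ C, ((JJ G D C (U \ C) φ).filter
      (fun j => ¬ mult G (U \ C) φ v j = 0)).card
      ≤ s * C.card + 2 * ∑ v ∈ C, (gn G (U \ C) v).card := by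
    calc _ ≤ ∑ v ∈ C, (s + 2 * (gn G (U \ C) v).card) :=
          Finset.sum_le_sum fun v hv => C02.blocked_le hC01 G D s U C φ hB hL v hv
      _ = s * C.card + 2 * ∑ v ∈ C, (gn G (U \ C) v).card := by
          rw [Finset.sum_add_distrib, Finset.sum_const, smul_eq_mul, ← Finset.mul_sum,
            Nat.mul_comm s]
  have hT : TT G D C (U \ C) φ = ∑ j ∈ JJ G D C (U \ C) φ, (FF G C (U \ C) φ j).card := rfl
  have hTle : TT G D C (U \ C) φ ≤ (JJ G D C (U \ C) φ).card * (83 * D) := by
    rw [hT, ← smul_eq_mul]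
    exact Finset.sum_le_card_nsmul _ _ _ fun j hj => (mem_JJ.mp hj).2
  have ha : ∑ v ∈ C, (gn G (U \ C) v).card ≤ C.card * D := by
    rw [← smul_eq_mul]
    exact Finset.sum_le_card_nsmul _ _ _ fun v _ =>
      le_trans (Finset.card_le_card (gn_mono G (Finset.subset_univ _) v)) (hB.deg v)
  have h2 : (JJ G D C (U \ C) φ).card * C.card ≤
      s * C.card + 2 * ∑ v ∈ C, (gn G (U \ C) v).card + TT G D C (U \ C) φ := by
    rw [hd, ← hT]
    omega
  have hbig := hB.big
  have hcards := hB.cards
  have hs := hB.s_le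
  -- size of `C`
  have hC : 7000 * D ≤ C.card := by
    have h3 : 10 ^ 8 * D ≤ D ^ 2 := by
      rw [pow_two]
      exact Nat.mul_le_mul_right D hbig
    omega
  generalize (JJ G D C (U \ C) φ).card = j at *
  generalize TT G D C (U \ C) φ = T at *
  generalize ∑ v ∈ C, (gn G (U \ C) v).card = a at *
  generalize C.card = c at *
  have h1 : j ≤ 75 * D := by
    by_contra hj
    push Not at hj
    have h4 : j * c ≤ 74 * D * c + j * (83 * D) := by
      have : s * c ≤ 72 * D * c := Nat.mul_le_mul_right c hs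
      nlinarith
    -- write `c = 83 D + c'`
    obtain ⟨c', rfl⟩ : ∃ c', c = 83 * D + c' := ⟨c - 83 * D, by omega⟩
    have h5 : (75 * D) * c' ≤ j * c' := Nat.mul_le_mul_right c' (le_of_lt hj)
    have h6 : 6900 * D ≤ c' := by omega
    have h7 : D * (6900 * D) ≤ D * c' := Nat.mul_le_mul_left D h6
    have h8 : 1 ≤ D * D := Nat.one_le_iff_ne_zero.mpr (by
      have : D ≠ 0 := by omega
      exact Nat.mul_ne_zero this this)
    nlinarith
  refine ⟨h1, h2, ?_⟩
  by_contra hj
  push Not at hj
  have h4 : j * c ≤ s * c + 2 * (c * D) + 75 * D * (83 * D) := by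
    have : j * (83 * D) ≤ 75 * D * (83 * D) := Nat.mul_le_mul_right _ h1
    omega
  have h5 : (s + 3 * D + 1) * c ≤ j * c := Nat.mul_le_mul_right c hj
  have h7 : D * (7000 * D) ≤ D * c := Nat.mul_le_mul_left D hC
  have h8 : 1 ≤ D * D := Nat.one_le_iff_ne_zero.mpr (by
    have : D ≠ 0 := by omega
    exact Nat.mul_ne_zero this this)
  nlinarith

end GYD
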