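import Pool.Agent.GYD.StmtsB

set_option autoImplicit false

/-!
# C03: greedy choice of pairs (vertex, label)
-/

namespace GYD

open Finset

namespace C03

/-- The pairs which conflict with the pair `p`. -/
def bad {V : Type} [DecidableEq V] (J : Finset ℕ) (F : ℕ → Finset V) (p : V × ℕ) :
    Finset (Σ _ : ℕ, V) :=
  (J.sigma F).filter (fun t => t.2 = p.1 ∨ (t.1 < p.2 + 2 ∧ p.2 < t.1 + 2))

theorem card_near (J : Finset ℕ) (a : ℕ) :
    (J.filter (fun j => j < a + 2 ∧ a < j + 2)).card ≤ 3 := by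
  have h1 : J.filter (fun j => j < a + 2 ∧ a < j + 2) ⊆ {a - 1, a, a + 1} := by
    intro j hj
    rw [mem_filter] at hj
    rw [mem_insert, mem_insert, mem_singleton]
    omega
  exact (card_le_card h1).trans card_le_three

theorem card_bad {V : Type} [DecidableEq V] (J : Finset ℕ) (F : ℕ → Finset V) (m c : ℕ)
    (hF : ∀ j ∈ J, (F j).card ≤ m) (hJ : J.card ≤ c) (p : V × ℕ) :
    (bad J F p).card ≤ 3 * m + c := by
  have h1 : bad J F p ⊆ ((J.filter (fun j => j < p.2 + 2 ∧ p.2 < j + 2)).sigma F) ∪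
      J.image (fun j => (⟨j, p.1⟩ : Σ _ : ℕ, V)) := by
    rintro ⟨j, v⟩ hj
    rw [bad, mem_filter, mem_sigma] at hj
    obtain ⟨⟨h2, h3⟩, h4⟩ := hj
    rw [mem_union]
    rcases h4 with h4 | h4
    · right
      rw [mem_image]
      refine ⟨j, h2, ?_⟩
      simp only at h4
      rw [h4]
    · left
      rw [mem_sigma, mem_filter]
      exact ⟨⟨h2, h4⟩, h3⟩
  refine (card_le_card h1).trans ((card_union_le _ _).trans (add_le_add ?_ ?_))
  · rw [card_sigma]
    refine (sum_le_card_nsmul _ _ m fun j hj => hF j (mem_filter.1 hj).1).trans ?_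
    rw [smul_eq_mul]
    exact Nat.mul_le_mul_right m (card_near J p.2)
  · exact card_image_le.trans hJ

end C03

open C03 in
theorem t_C03 : Stmt_C03 := by
  intro V _ J F m c q hF hJ
  induction q with
  | zero =>
    intro _
    exact ⟨∅, rfl, by simp, by simp⟩
  | succ q ih =>
    intro hq
    obtain ⟨Q, hQ, h1, h2⟩ := ih (lt_of_le_of_lt (Nat.mul_le_mul_right _ (Nat.le_succ q)) hq)
    have h3 : (Q.biUnion (bad J F)).card ≤ Q.card * (3 * m + c) :=
      card_biUnion_le_card_mul _ _ _ fun p _ => card_bad J F m c hF hJ p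
    have h4 : (Q.biUnion (bad J F)).card < (J.sigma F).card := by
      rw [card_sigma]
      refine lt_of_le_of_lt h3 (lt_of_le_of_lt ?_ hq)
      rw [hQ]
      exact Nat.mul_le_mul_right _ (Nat.le_succ q)
    obtain ⟨⟨j, v⟩, h5, h6⟩ := exists_mem_notMem_of_card_lt_card h4
    rw [mem_sigma] at h5
    have h7 : ∀ p ∈ Q, v ≠ p.1 ∧ (j + 2 ≤ p.2 ∨ p.2 + 2 ≤ j) := by
      intro p hp
      have h8 : (⟨j, v⟩ : Σ _ : ℕ, V) ∉ bad J F p := fun h => h6 (mem_biUnion.2 ⟨p, hp, h⟩)
      rw [bad, mem_filter, mem_sigma] at h8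
      push Not at h8
      have h9 := h8 h5
      refine ⟨h9.1, ?_⟩
      have h10 := h9.2
      simp only at h10
      by_contra h11
      omega
    have h8 : (v, j) ∉ Q := fun h => (h7 _ h).1 rfl
    refine ⟨insert (v, j) Q, by rw [card_insert_of_notMem h8, hQ], ?_, ?_⟩
    · intro p hp
      rcases mem_insert.1 hp with rfl | hp
      · exact h5
      · exact h1 p hp
    · intro p hp p' hp' hne
      rcases mem_insert.1 hp with rfl | hp
      · rcases mem_insert.1 hp' with rfl | hp'
        · exact absurd rfl hne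
        · exact h7 p' hp'
      · rcases mem_insert.1 hp' with rfl | hp'
        · exact ⟨(h7 p hp).1.symm, (h7 p hp).2.symm⟩
        · exact h2 p hp p' hp' hne

end GYD
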