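import Pool.Agent.GYD.StmtsB

set_option autoImplicit false

/-!
# C04: Hall's theorem in the form needed
-/

namespace GYD

open Finset

open Classical in
/-- Hall's theorem in the form needed. -/
theorem t_C04 : Stmt_C04 := by
  intro V _ C L Bl r h1 h2 h3
  have hsplit : ∀ v, (L.filter (fun j => Bl v j)).card + (L.filter (fun j => ¬ Bl v j)).card =
      L.card := fun v => card_filter_add_card_filter_not _
  have hsplit' : ∀ j, (C.filter (fun v => Bl v j)).card + (C.filter (fun v => ¬ Bl v j)).card =
      C.card := fun j => card_filter_add_card_filter_not _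
  have hall : ∀ X : Finset {v // v ∈ C}, X.card ≤
      (X.biUnion (fun v => L.filter (fun j => ¬ Bl v.1 j))).card := by
    intro X
    rcases X.eq_empty_or_nonempty with rfl | ⟨v₀, hv₀⟩
    · simp
    by_cases hj : ∃ j ∈ L, ∀ v ∈ X, Bl v.1 j
    · obtain ⟨j, hjL, hj⟩ := hj
      have e1 : X.card = (X.map (Function.Embedding.subtype _)).card := (card_map _).symm
      have e2 : X.map (Function.Embedding.subtype _) ⊆ C.filter (fun v => Bl v j) := by
        intro v hv
        rw [mem_map] at hv
        obtain ⟨w, hw, rfl⟩ := hv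
        exact mem_filter.mpr ⟨w.2, hj w hw⟩
      have e3 := card_le_card e2
      have e4 := hsplit' j
      have e5 := h2 j hjL
      have e6 := hsplit v₀.1
      have e7 := h1 v₀.1 v₀.2
      have e8 : (L.filter (fun j => ¬ Bl v₀.1 j)).card ≤
          (X.biUnion (fun v => L.filter (fun j => ¬ Bl v.1 j))).card :=
        card_le_card (subset_biUnion_of_mem (fun v => L.filter (fun j => ¬ Bl v.1 j)) hv₀)
      omega
    · push Not at hj
      have e1 : X.card = (X.map (Function.Embedding.subtype _)).card := (card_map _).symm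
      have e2 : X.map (Function.Embedding.subtype _) ⊆ C := by
        intro v hv
        rw [mem_map] at hv
        obtain ⟨w, hw, rfl⟩ := hv
        exact w.2
      have e3 := card_le_card e2
      have e4 : L ⊆ X.biUnion (fun v => L.filter (fun j => ¬ Bl v.1 j)) := by
        intro j hjL
        obtain ⟨v, hv, hb⟩ := hj j hjL
        exact mem_biUnion.mpr ⟨v, hv, mem_filter.mpr ⟨hjL, hb⟩⟩
      have e5 := card_le_card e4
      omega
  obtain ⟨f, hf, hf2⟩ := (Finset.all_card_le_biUnion_card_iff_exists_injective
    (fun v : {v // v ∈ C} => L.filter (fun j => ¬ Bl v.1 j))).mp hall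
  refine ⟨fun v => if hv : v ∈ C then f ⟨v, hv⟩ else 0, ?_, ?_⟩
  · intro v hv w hw hvw
    have hv' : v ∈ C := hv
    have hw' : w ∈ C := hw
    simp only [hv', hw', dif_pos] at hvw
    exact congrArg Subtype.val (hf hvw)
  · intro v hv
    have := mem_filter.mp (hf2 ⟨v, hv⟩)
    simp only [hv, dif_pos]
    exact this

end GYD
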