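import Pool.Agent.GYD.StmtsB

set_option autoImplicit false
set_option linter.unusedSectionVars false
set_option linter.unusedVariables false

/-!
# Removing the conflicts inside the clique by swaps
-/

namespace GYD

open Finset

namespace C05

variable {V : Type} [Fintype V] [DecidableEq V]

open Classical in
/-- the bad ordered pairs -/
noncomputable def bad (G : SimpleGraph V) (C : Finset V) (ψ : V → ℕ) : Finset (V × V) :=
  (C ×ˢ C).filter (fun p => G.Adj p.1 p.2 ∧ ¬ (ψ p.1 + 2 ≤ ψ p.2 ∨ ψ p.2 + 2 ≤ ψ p.1))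

theorem mem_bad {G : SimpleGraph V} {C : Finset V} {ψ : V → ℕ} {p : V × V} :
    p ∈ bad G C ψ ↔ (p.1 ∈ C ∧ p.2 ∈ C) ∧ G.Adj p.1 p.2 ∧
      ¬ (ψ p.1 + 2 ≤ ψ p.2 ∨ ψ p.2 + 2 ≤ ψ p.1) := by
  classical
  unfold bad
  rw [mem_filter, mem_product]

/-- the class of labellings of the clique -/
structure Cls (G : SimpleGraph V) (D s : ℕ) (U C C₂ : Finset V) (φ ψ : V → ℕ) : Prop where
  inj : Set.InjOn ψ C
  le : ∀ v ∈ C, ψ v ≤ D ^ 2
  mu : ∀ v ∈ C, mult G (U \ C) φ v (ψ v) = 0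
  out : ∀ v ∈ C \ C₂, ∀ w ∈ C \ C₂, G.Adj v w → ψ v + 2 ≤ ψ w ∨ ψ w + 2 ≤ ψ v
  ff : ∀ v ∈ C₂, s + 7 * D + 1 < (FF G C₂ (U \ C) φ (ψ v)).card

/-- number of vertices of the clique whose label is blocked for `v` -/
theorem card_blocked (hC01 : Stmt_C01) {G : SimpleGraph V} {D s : ℕ} {U C : Finset V}
    {φ ψ : V → ℕ} (hB : Base G D s U C) (hL : Lab G (U \ C) (D ^ 2) φ) (hinj : Set.InjOn ψ C)
    (hle : ∀ v ∈ C, ψ v ≤ D ^ 2) {v : V} (hv : v ∈ C) :
    (C.filter (fun w => mult G (U \ C) φ v (ψ w) ≠ 0)).card ≤ s + 2 * D := by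
  classical
  obtain ⟨h1, h2⟩ := hC01 V G D s U C φ hB hL v hv
  have h3 : (C.filter (fun w => mult G (U \ C) φ v (ψ w) ≠ 0)).card ≤
      ((range (D ^ 2 + 1)).filter (fun j => mult G (U \ C) φ v j ≠ 0)).card := by
    apply card_le_card_of_injOn ψ
    · intro w hw
      have hw' : w ∈ C ∧ mult G (U \ C) φ v (ψ w) ≠ 0 := by
        simpa [mem_filter] using hw
      have : ψ w ∈ (range (D ^ 2 + 1)).filter (fun j => mult G (U \ C) φ v j ≠ 0) := by
        rw [mem_filter, mem_range]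
        exact ⟨Nat.lt_succ_of_le (hle w hw'.1), hw'.2⟩
      exact mem_coe.mpr this
    · intro a ha b hb hab
      have ha' : a ∈ C ∧ mult G (U \ C) φ v (ψ a) ≠ 0 := by
        simpa [mem_filter] using ha
      have hb' : b ∈ C ∧ mult G (U \ C) φ v (ψ b) ≠ 0 := by
        simpa [mem_filter] using hb
      exact hinj (mem_coe.mpr ha'.1) (mem_coe.mpr hb'.1) hab
  have h4 : ((range (D ^ 2 + 1)).filter (fun j => mult G (U \ C) φ v j ≠ 0)).card ≤
      ∑ j ∈ range (D ^ 2 + 1), mult G (U \ C) φ v j := by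
    rw [card_eq_sum_ones]
    calc ∑ j ∈ (range (D ^ 2 + 1)).filter (fun j => mult G (U \ C) φ v j ≠ 0), 1
        ≤ ∑ j ∈ (range (D ^ 2 + 1)).filter (fun j => mult G (U \ C) φ v j ≠ 0),
            mult G (U \ C) φ v j := by
          apply sum_le_sum
          intro j hj
          rw [mem_filter] at hj
          exact Nat.one_le_iff_ne_zero.mpr hj.2
      _ ≤ _ := by
          apply sum_le_sum_of_subset
          exact filter_subset _ _
  have h5 : (gn G (U \ C) v).card ≤ D :=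
    le_trans (card_le_card (gn_mono G (subset_univ _) v)) (hB.deg v)
  omega

/-- number of vertices of the clique whose label lies in a given set -/
theorem card_lab {C : Finset V} {ψ : V → ℕ} (hinj : Set.InjOn ψ C) (T : Finset ℕ) :
    (C.filter (fun w => ψ w ∈ T)).card ≤ T.card := by
  classical
  apply card_le_card_of_injOn ψ
  · intro w hw
    have hw' : w ∈ C ∧ ψ w ∈ T := by simpa [mem_filter] using hw
    exact mem_coe.mpr hw'.2
  · intro a ha b hb hab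
    have ha' : a ∈ C ∧ ψ a ∈ T := by simpa [mem_filter] using ha
    have hb' : b ∈ C ∧ ψ b ∈ T := by simpa [mem_filter] using hb
    exact hinj (mem_coe.mpr ha'.1) (mem_coe.mpr hb'.1) hab

/-- the vertices adjacent to a vertex with a given label -/
theorem card_nb {G : SimpleGraph V} {D : ℕ} (hdeg : ∀ v, (gn G univ v).card ≤ D)
    {C : Finset V} {ψ : V → ℕ} (hinj : Set.InjOn ψ C) (P : ℕ → Prop) [DecidablePred P]
    (hP : ∀ a b, P a → P b → a = b) :
    ((C.filter (fun y => P (ψ y))).biUnion (fun y => gn G univ y)).card ≤ D := by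
  classical
  have h1 : (C.filter (fun y => P (ψ y))).card ≤ 1 := by
    rw [card_le_one]
    intro a ha b hb
    rw [mem_filter] at ha hb
    exact hinj (mem_coe.mpr ha.1) (mem_coe.mpr hb.1) (hP _ _ ha.2 hb.2)
  calc ((C.filter (fun y => P (ψ y))).biUnion (fun y => gn G univ y)).card
      ≤ (C.filter (fun y => P (ψ y))).card * D := card_biUnion_le_card_mul _ _ _ (fun y _ => hdeg y)
    _ ≤ 1 * D := Nat.mul_le_mul_right _ h1
    _ = D := one_mul _

/-- one swap -/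
theorem step (hC01 : Stmt_C01) {G : SimpleGraph V} {D s : ℕ} {U C C₂ : Finset V}
    {φ ψ : V → ℕ} (hB : Base G D s U C) (hL : Lab G (U \ C) (D ^ 2) φ) (hC2 : C₂ ⊆ C)
    (h : Cls G D s U C C₂ φ ψ) (hne : (bad G C ψ).Nonempty) :
    ∃ ψ' : V → ℕ, Cls G D s U C C₂ φ ψ' ∧ (bad G C ψ').card < (bad G C ψ).card := by
  classical
  -- a bad pair with first entry in `C₂`
  obtain ⟨v, u, hv, huC, hvu, hbad⟩ : ∃ v u, v ∈ C₂ ∧ u ∈ C ∧ G.Adj v u ∧
      ¬ (ψ v + 2 ≤ ψ u ∨ ψ u + 2 ≤ ψ v) := by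
    obtain ⟨⟨a, b⟩, hp⟩ := hne
    rw [mem_bad] at hp
    obtain ⟨⟨ha, hb⟩, hab, hn⟩ := hp
    simp only at ha hb hab hn
    by_cases h1 : a ∈ C₂
    · exact ⟨a, b, h1, hb, hab, hn⟩
    · by_cases h2 : b ∈ C₂
      · exact ⟨b, a, h2, ha, hab.symm, fun h' => hn (h'.symm)⟩
      · exact absurd (h.out a (mem_sdiff.mpr ⟨ha, h1⟩) b (mem_sdiff.mpr ⟨hb, h2⟩) hab) hn
  have hvC : v ∈ C := hC2 hv
  have hgC : (gn G C v).card ≤ D :=
    le_trans (card_le_card (gn_mono G (subset_univ _) v)) (hB.deg v)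
  -- the excluded vertices
  set X1 := C.filter (fun w => mult G (U \ C) φ v (ψ w) ≠ 0) with hX1
  set X3 := gn G univ v with hX3
  set X4 := C.filter (fun w => ψ w ∈ (gn G C v).image (fun x => ψ x + 1)) with hX4
  set X5 := C.filter (fun w => ψ w ∈ (gn G C v).image (fun x => ψ x - 1)) with hX5
  set X6 := (C.filter (fun y => ψ y = ψ v + 1)).biUnion (fun y => gn G univ y) with hX6
  set X7 := (C.filter (fun y => ψ y + 1 = ψ v)).biUnion (fun y => gn G univ y) with hX7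
  have c1 : X1.card ≤ s + 2 * D := card_blocked hC01 hB hL h.inj h.le hvC
  have c3 : X3.card ≤ D := hB.deg v
  have c4 : X4.card ≤ D := le_trans (card_lab h.inj _) (le_trans card_image_le hgC)
  have c5 : X5.card ≤ D := le_trans (card_lab h.inj _) (le_trans card_image_le hgC)
  have c6 : X6.card ≤ D := card_nb hB.deg h.inj (fun a => a = ψ v + 1) (by intro a b ha hb; omega)
  have c7 : X7.card ≤ D := card_nb hB.deg h.inj (fun a => a + 1 = ψ v) (by intro a b ha hb; omega)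
  have hcard : (X1 ∪ ({v} ∪ (X3 ∪ (X4 ∪ (X5 ∪ (X6 ∪ X7)))))).card ≤ s + 7 * D + 1 := by
    have e1 := card_union_le X1 ({v} ∪ (X3 ∪ (X4 ∪ (X5 ∪ (X6 ∪ X7)))))
    have e2 := card_union_le {v} (X3 ∪ (X4 ∪ (X5 ∪ (X6 ∪ X7))))
    have e3 := card_union_le X3 (X4 ∪ (X5 ∪ (X6 ∪ X7)))
    have e4 := card_union_le X4 (X5 ∪ (X6 ∪ X7))
    have e5 := card_union_le X5 (X6 ∪ X7)
    have e6 := card_union_le X6 X7
    have e7 : ({v} : Finset V).card = 1 := card_singleton v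
    omega
  obtain ⟨w, hw, hwX⟩ : ∃ w ∈ FF G C₂ (U \ C) φ (ψ v),
      w ∉ X1 ∪ ({v} ∪ (X3 ∪ (X4 ∪ (X5 ∪ (X6 ∪ X7))))) := by
    apply exists_mem_notMem_of_card_lt_card
    exact lt_of_le_of_lt hcard (h.ff v hv)
  rw [mem_FF] at hw
  obtain ⟨hwC2, hwm⟩ := hw
  have hwC : w ∈ C := hC2 hwC2
  simp only [mem_union, not_or, mem_singleton] at hwX
  obtain ⟨n1, n2, n3, n4, n5, n6, n7⟩ := hwX
  have p1 : mult G (U \ C) φ v (ψ w) = 0 := by
    by_contra hc
    exact n1 (by rw [hX1, mem_filter]; exact ⟨hwC, hc⟩)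
  have p3 : ¬ G.Adj v w := by
    intro hc
    exact n3 (by rw [hX3, mem_gn]; exact ⟨mem_univ _, hc⟩)
  have p4 : ∀ x ∈ C, G.Adj v x → ψ w ≠ ψ x + 1 := by
    intro x hx hvx hc
    exact n4 (by
      rw [hX4, mem_filter, mem_image]
      exact ⟨hwC, x, mem_gn.mpr ⟨hx, hvx⟩, hc.symm⟩)
  have p5 : ∀ x ∈ C, G.Adj v x → ψ w + 1 ≠ ψ x := by
    intro x hx hvx hc
    exact n5 (by
      rw [hX5, mem_filter, mem_image]
      exact ⟨hwC, x, mem_gn.mpr ⟨hx, hvx⟩, by omega⟩)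
  have p6 : ∀ y ∈ C, ψ y = ψ v + 1 → ¬ G.Adj w y := by
    intro y hy hyv hc
    exact n6 (by
      rw [hX6, mem_biUnion]
      exact ⟨y, by rw [mem_filter]; exact ⟨hy, hyv⟩, mem_gn.mpr ⟨mem_univ _, hc.symm⟩⟩)
  have p7 : ∀ y ∈ C, ψ y + 1 = ψ v → ¬ G.Adj w y := by
    intro y hy hyv hc
    exact n7 (by
      rw [hX7, mem_biUnion]
      exact ⟨y, by rw [mem_filter]; exact ⟨hy, hyv⟩, mem_gn.mpr ⟨mem_univ _, hc.symm⟩⟩)
  -- the swap
  set ψ' : V → ℕ := fun x => ψ (Equiv.swap v w x) with hψ'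
  have e_v : ψ' v = ψ w := by simp [hψ']
  have e_w : ψ' w = ψ v := by simp [hψ']
  have e_x : ∀ x, x ≠ v → x ≠ w → ψ' x = ψ x := by
    intro x h1 h2
    simp [hψ', Equiv.swap_apply_of_ne_of_ne h1 h2]
  have hswC : ∀ x ∈ C, Equiv.swap v w x ∈ C := by
    intro x hx
    by_cases h1 : x = v
    · rw [h1, Equiv.swap_apply_left]; exact hwC
    · by_cases h2 : x = w
      · rw [h2, Equiv.swap_apply_right]; exact hvC
      · rw [Equiv.swap_apply_of_ne_of_ne h1 h2]; exact hx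
  -- new pairs at `v`
  have new_v : ∀ y ∈ C, G.Adj v y → ψ' v + 2 ≤ ψ' y ∨ ψ' y + 2 ≤ ψ' v := by
    intro y hy hvy
    have hyw : y ≠ w := by rintro rfl; exact p3 hvy
    have hyv : y ≠ v := hvy.ne.symm
    rw [e_v, e_x y hyv hyw]
    have q4 := p4 y hy hvy
    have q5 := p5 y hy hvy
    have q0 : ψ w ≠ ψ y := by
      intro hc
      exact hyw (h.inj (mem_coe.mpr hy) (mem_coe.mpr hwC) hc.symm)
    omega
  have new_w : ∀ y ∈ C, G.Adj w y → ψ' w + 2 ≤ ψ' y ∨ ψ' y + 2 ≤ ψ' w := by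
    intro y hy hwy
    have hyv : y ≠ v := by rintro rfl; exact p3 hwy.symm
    have hyw : y ≠ w := hwy.ne.symm
    rw [e_w, e_x y hyv hyw]
    have q6 : ψ y ≠ ψ v + 1 := fun hc => p6 y hy hc hwy
    have q7 : ψ y + 1 ≠ ψ v := fun hc => p7 y hy hc hwy
    have q0 : ψ v ≠ ψ y := by
      intro hc
      exact hyv (h.inj (mem_coe.mpr hy) (mem_coe.mpr hvC) hc.symm)
    omega
  refine ⟨ψ', ⟨?_, ?_, ?_, ?_, ?_⟩, ?_⟩
  · intro a ha b hb hab
    have := h.inj (mem_coe.mpr (hswC a (mem_coe.mp ha))) (mem_coe.mpr (hswC b (mem_coe.mp hb))) hab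
    exact (Equiv.swap v w).injective this
  · intro x hx
    exact h.le _ (hswC x hx)
  · intro x hx
    by_cases h1 : x = v
    · rw [h1, e_v]; exact p1
    · by_cases h2 : x = w
      · rw [h2, e_w]; exact hwm
      · rw [e_x x h1 h2]; exact h.mu x hx
  · intro a ha b hb hab
    rw [mem_sdiff] at ha hb
    have a1 : a ≠ v := by rintro rfl; exact ha.2 hv
    have a2 : a ≠ w := by rintro rfl; exact ha.2 hwC2
    have b1 : b ≠ v := by rintro rfl; exact hb.2 hv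
    have b2 : b ≠ w := by rintro rfl; exact hb.2 hwC2
    rw [e_x a a1 a2, e_x b b1 b2]
    exact h.out a (mem_sdiff.mpr ha) b (mem_sdiff.mpr hb) hab
  · intro x hx
    by_cases h1 : x = v
    · rw [h1, e_v]; exact h.ff w hwC2
    · by_cases h2 : x = w
      · rw [h2, e_w]; exact h.ff v hv
      · rw [e_x x h1 h2]; exact h.ff x hx
  · apply card_lt_card
    rw [ssubset_iff_of_subset]
    · refine ⟨(v, u), ?_, ?_⟩
      · rw [mem_bad]
        exact ⟨⟨hvC, huC⟩, hvu, hbad⟩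
      · intro hc
        rw [mem_bad] at hc
        exact hc.2.2 (new_v u huC hvu)
    · intro p hp
      rw [mem_bad] at hp ⊢
      obtain ⟨⟨hp1, hp2⟩, hadj, hn⟩ := hp
      have a1 : p.1 ≠ v := by
        intro hc
        rw [hc] at hadj hn
        exact hn (new_v _ hp2 hadj)
      have a2 : p.1 ≠ w := by
        intro hc
        rw [hc] at hadj hn
        exact hn (new_w _ hp2 hadj)
      have b1 : p.2 ≠ v := by
        intro hc
        rw [hc] at hadj hn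
        exact hn (new_v _ hp1 hadj.symm).symm
      have b2 : p.2 ≠ w := by
        intro hc
        rw [hc] at hadj hn
        exact hn (new_w _ hp1 hadj.symm).symm
      rw [e_x _ a1 a2, e_x _ b1 b2] at hn
      exact ⟨⟨hp1, hp2⟩, hadj, hn⟩

end C05

theorem t_C05 (hC01 : Stmt_C01) : Stmt_C05 := by
  intro V _ _ G D s U C φ hB hL C₂ ψ hC2 hinj hval hout hff
  classical
  have key : ∀ n : ℕ, ∀ ψ : V → ℕ, C05.Cls G D s U C C₂ φ ψ → (C05.bad G C ψ).card = n →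
      ∃ ψ' : V → ℕ, C05.Cls G D s U C C₂ φ ψ' ∧ C05.bad G C ψ' = ∅ := by
    intro n
    induction n using Nat.strong_induction_on with
    | _ n ih =>
      intro ψ hψ hn
      by_cases hne : (C05.bad G C ψ).Nonempty
      · obtain ⟨ψ', h1, h2⟩ := C05.step hC01 hB hL hC2 hψ hne
        exact ih _ (hn ▸ h2) ψ' h1 rfl
      · exact ⟨ψ, hψ, not_nonempty_iff_eq_empty.mp hne⟩
  obtain ⟨ψ', h1, h2⟩ := key _ ψ ⟨hinj, fun v hv => (hval v hv).1, fun v hv => (hval v hv).2,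
    hout, hff⟩ rfl
  refine ⟨ψ', h1.inj, fun v hv => ⟨h1.le v hv, h1.mu v hv⟩, ?_⟩
  intro v hv w hw hvw
  by_contra hc
  have : (v, w) ∈ C05.bad G C ψ' := by
    rw [C05.mem_bad]
    exact ⟨⟨hv, hw⟩, hvw, hc⟩
  rw [h2] at this
  exact absurd this (notMem_empty _)

end GYD
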