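import Pool.Agent.GYD.StmtsB

/-! Glueing a labelling of `U \ C` and one of the clique `C` (module GYD_C06). -/

set_option autoImplicit false

namespace GYD

open Finset

namespace C06

variable {V : Type} [Fintype V] [DecidableEq V]

theorem cross {G : SimpleGraph V} {S : Finset V} {φ : V → ℕ} {u v : V} {j : ℕ}
    (h : mult G S φ u j = 0) (hv : v ∈ S) :
    (HA G u v → φ v ≠ j) ∧ (G.Adj u v → j + 2 ≤ φ v ∨ φ v + 2 ≤ j) := by
  have h0 : ¬ 0 < mult G S φ u j := by omega
  rw [mult_pos_iff] at h0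
  push Not at h0
  obtain ⟨h1, h2⟩ := h0
  refine ⟨fun huv => h1 v hv huv, fun huv => ?_⟩
  have h3 := h1 v hv (HA.of_adj huv)
  have h4 := h2 v hv huv
  omega

end C06

theorem t_C06 : Stmt_C06 := by
  intro V _ _ G D s U C φ ψ hB hL hinj h1 h2
  refine ⟨fun u => if u ∈ C then ψ u else φ u, ?_, ?_, ?_⟩
  · intro u hu
    by_cases hC : u ∈ C
    · simp only [hC, if_true]
      exact (h1 u hC).1
    · simp only [hC, if_false]
      exact hL.le u (mem_sdiff.2 ⟨hu, hC⟩)
  · intro u hu v hv huv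
    by_cases hC : u ∈ C
    · by_cases hC' : v ∈ C
      · simp only [hC, hC', if_true]
        exact fun h => huv.ne (hinj hC hC' h)
      · simp only [hC, hC', if_true, if_false]
        exact ((C06.cross (h1 u hC).2 (mem_sdiff.2 ⟨hv, hC'⟩)).1 huv).symm
    · by_cases hC' : v ∈ C
      · simp only [hC, hC', if_true, if_false]
        exact (C06.cross (h1 v hC').2 (mem_sdiff.2 ⟨hu, hC⟩)).1 huv.symm
      · simp only [hC, hC', if_false]
        exact hL.ne u (mem_sdiff.2 ⟨hu, hC⟩) v (mem_sdiff.2 ⟨hv, hC'⟩) huv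
  · intro u hu v hv huv
    by_cases hC : u ∈ C
    · by_cases hC' : v ∈ C
      · simp only [hC, hC', if_true]
        exact h2 u hC v hC' huv
      · simp only [hC, hC', if_true, if_false]
        exact (C06.cross (h1 u hC).2 (mem_sdiff.2 ⟨hv, hC'⟩)).2 huv
    · by_cases hC' : v ∈ C
      · simp only [hC, hC', if_true, if_false]
        exact ((C06.cross (h1 v hC').2 (mem_sdiff.2 ⟨hu, hC⟩)).2 huv.symm).symm
      · simp only [hC, hC', if_false]
        exact hL.adj u (mem_sdiff.2 ⟨hu, hC⟩) v (mem_sdiff.2 ⟨hv, hC'⟩) huv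

end GYD
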