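import Pool.Agent.GYD.StmtsB

set_option autoImplicit false
set_option linter.unusedVariables false

/-!
# The completion lemma (assembly)
-/

namespace GYD

open Finset

namespace C07

variable {V : Type} [Fintype V] [DecidableEq V]

theorem T_exists (G : SimpleGraph V) (D s : ℕ) (C S : Finset V) (φ : V → ℕ)
    (hC03 : Stmt_C03) (h75 : (JJ G D C S φ).card ≤ 75 * D)
    (h : (JJ G D C S φ).card ≤ s ∨ ((JJ G D C S φ).card - s) * (324 * D) < TT G D C S φ) :
    ∃ Q : Finset (V × ℕ), Q.card = (JJ G D C S φ).card - s ∧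
      (∀ p ∈ Q, p.2 ∈ JJ G D C S φ ∧ p.1 ∈ FF G C S φ p.2) ∧
      ∀ p ∈ Q, ∀ p' ∈ Q, p ≠ p' → p.1 ≠ p'.1 ∧ (p.2 + 2 ≤ p'.2 ∨ p'.2 + 2 ≤ p.2) := by
  rcases h with h | h
  · refine ⟨∅, ?_, ?_, ?_⟩
    · rw [Nat.sub_eq_zero_of_le h, card_empty]
    · intro p hp
      exact absurd hp (notMem_empty p)
    · intro p hp
      exact absurd hp (notMem_empty p)
  · refine hC03 V (JJ G D C S φ) (FF G C S φ) (83 * D) (75 * D) _ (fun j hj => (mem_JJ.mp hj).2)
      h75 ?_
    have e : 3 * (83 * D) + 75 * D = 324 * D := by ring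
    rw [e]
    exact h

theorem blocked_le (G : SimpleGraph V) (D s : ℕ) (U C : Finset V) (φ : V → ℕ)
    (hC01 : Stmt_C01) (hB : Base G D s U C) (hL : Lab G (U \ C) (D ^ 2) φ) (v : V) (hv : v ∈ C) :
    ∑ j ∈ range (D ^ 2 + 1), mult G (U \ C) φ v j ≤ s + 2 * D := by
  obtain ⟨h1, h2⟩ := hC01 V G D s U C φ hB hL v hv
  have h3 : (gn G (U \ C) v).card ≤ D :=
    (card_le_card (gn_mono G (subset_univ _) v)).trans (hB.deg v)
  omega

theorem free_ge (G : SimpleGraph V) (D s : ℕ) (C S V1 : Finset V) (φ : V → ℕ) (j : ℕ)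
    (hs : s ≤ 72 * D) (hD : 0 < D) (hV1 : V1.card ≤ 3 * D) (hj : j ≤ D ^ 2)
    (hjJ : j ∉ JJ G D C S φ) : s + 7 * D + 1 < (FF G (C \ V1) S φ j).card := by
  have h1 : 83 * D < (FF G C S φ j).card := by
    by_contra h
    exact hjJ (mem_JJ.mpr ⟨hj, not_lt.mp h⟩)
  have h2 : FF G C S φ j \ V1 ⊆ FF G (C \ V1) S φ j := by
    intro v hv
    rw [mem_sdiff, mem_FF] at hv
    rw [mem_FF, mem_sdiff]
    exact ⟨⟨hv.1.1, hv.2⟩, hv.1.2⟩
  have h3 := card_le_card h2
  have h4 := le_card_sdiff V1 (FF G C S φ j)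
  omega

theorem card_filter_pos_le {L R : Finset ℕ} (h : L ⊆ R) (f : ℕ → ℕ)
    {hd : DecidablePred (fun j => 0 < f j)} : (L.filter (fun j => 0 < f j)).card ≤ ∑ j ∈ R, f j := by
  calc (L.filter (fun j => 0 < f j)).card = ∑ j ∈ L.filter (fun j => 0 < f j), 1 :=
        card_eq_sum_ones _
    _ ≤ ∑ j ∈ L.filter (fun j => 0 < f j), f j := sum_le_sum fun j hj => (mem_filter.mp hj).2
    _ ≤ ∑ j ∈ R, f j := sum_le_sum_of_subset ((filter_subset _ _).trans h)

theorem le_filter {A B : Finset V} {p : V → Prop} {hd : DecidablePred p} (h1 : A ⊆ B)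
    (h2 : ∀ v ∈ A, p v) : A.card ≤ (B.filter p).card :=
  card_le_card fun v hv => mem_filter.mpr ⟨h1 hv, h2 v hv⟩

end C07

open C07 in
theorem t_C07 (hC01 : Stmt_C01) (hC02 : Stmt_C02) (hC03 : Stmt_C03) (hC04 : Stmt_C04)
    (hC05 : Stmt_C05) (hC06 : Stmt_C06) : Stmt_C07 := by
  intro V _ _ G D s U C φ hB hL hno
  classical
  obtain ⟨h75, _, h3D⟩ := hC02 V G D s U C φ hB hL
  have hD : 0 < D := by
    have := hB.big
    omega
  have hs := hB.s_le
  have main : ¬ ((JJ G D C (U \ C) φ).card ≤ s ∨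
      ((JJ G D C (U \ C) φ).card - s) * (324 * D) < TT G D C (U \ C) φ) := by
    intro hbad
    obtain ⟨Q, hQc, hQ1, hQ2⟩ := T_exists G D s C (U \ C) φ hC03 h75 hbad
    have hQ3 : ∀ p ∈ Q, ∀ p' ∈ Q, p.1 = p'.1 → p = p' := by
      intro p hp p' hp' h
      by_contra hne
      exact (hQ2 p hp p' hp' hne).1 h
    have hq3D : Q.card ≤ 3 * D := by omega
    have hV1c : (Q.image Prod.fst).card = Q.card :=
      card_image_of_injOn fun p hp p' hp' h => hQ3 p hp p' hp' h
    have hV1C : Q.image Prod.fst ⊆ C := by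
      intro v hv
      obtain ⟨p, hp, rfl⟩ := mem_image.mp hv
      exact (mem_FF.mp (hQ1 p hp).2).1
    have hC2c : (C \ Q.image Prod.fst).card + Q.card = C.card := by
      rw [← hV1c]
      exact card_sdiff_add_card_eq_card hV1C
    have hJsub : JJ G D C (U \ C) φ ⊆ range (D ^ 2 + 1) := filter_subset _ _
    have hLc : (range (D ^ 2 + 1) \ JJ G D C (U \ C) φ).card + (JJ G D C (U \ C) φ).card
        = D ^ 2 + 1 := by
      rw [card_sdiff_add_card_eq_card hJsub, card_range]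
    have hcards := hB.cards
    have hfree : ∀ j ≤ D ^ 2, j ∉ JJ G D C (U \ C) φ →
        s + 7 * D + 1 < (FF G (C \ Q.image Prod.fst) (U \ C) φ j).card := fun j hj hjJ =>
      free_ge G D s C (U \ C) (Q.image Prod.fst) φ j hs hD (hV1c.trans_le hq3D) hj hjJ
    obtain ⟨ψ₀, hψi, hψ⟩ := hC04 V (C \ Q.image Prod.fst)
      (range (D ^ 2 + 1) \ JJ G D C (U \ C) φ) (fun v j => 0 < mult G (U \ C) φ v j) (s + 2 * D)
      (by
        intro v hv
        have h1 := blocked_le G D s U C φ hC01 hB hL v (mem_sdiff.mp hv).1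
        exact (card_filter_pos_le sdiff_subset _).trans h1)
      (by
        intro j hj
        rw [mem_sdiff, mem_range] at hj
        have h1 := hfree j (by omega) hj.2
        refine le_trans ?_ (le_filter (A := FF G (C \ Q.image Prod.fst) (U \ C) φ j)
          (fun v hv => (mem_FF.mp hv).1) (fun v hv => by
            rw [(mem_FF.mp hv).2]
            exact lt_irrefl 0))
        omega)
      (by omega)
    -- the labelling of the clique
    let ψ : V → ℕ := fun v => if h : ∃ p ∈ Q, p.1 = v then h.choose.2 else ψ₀ v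
    have hψQ : ∀ p ∈ Q, ψ p.1 = p.2 := by
      intro p hp
      have h : ∃ p' ∈ Q, p'.1 = p.1 := ⟨p, hp, rfl⟩
      show (if h : ∃ p' ∈ Q, p'.1 = p.1 then h.choose.2 else ψ₀ p.1) = p.2
      rw [dif_pos h, hQ3 _ h.choose_spec.1 p hp h.choose_spec.2]
    have hψC : ∀ v ∈ C \ Q.image Prod.fst, ψ v = ψ₀ v := by
      intro v hv
      have h : ¬ ∃ p ∈ Q, p.1 = v := by
        rintro ⟨p, hp, rfl⟩
        exact (mem_sdiff.mp hv).2 (mem_image.mpr ⟨p, hp, rfl⟩)
      show (if h : ∃ p ∈ Q, p.1 = v then h.choose.2 else ψ₀ v) = ψ₀ v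
      rw [dif_neg h]
    have hcases : ∀ v ∈ C, (∃ p ∈ Q, p.1 = v) ∨ v ∈ C \ Q.image Prod.fst := by
      intro v hv
      by_cases h : v ∈ Q.image Prod.fst
      · obtain ⟨p, hp, h1⟩ := mem_image.mp h
        exact Or.inl ⟨p, hp, h1⟩
      · exact Or.inr (mem_sdiff.mpr ⟨hv, h⟩)
    have hinj : Set.InjOn ψ C := by
      intro v hv w hw hvw
      rcases hcases v hv with ⟨p, hp, rfl⟩ | hv'
      · rcases hcases w hw with ⟨p', hp', rfl⟩ | hw'
        · rw [hψQ p hp, hψQ p' hp'] at hvw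
          by_contra hne
          have h1 := (hQ2 p hp p' hp' fun h => hne (congrArg Prod.fst h)).2
          omega
        · rw [hψQ p hp, hψC w hw'] at hvw
          have h1 := (mem_sdiff.mp (hψ w hw').1).2
          rw [← hvw] at h1
          exact absurd (hQ1 p hp).1 h1
      · rcases hcases w hw with ⟨p', hp', rfl⟩ | hw'
        · rw [hψQ p' hp', hψC v hv'] at hvw
          have h1 := (mem_sdiff.mp (hψ v hv').1).2
          rw [hvw] at h1
          exact absurd (hQ1 p' hp').1 h1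
        · rw [hψC v hv', hψC w hw'] at hvw
          exact hψi hv' hw' hvw
    have hval : ∀ v ∈ C, ψ v ≤ D ^ 2 ∧ mult G (U \ C) φ v (ψ v) = 0 := by
      intro v hv
      rcases hcases v hv with ⟨p, hp, rfl⟩ | hv'
      · rw [hψQ p hp]
        exact ⟨(mem_JJ.mp (hQ1 p hp).1).1, (mem_FF.mp (hQ1 p hp).2).2⟩
      · rw [hψC v hv']
        obtain ⟨h1, h2⟩ := hψ v hv'
        rw [mem_sdiff, mem_range] at h1
        exact ⟨by omega, by omega⟩
    obtain ⟨ψ', h1, h2, h3⟩ := hC05 V G D s U C φ hB hL (C \ Q.image Prod.fst) ψ sdiff_subset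
      hinj hval
      (by
        intro v hv w hw hvw
        rw [mem_sdiff] at hv hw
        rcases hcases v hv.1 with ⟨p, hp, rfl⟩ | hv'
        · rcases hcases w hw.1 with ⟨p', hp', rfl⟩ | hw'
          · rw [hψQ p hp, hψQ p' hp']
            exact (hQ2 p hp p' hp' fun h => hvw.ne (congrArg Prod.fst h)).2
          · exact absurd hw' hw.2
        · exact absurd hv' hv.2)
      (by
        intro v hv
        have h1 := (hψ v hv).1
        rw [mem_sdiff, mem_range, ← hψC v hv] at h1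
        exact hfree (ψ v) (by omega) h1.2)
    exact hno (hC06 V G D s U C φ ψ' hB hL h1 h2 h3)
  rw [not_or, not_le, not_lt] at main
  exact { toBase := hB, lab := hL, J_ge := main.1, J_le := h75, T_le := main.2 }

end GYD
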