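import Pool.Agent.GYD.StmtsB
import Pool.Agent.GYD.StmtsC

set_option autoImplicit false

/-! # D01: walks of length at most two -/

namespace GYD

open Finset

namespace D01

variable {V : Type} [Fintype V] [DecidableEq V]

open Classical in
theorem cdg_eq (G : SimpleGraph V) (v x : V) :
    cdg G v x = ∑ m ∈ gn G univ v, (if G.Adj m x then 1 else 0) := by
  unfold cdg
  rw [Finset.card_filter]
  unfold gn
  rw [Finset.sum_filter]
  refine Finset.sum_congr rfl fun m _ => ?_
  by_cases h1 : G.Adj v m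
  · by_cases h2 : G.Adj m x
    · rw [if_pos ⟨h1, h2⟩, if_pos h1, if_pos h2]
    · rw [if_neg (fun h => h2 h.2), if_pos h1, if_neg h2]
  · rw [if_neg (fun h => h1 h.1), if_neg h1]

theorem sum_eq (G : SimpleGraph V) (v : V) :
    ∑ x ∈ univ.erase v, (cdg G v x + ad G v x) = ∑ m ∈ gn G univ v, (gn G univ m).card := by
  classical
  rw [Finset.sum_add_distrib]
  have h1 : ∑ x ∈ univ.erase v, cdg G v x =
      ∑ m ∈ gn G univ v, ((gn G univ m).erase v).card := by
    rw [Finset.sum_congr rfl fun x _ => cdg_eq G v x, Finset.sum_comm]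
    refine Finset.sum_congr rfl fun m _ => ?_
    rw [← Finset.card_filter]
    congr 1
    ext x
    rw [mem_filter, mem_erase, mem_erase, mem_gn]
    tauto
  have h2 : ∑ x ∈ univ.erase v, ad G v x = ∑ _m ∈ gn G univ v, 1 := by
    rw [← Finset.card_eq_sum_ones]
    unfold ad
    rw [← Finset.card_filter]
    congr 1
    ext x
    rw [mem_filter, mem_erase, mem_gn]
    constructor
    · rintro ⟨⟨-, h⟩, h'⟩
      exact ⟨h, h'⟩
    · rintro ⟨h, h'⟩
      exact ⟨⟨h'.ne', h⟩, h'⟩
  rw [h1, h2, ← Finset.sum_add_distrib]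
  refine Finset.sum_congr rfl fun m hm => ?_
  have h3 : v ∈ gn G univ m := mem_gn.mpr ⟨mem_univ _, (mem_gn.mp hm).2.symm⟩
  exact Finset.card_erase_add_one h3

end D01

theorem t_D01 : Stmt_D01 := by
  intro V _ _ G D hD v
  have h1 : ∑ x ∈ univ.erase v, (cdg G v x + ad G v x) ≤ D ^ 2 := by
    rw [D01.sum_eq]
    calc ∑ m ∈ gn G univ v, (gn G univ m).card ≤ ∑ _m ∈ gn G univ v, D :=
          Finset.sum_le_sum fun m _ => hD m
      _ = (gn G univ v).card * D := by rw [Finset.sum_const, smul_eq_mul]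
      _ ≤ D * D := Nat.mul_le_mul_right _ (hD v)
      _ = D ^ 2 := (sq D).symm
  refine ⟨h1, le_trans ?_ h1⟩
  rw [Finset.card_eq_sum_ones]
  refine le_trans (Finset.sum_le_sum (g := fun x => cdg G v x + ad G v x) ?_)
    (Finset.sum_le_sum_of_subset ?_)
  · intro x hx
    rcases (mem_hn.mp hx).2 with ⟨-, h | ⟨m, hm1, hm2⟩⟩
    · have : ad G v x = 1 := if_pos h
      omega
    · have : 0 < cdg G v x := by
        classical
        unfold cdg
        exact Finset.card_pos.mpr ⟨m, mem_filter.mpr ⟨mem_univ _, hm1, hm2⟩⟩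
      omega
  · intro x hx
    exact mem_erase.mpr ⟨(mem_hn.mp hx).2.1.symm, mem_univ _⟩

end GYD
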