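import Pool.Agent.GYD.StmtsC

set_option autoImplicit false
set_option linter.unusedSectionVars false

/-! (F2): sum of the numbers of common neighbours and the slack. -/

namespace GYD

open Finset

namespace D02

variable {V : Type} [Fintype V] [DecidableEq V]

/-- A neighbour in the square has weight at least one. -/
theorem one_le (G : SimpleGraph V) {v x : V} (h : HA G v x) : 1 ≤ cdg G v x + ad G v x := by
  classical
  obtain ⟨_, h | ⟨m, h1, h2⟩⟩ := h
  · have : ad G v x = 1 := by
      unfold ad
      rw [if_pos h]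
    omega
  · have : 0 < cdg G v x := by
      unfold cdg
      rw [Finset.card_pos]
      exact ⟨m, by simp only [mem_filter, mem_univ, true_and]; exact ⟨h1, h2⟩⟩
    omega

end D02

theorem t_D02 (hD01 : Stmt_D01) : Stmt_D02 := by
  classical
  intro V _ _ G D s U C hB v hv
  have hvU : v ∈ U := hB.CU hv
  have h1 := (hD01 V G D hB.deg v).1
  have hsub : hn G U v ∪ (univ \ U) ⊆ univ.erase v := by
    intro x hx
    rw [mem_erase]
    refine ⟨?_, mem_univ x⟩
    rintro rfl
    rcases mem_union.mp hx with h | h
    · exact (mem_hn.mp h).2.1 rfl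
    · exact (mem_sdiff.mp h).2 hvU
  have hdisj : Disjoint (hn G U v) (univ \ U) := by
    rw [Finset.disjoint_left]
    intro x hx hx'
    exact (mem_sdiff.mp hx').2 (mem_hn.mp hx).1
  have h2 : ∑ x ∈ hn G U v, (cdg G v x + ad G v x) + ∑ x ∈ univ \ U, (cdg G v x + ad G v x)
      ≤ D ^ 2 := by
    rw [← Finset.sum_union hdisj]
    exact (Finset.sum_le_sum_of_subset hsub).trans h1
  have h3 : ∑ x ∈ hn G U v, (cdg G v x + ad G v x - 1) + (hn G U v).card
      = ∑ x ∈ hn G U v, (cdg G v x + ad G v x) := by
    rw [Finset.card_eq_sum_ones, ← Finset.sum_add_distrib]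
    apply Finset.sum_congr rfl
    intro x hx
    have := D02.one_le G (mem_hn.mp hx).2
    omega
  unfold slk
  omega

end GYD
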