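import Pool.Agent.GYD.StmtsC

set_option autoImplicit false
set_option linter.unusedSectionVars false

/-!
# Griggs-Yeh, part B: (F3)
-/

namespace GYD

open Finset

namespace D03

variable {V : Type} [Fintype V] [DecidableEq V] {G : SimpleGraph V}

theorem one_le {v x : V} (h : HA G v x) : 1 ≤ cdg G v x + ad G v x := by
  classical
  rcases h.2 with h1 | ⟨m, h1, h2⟩
  · have : ad G v x = 1 := if_pos h1
    omega
  · have : 0 < cdg G v x := by
      unfold cdg
      exact card_pos.2 ⟨m, by simp [h1, h2]⟩
    omega

theorem cross (C : Finset V) (v : V) :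
    ∑ m ∈ gn G C v, (gn G (univ \ C) m).card ≤ ∑ x ∈ univ \ C, cdg G v x := by
  classical
  have h1 := sum_card_bipartiteAbove_eq_sum_card_bipartiteBelow (s := gn G C v)
    (t := univ \ C) G.Adj
  have h2 : ∀ m ∈ gn G C v, (gn G (univ \ C) m).card =
      ((univ \ C).bipartiteAbove G.Adj m).card := by
    intro m _
    congr 1
  rw [sum_congr rfl h2, h1]
  refine sum_le_sum fun x _ => ?_
  unfold cdg
  refine card_le_card fun m hm => ?_
  simp only [bipartiteBelow, mem_filter, mem_gn] at hm
  simp only [mem_filter, mem_univ, true_and]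
  exact ⟨hm.1.2, hm.2⟩

end D03

open D03 in
/-- (F3) -/
theorem t_D03 (hD01 : Stmt_D01) : Stmt_D03 := by
  intro V _ _ G D s U C hb v hv
  classical
  have h := (hD01 V G D hb.deg v).1
  have hu : (univ.erase v : Finset V) = C.erase v ∪ (univ \ C) := by
    ext x
    simp only [mem_erase, mem_univ, and_true, mem_union, mem_sdiff, true_and]
    constructor
    · intro hx
      by_cases hxC : x ∈ C
      · exact Or.inl ⟨hx, hxC⟩
      · exact Or.inr hxC
    · rintro (h1 | h1)
      · exact h1.1
      · rintro rfl
        exact h1 hv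
  have hd : Disjoint (C.erase v) (univ \ C) := by
    rw [disjoint_left]
    intro x hx hx'
    exact (mem_sdiff.1 hx').2 (mem_of_mem_erase hx)
  rw [hu, sum_union hd] at h
  have h1 : (C.erase v).card ≤ ∑ x ∈ C.erase v, (cdg G v x + ad G v x) := by
    rw [card_eq_sum_ones]
    refine sum_le_sum fun x hx => one_le ?_
    exact hb.clq v hv x (mem_of_mem_erase hx) (ne_of_mem_erase hx).symm
  have h2 : (C.erase v).card + 1 = C.card := card_erase_add_one hv
  have h3 := hb.cards
  have h4 : ∑ x ∈ univ \ C, (cdg G v x + ad G v x) ≤ s := by omega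
  refine ⟨h4, ?_, ?_⟩
  · have h5 : (C.erase v).card ≤ (hn G U v).card := by
      refine card_le_card fun x hx => ?_
      rw [mem_hn]
      exact ⟨hb.CU (mem_of_mem_erase hx),
        hb.clq v hv x (mem_of_mem_erase hx) (ne_of_mem_erase hx).symm⟩
    unfold slk
    omega
  · refine (cross C v).trans (le_trans ?_ h4)
    exact sum_le_sum fun x _ => Nat.le_add_right _ _

end GYD
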