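import Pool.Agent.GYD.StmtsB
import Pool.Agent.GYD.StmtsC

set_option autoImplicit false
set_option linter.unusedVariables false

/-!
# D04: walks of length two from a vertex of the clique into the clique (F4)
-/

namespace GYD

open Finset

namespace D04

variable {V : Type} [Fintype V] [DecidableEq V]

/-- Double counting of the walks of length two from `v` into `C`. -/
theorem sum_gn (G : SimpleGraph V) (C : Finset V) (v : V) :
    ∑ m ∈ gn G univ v, (gn G C m).card = ∑ x ∈ C, cdg G v x := by
  classical
  unfold cdg gn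
  simp only [Finset.card_filter]
  rw [Finset.sum_comm]
  refine Finset.sum_congr rfl fun x _ => ?_
  rw [Finset.sum_filter]
  refine Finset.sum_congr rfl fun m _ => ?_
  by_cases h1 : G.Adj v m <;> by_cases h2 : G.Adj m x <;> simp [h1, h2]

theorem cdg_self (G : SimpleGraph V) (v : V) : cdg G v v = (gn G univ v).card := by
  classical
  unfold cdg gn
  congr 1
  ext m
  simp only [mem_filter, mem_univ, true_and]
  exact ⟨fun h => h.1, fun h => ⟨h, h.symm⟩⟩

theorem one_le (G : SimpleGraph V) {v x : V} (h : HA G v x) : 1 ≤ cdg G v x + ad G v x := by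
  classical
  rcases h.2 with h1 | ⟨m, h1, h2⟩
  · have : ad G v x = 1 := if_pos h1
    omega
  · have : 0 < cdg G v x := by
      unfold cdg
      exact Finset.card_pos.mpr ⟨m, by simp [h1, h2]⟩
    omega

theorem sum_ad (G : SimpleGraph V) (C : Finset V) (v : V) :
    ∑ x ∈ C.erase v, ad G v x ≤ (gn G C v).card := by
  classical
  have h1 : (gn G C v).card = ∑ x ∈ C, ad G v x := by
    unfold gn ad
    rw [Finset.card_filter]
  rw [h1]
  exact Finset.sum_le_sum_of_subset (Finset.erase_subset v C)

theorem lower (G : SimpleGraph V) (C : Finset V)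
    (hC : ∀ u ∈ C, ∀ v ∈ C, u ≠ v → HA G u v) (v : V) (hv : v ∈ C) :
    C.card ≤ ∑ m ∈ gn G univ v, (gn G C m).card + 1 := by
  classical
  rw [sum_gn, ← Finset.add_sum_erase C _ hv, cdg_self]
  have h1 : (C.erase v).card ≤ ∑ x ∈ C.erase v, (cdg G v x + ad G v x) := by
    rw [Finset.card_eq_sum_ones]
    refine Finset.sum_le_sum fun x hx => ?_
    rw [Finset.mem_erase] at hx
    exact one_le G (hC v hv x hx.2 (fun h => hx.1 h.symm))
  rw [Finset.sum_add_distrib] at h1
  have h2 := sum_ad G C v
  have h3 : (gn G C v).card ≤ (gn G univ v).card :=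
    Finset.card_le_card (gn_mono G (Finset.subset_univ C) v)
  have h4 : (C.erase v).card + 1 = C.card := Finset.card_erase_add_one hv
  omega

theorem card_split (G : SimpleGraph V) (C : Finset V) (v : V) :
    (gn G univ v).card ≤ (gn G C v).card + (gn G (univ \ C) v).card := by
  classical
  have h1 : gn G univ v ⊆ gn G C v ∪ gn G (univ \ C) v := by
    intro x hx
    rw [mem_gn] at hx
    rw [mem_union, mem_gn, mem_gn]
    by_cases h : x ∈ C
    · exact Or.inl ⟨h, hx.2⟩
    · exact Or.inr ⟨by simp [h], hx.2⟩
  exact (Finset.card_le_card h1).trans (Finset.card_union_le _ _)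

end D04

open D04 in
/-- (F4) -/
theorem t_D04 (hD01 : Stmt_D01) : Stmt_D04 := by
  classical
  intro V _ _ G D s U C hB v hv
  have hdeg := hB.deg
  have hbig := hB.big
  have hcard := hB.cards
  have hs := hB.s_le
  have hlow := lower G C hB.clq v hv
  have hle : ∀ m, (gn G C m).card ≤ D := fun m =>
    (Finset.card_le_card (gn_mono G (Finset.subset_univ C) m)).trans (hdeg m)
  have hsum : ∑ m ∈ gn G univ v, (D - (gn G C m).card) + ∑ m ∈ gn G univ v, (gn G C m).card =
      (gn G univ v).card * D := by
    rw [← Finset.sum_add_distrib, Finset.sum_congr rfl fun m _ => Nat.sub_add_cancel (hle m),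
      Finset.sum_const, smul_eq_mul]
  have hup : (gn G univ v).card * D ≤ D ^ 2 := by
    rw [pow_two]
    exact Nat.mul_le_mul_right D (hdeg v)
  have ha : ∑ m ∈ gn G univ v, (D - (gn G C m).card) ≤ s := by omega
  have hb : D ≤ (gn G univ v).card + 72 := by
    have h1 : D ^ 2 ≤ (gn G univ v).card * D + 72 * D := by omega
    have h2 : D * D ≤ ((gn G univ v).card + 72) * D := by
      rw [add_mul, ← pow_two]
      exact h1
    exact Nat.le_of_mul_le_mul_right h2 (by omega)
  refine ⟨ha, hb, ?_, ?_⟩
  · obtain ⟨K, hK⟩ : ∃ K, K = (gn G univ v).filter (fun m => 2 * (gn G C m).card < D) := ⟨_, rfl⟩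
    rw [← hK]
    have h1 : K.card * (D + 1) ≤ ∑ m ∈ K, 2 * (D - (gn G C m).card) := by
      rw [← smul_eq_mul, ← Finset.sum_const]
      refine Finset.sum_le_sum fun m hm => ?_
      rw [hK, mem_filter] at hm
      have h2 := hm.2
      omega
    have h2 : ∑ m ∈ K, (D - (gn G C m).card) ≤ ∑ m ∈ gn G univ v, (D - (gn G C m).card) := by
      rw [hK]
      exact Finset.sum_le_sum_of_subset (Finset.filter_subset _ _)
    rw [← Finset.mul_sum] at h1
    by_contra h3
    have h4 : 145 * (D + 1) ≤ K.card * (D + 1) := Nat.mul_le_mul_right _ (by omega)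
    omega
  · have h1 := card_split G C v
    omega

end GYD
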