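import Pool.Agent.GYD.StmtsB
import Pool.Agent.GYD.StmtsC

/-!
# D05: the inequality (F1)
-/

set_option autoImplicit false

namespace GYD

open Finset

theorem t_D05 (hC01 : Stmt_C01) : Stmt_D05 := by
  classical
  intro V _ _ G D s U C φ hF v hv
  obtain ⟨h1, h2⟩ := hC01 V G D s U C φ hF.toBase hF.lab v hv
  have hJ := hF.J_ge
  have hsub : JJ G D C (U \ C) φ ⊆ range (D ^ 2 + 1) := filter_subset _ _
  have h3 := sum_sdiff (f := fun j => mult G (U \ C) φ v j) hsub
  have h4 : ∑ j ∈ JJ G D C (U \ C) φ, mult G (U \ C) φ v j + dfc G D C (U \ C) φ v =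
      ∑ j ∈ JJ G D C (U \ C) φ, (mult G (U \ C) φ v j - 1) + (JJ G D C (U \ C) φ).card := by
    unfold dfc
    rw [card_filter, card_eq_sum_ones, ← sum_add_distrib, ← sum_add_distrib]
    refine sum_congr rfl fun j _ => ?_
    split_ifs with h
    · rw [h]
    · omega
  omega

end GYD
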