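import Pool.Agent.GYD.StmtsC

set_option autoImplicit false

/-!
# GYD D06: total deficiency
-/

namespace GYD

open Finset

theorem t_D06 : Stmt_D06 := by
  intro V _ _ G D U C φ
  classical
  constructor
  · unfold TT dfc FF
    simp only [Finset.card_filter]
    rw [Finset.sum_comm]
  · intro v
    apply Finset.card_le_card
    apply gn_mono
    exact Finset.sdiff_subset_sdiff (Finset.subset_univ U) (Finset.Subset.refl C)

end GYD
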