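import Pool.Agent.GYD.StmtsB
import Pool.Agent.GYD.StmtsC

set_option autoImplicit false
set_option linter.unusedVariables false

/-!
# D07: (F0)
-/

namespace GYD

open Finset

namespace D07

theorem arith {J c s a T D e m : ℕ} (hJ : J = s + m) (h1 : J * c ≤ s * c + 2 * a + T)
    (h2 : T ≤ m * (324 * D)) (hc : c + s = D ^ 2 + 1) (hs : s ≤ 72 * D) (hD : 10 ^ 8 ≤ D)
    (ha : a ≤ e * D ^ 2) (he : e ≤ 1000) : m ≤ 2 * e + 1 := by
  by_contra hm
  have hm' : 2 * e + 2 ≤ m := by omega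
  subst hJ
  have h3 : m * c ≤ 2 * (e * D ^ 2) + m * (324 * D) := by
    have : (s + m) * c = s * c + m * c := by ring
    omega
  have h4 : D ^ 2 + 1 ≤ c + 72 * D := by omega
  have h5 : m * (D ^ 2 + 1) ≤ m * c + m * (72 * D) := by
    calc m * (D ^ 2 + 1) ≤ m * (c + 72 * D) := Nat.mul_le_mul_left _ h4
      _ = m * c + m * (72 * D) := by ring
  have h6 : m * (D ^ 2 + 1) ≤ 2 * (e * D ^ 2) + m * (396 * D) := by
    have e1 : m * (396 * D) = m * (324 * D) + m * (72 * D) := by ring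
    omega
  -- m (D^2 + 1 - 396 D) <= 2 e D^2
  have h7 : 396 * D ≤ D ^ 2 := by nlinarith
  obtain ⟨x, hx⟩ := Nat.exists_eq_add_of_le h7
  have h8 : m * (x + 1) ≤ 2 * e * D ^ 2 := by
    have e1 : m * (D ^ 2 + 1) = m * (396 * D) + m * (x + 1) := by rw [hx]; ring
    have e2 : 2 * (e * D ^ 2) = 2 * e * D ^ 2 := by ring
    omega
  have h9 : (2 * e + 2) * (x + 1) ≤ 2 * e * D ^ 2 :=
    le_trans (Nat.mul_le_mul_right _ hm') h8
  have h10 : 2 * x ≤ 2 * e * (396 * D) := by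
    have e1 : (2 * e + 2) * (x + 1) = 2 * e * x + 2 * e + 2 * x + 2 := by ring
    have e2 : 2 * e * D ^ 2 = 2 * e * (396 * D) + 2 * e * x := by rw [hx]; ring
    omega
  have h11 : 2 * e * (396 * D) ≤ 2000 * (396 * D) := Nat.mul_le_mul_right _ (by omega)
  have h12 : 10 ^ 8 * D ≤ D ^ 2 := by
    rw [pow_two]
    exact Nat.mul_le_mul_right _ hD
  omega

end D07

theorem t_D07 (hC02 : Stmt_C02) : Stmt_D07 := by
  classical
  intro V _ _ G D s U C φ hF
  obtain ⟨_, h2, _⟩ := hC02 V G D s U C φ hF.toBase hF.lab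
  refine ⟨h2, ?_⟩
  intro e _ ha he
  obtain ⟨m, hm⟩ := Nat.exists_eq_add_of_le (le_trans (Nat.le_succ s) hF.J_ge)
  have hT := hF.T_le
  rw [hm, Nat.add_sub_cancel_left] at hT
  have h3 : m ≤ 2 * e + 1 := D07.arith hm h2 hT hF.cards hF.s_le hF.big ha he
  exact ⟨by rw [hm]; omega, le_trans hT (Nat.mul_le_mul_right _ h3)⟩

end GYD
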