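import Pool.Agent.GYD.StmtsC

set_option autoImplicit false
set_option linter.unusedVariables false

/-!
# Module D08: the dichotomy
-/

namespace GYD

open Finset

namespace D08

/-- some element has a value at most the average, in the form needed -/
theorem exists_small {V : Type} (S : Finset V) (f : V → ℕ) (D s : ℕ) (hD : 0 < D)
    (hS : D ≤ 2 * S.card) (hs : ∑ v ∈ S, f v ≤ s) (hs2 : s ≤ 72 * D) :
    ∃ v ∈ S, f v ≤ 144 := by
  by_contra hcon
  push Not at hcon
  have h1 : S.card * 145 ≤ ∑ v ∈ S, f v := by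
    rw [← smul_eq_mul]
    exact Finset.card_nsmul_le_sum S f 145 (fun v hv => hcon v hv)
  omega

theorem sum_biUnion_le {V : Type} [DecidableEq V] (S : Finset V) (t : V → Finset V)
    (o : V → ℕ) : ∑ x ∈ S.biUnion t, o x ≤ ∑ m ∈ S, ∑ x ∈ t m, o x := by
  induction S using Finset.induction_on with
  | empty => simp
  | insert a S ha ih =>
    rw [Finset.biUnion_insert, Finset.sum_insert ha]
    have h : ∑ x ∈ t a ∪ S.biUnion t, o x ≤ ∑ x ∈ t a, o x + ∑ x ∈ S.biUnion t, o x := by
      rw [← Finset.sum_union_inter]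
      exact Nat.le_add_right _ _
    omega

end D08

/-- the dichotomy -/
theorem t_D08 (hD03 : Stmt_D03) (hD04 : Stmt_D04) : Stmt_D08 := by
  intro V _ _ G D s U C hb
  classical
  have hbig := hb.big
  by_cases h : ∃ m ∈ C, D ≤ 2 * (gn G C m).card
  · left
    obtain ⟨m0, hm0, hm0c⟩ := h
    have h3 := (hD03 V G D s U C hb m0 hm0).2.2
    obtain ⟨v1, hv1, hv1o⟩ := D08.exists_small (gn G C m0) (fun m => (gn G (univ \ C) m).card)
      D s (by omega) hm0c h3 hb.s_le
    have hv1C : v1 ∈ C := (mem_gn.mp hv1).1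
    set o : V → ℕ := fun m => (gn G (univ \ C) m).card with ho
    have hoD : ∀ x, o x ≤ D := by
      intro x
      exact (Finset.card_le_card (gn_mono G (subset_univ _) x)).trans (hb.deg x)
    have hcov : C ⊆ {v1} ∪ (gn G C v1 ∪ (gn G C v1 ∪ gn G (univ \ C) v1).biUnion
        (fun m => gn G C m)) := by
      intro x hx
      by_cases hxv : x = v1
      · simp [hxv]
      · have hH := hb.clq v1 hv1C x hx (Ne.symm hxv)
        rcases hH.2 with hadj | ⟨m, hm1, hm2⟩
        · simp only [mem_union, mem_singleton, mem_gn, mem_biUnion]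
          exact Or.inr (Or.inl ⟨hx, hadj⟩)
        · simp only [mem_union, mem_singleton, mem_gn, mem_biUnion, mem_sdiff, mem_univ,
            true_and]
          right; right
          refine ⟨m, ?_, hx, hm2⟩
          by_cases hmC : m ∈ C
          · exact Or.inl ⟨hmC, hm1⟩
          · exact Or.inr ⟨hmC, hm1⟩
    have hs1 : ∑ x ∈ C, o x ≤ ∑ x ∈ {v1} ∪ (gn G C v1 ∪ (gn G C v1 ∪
        gn G (univ \ C) v1).biUnion (fun m => gn G C m)), o x :=
      Finset.sum_le_sum_of_subset hcov
    have hun : ∀ A B : Finset V, ∑ x ∈ A ∪ B, o x ≤ ∑ x ∈ A, o x + ∑ x ∈ B, o x := by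
      intro A B
      rw [← Finset.sum_union_inter]
      exact Nat.le_add_right _ _
    have hs2 : ∑ x ∈ ({v1} : Finset V), o x ≤ 144 := by
      rw [Finset.sum_singleton]; exact hv1o
    have hs3 : ∑ x ∈ gn G C v1, o x ≤ s := (hD03 V G D s U C hb v1 hv1C).2.2
    have hbi : ∑ x ∈ (gn G C v1 ∪ gn G (univ \ C) v1).biUnion (fun m => gn G C m), o x ≤
        ∑ m ∈ gn G C v1 ∪ gn G (univ \ C) v1, ∑ x ∈ gn G C m, o x :=
      D08.sum_biUnion_le _ _ _
    have hbi2 : ∑ m ∈ gn G C v1 ∪ gn G (univ \ C) v1, ∑ x ∈ gn G C m, o x ≤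
        ∑ m ∈ gn G C v1, ∑ x ∈ gn G C m, o x +
        ∑ m ∈ gn G (univ \ C) v1, ∑ x ∈ gn G C m, o x := by
      rw [← Finset.sum_union_inter]
      exact Nat.le_add_right _ _
    have hi1 : ∑ m ∈ gn G C v1, ∑ x ∈ gn G C m, o x ≤ D * s := by
      calc ∑ m ∈ gn G C v1, ∑ x ∈ gn G C m, o x ≤ ∑ m ∈ gn G C v1, s :=
            Finset.sum_le_sum (fun m hm => (hD03 V G D s U C hb m (mem_gn.mp hm).1).2.2)
        _ = (gn G C v1).card * s := by rw [Finset.sum_const, smul_eq_mul]
        _ ≤ D * s := Nat.mul_le_mul_right _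
            ((Finset.card_le_card (gn_mono G (subset_univ _) v1)).trans (hb.deg v1))
    have hi2 : ∑ m ∈ gn G (univ \ C) v1, ∑ x ∈ gn G C m, o x ≤ 144 * (D * D) := by
      calc ∑ m ∈ gn G (univ \ C) v1, ∑ x ∈ gn G C m, o x ≤
            ∑ m ∈ gn G (univ \ C) v1, D * D := by
            apply Finset.sum_le_sum
            intro m _
            calc ∑ x ∈ gn G C m, o x ≤ ∑ x ∈ gn G C m, D :=
                  Finset.sum_le_sum (fun x _ => hoD x)
              _ = (gn G C m).card * D := by rw [Finset.sum_const, smul_eq_mul]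
              _ ≤ D * D := Nat.mul_le_mul_right _
                  ((Finset.card_le_card (gn_mono G (subset_univ _) m)).trans (hb.deg m))
        _ = (gn G (univ \ C) v1).card * (D * D) := by rw [Finset.sum_const, smul_eq_mul]
        _ ≤ 144 * (D * D) := Nat.mul_le_mul_right _ hv1o
    have hs72 : D * s ≤ 72 * (D * D) := by
      have := Nat.mul_le_mul_left D hb.s_le
      calc D * s ≤ D * (72 * D) := this
        _ = 72 * (D * D) := by ring
    have hu1 := hun {v1} (gn G C v1 ∪ (gn G C v1 ∪ gn G (univ \ C) v1).biUnion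
      (fun m => gn G C m))
    have hu2 := hun (gn G C v1) ((gn G C v1 ∪ gn G (univ \ C) v1).biUnion
      (fun m => gn G C m))
    have hDD : 10 ^ 8 * D ≤ D * D := Nat.mul_le_mul_right _ hbig
    have hsl := hb.s_le
    rw [sq]
    show ∑ x ∈ C, o x ≤ _
    omega
  · right
    push Not at h
    intro v hv
    obtain ⟨-, -, h4, h5⟩ := hD04 V G D s U C hb v hv
    have hsub : gn G C v ⊆ (gn G univ v).filter (fun m => 2 * (gn G C m).card < D) := by
      intro m hm
      rw [mem_filter]
      exact ⟨gn_mono G (subset_univ _) v hm, h m (mem_gn.mp hm).1⟩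
    have h6 := (Finset.card_le_card hsub).trans h4
    exact ⟨h6, by omega⟩

end GYD
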