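import Pool.Agent.GYD.StmtsC

set_option autoImplicit false

/-!
# Existence of an admissible labelling with minimal squared loads
-/

namespace GYD

open Finset

namespace D09

variable {V : Type} [Fintype V] [DecidableEq V]

/-- A natural number valued function on a nonempty class has a minimum. -/
theorem exists_min {α : Type} (A : α → Prop) (f : α → ℕ) (h : ∃ a, A a) :
    ∃ a, A a ∧ ∀ b, A b → f a ≤ f b := by
  classical
  have h1 : ∃ n, ∃ a, A a ∧ f a = n := by
    obtain ⟨a, ha⟩ := h
    exact ⟨f a, a, ha, rfl⟩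
  obtain ⟨a, ha, hfa⟩ := Nat.find_spec h1
  refine ⟨a, ha, fun b hb => ?_⟩
  rw [hfa]
  exact Nat.find_min' h1 ⟨b, hb, rfl⟩

omit [Fintype V] in
theorem load_eq (O : Finset V) (φ w : V → ℕ) (y : V) (hy : y ∈ O) (j : ℕ) :
    load O φ w j = (if φ y = j then w y else 0) + ∑ x ∈ O.erase y, if φ x = j then w x else 0 := by
  classical
  unfold load
  rw [Finset.sum_filter, ← Finset.add_sum_erase O _ hy]

theorem sum_two (S : Finset ℕ) (f : ℕ → ℕ) (a b : ℕ) (ha : a ∈ S) (hb : b ∈ S) (hab : b ≠ a) :
    ∑ j ∈ S, f j = f a + (f b + ∑ j ∈ (S.erase a).erase b, f j) := by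
  rw [← Finset.add_sum_erase S f ha,
    ← Finset.add_sum_erase (S.erase a) f (Finset.mem_erase.2 ⟨hab, hb⟩)]

theorem lab_update (G : SimpleGraph V) (S : Finset V) (N : ℕ) (φ : V → ℕ) (y : V) (i : ℕ)
    (h : Lab G S N φ) (hi : i ≤ N) (hf : Free G S φ y i) :
    Lab G S N (Function.update φ y i) := by
  unfold Free at hf
  have h0 : ¬ ((∃ u ∈ S.erase y, HA G y u ∧ φ u = i) ∨
      ∃ u ∈ S.erase y, G.Adj y u ∧ (φ u = i + 1 ∨ φ u + 1 = i)) := by
    intro hc
    have := mult_pos_iff.2 hc
    omega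
  have h1 : ∀ u ∈ S, HA G y u → φ u ≠ i := by
    intro u hu hyu he
    exact h0 (Or.inl ⟨u, Finset.mem_erase.2 ⟨hyu.ne.symm, hu⟩, hyu, he⟩)
  have h2 : ∀ u ∈ S, G.Adj y u → φ u + 2 ≤ i ∨ i + 2 ≤ φ u := by
    intro u hu hyu
    have h3 := h1 u hu (HA.of_adj hyu)
    have h4 : ¬ (φ u = i + 1 ∨ φ u + 1 = i) := by
      intro hc
      exact h0 (Or.inr ⟨u, Finset.mem_erase.2 ⟨hyu.ne.symm, hu⟩, hyu, hc⟩)
    omega
  refine ⟨?_, ?_, ?_⟩
  · intro u hu
    by_cases huy : u = y
    · rw [huy, Function.update_self]; exact hi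
    · rw [Function.update_of_ne huy]; exact h.le u hu
  · intro u hu v hv huv
    by_cases huy : u = y
    · have hvy : v ≠ y := by
        rw [← huy]; exact huv.ne.symm
      rw [huy, Function.update_self, Function.update_of_ne hvy]
      rw [huy] at huv
      exact (h1 v hv huv).symm
    · by_cases hvy : v = y
      · rw [hvy, Function.update_self, Function.update_of_ne huy]
        rw [hvy] at huv
        exact h1 u hu huv.symm
      · rw [Function.update_of_ne huy, Function.update_of_ne hvy]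
        exact h.ne u hu v hv huv
  · intro u hu v hv huv
    by_cases huy : u = y
    · have hvy : v ≠ y := by
        rw [← huy]; exact huv.ne.symm
      rw [huy, Function.update_self, Function.update_of_ne hvy]
      rw [huy] at huv
      exact (h2 v hv huv).symm
    · by_cases hvy : v = y
      · rw [hvy, Function.update_self, Function.update_of_ne huy]
        rw [hvy] at huv
        exact h2 u hu huv.symm
      · rw [Function.update_of_ne huy, Function.update_of_ne hvy]
        exact h.adj u hu v hv huv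

end D09

/-- **Existence of an admissible labelling with minimal squared loads.** -/
theorem t_D09 : Stmt_D09 := by
  intro V _ _ G D U E C P w hEU hC hP hex
  classical
  obtain ⟨φ, ⟨hφ, hφP⟩, hmin⟩ := D09.exists_min
    (fun φ : V → ℕ => Lab G (U \ C) (D ^ 2) φ ∧ ∀ p ∈ P, φ p.1 = φ p.2)
    (fun φ => ∑ j ∈ range (D ^ 2 + 1), (load (U \ E) φ w j) ^ 2) hex
  refine ⟨φ, hφ, hφP, ?_⟩
  intro y hy i hi hiy hfree hw
  have hyU : y ∈ U := (Finset.mem_sdiff.1 hy).1
  have hyE : y ∉ E := (Finset.mem_sdiff.1 hy).2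
  have hCE : C ⊆ E := by rw [hC]; exact Finset.sdiff_subset
  have hyS : y ∈ U \ C := Finset.mem_sdiff.2 ⟨hyU, fun h => hyE (hCE h)⟩
  have hlab := D09.lab_update G (U \ C) (D ^ 2) φ y i hφ hi hfree
  have hpair : ∀ p ∈ P, Function.update φ y i p.1 = Function.update φ y i p.2 := by
    intro p hp
    obtain ⟨h1, h2⟩ := hP.mem p hp
    have h3 : p.1 ≠ y := by
      intro h; rw [h] at h1; exact hyE h1
    have h4 : p.2 ≠ y := by
      intro h; rw [h] at h2; exact hyE h2
    rw [Function.update_of_ne h3, Function.update_of_ne h4]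
    exact hφP p hp
  have hle := hmin _ ⟨hlab, hpair⟩
  have hrest : ∀ j, (∑ x ∈ (U \ E).erase y, if Function.update φ y i x = j then w x else 0) =
      ∑ x ∈ (U \ E).erase y, if φ x = j then w x else 0 := by
    intro j
    apply Finset.sum_congr rfl
    intro x hx
    rw [Function.update_of_ne (Finset.ne_of_mem_erase hx)]
  have e1 : ∀ j, load (U \ E) φ w j = (if φ y = j then w y else 0) +
      ∑ x ∈ (U \ E).erase y, if φ x = j then w x else 0 := fun j => D09.load_eq _ φ w y hy j
  have e2 : ∀ j, load (U \ E) (Function.update φ y i) w j = (if i = j then w y else 0) +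
      ∑ x ∈ (U \ E).erase y, if φ x = j then w x else 0 := by
    intro j
    rw [D09.load_eq _ _ w y hy j, hrest, Function.update_self]
  have hyr : φ y ∈ range (D ^ 2 + 1) := by
    have := hφ.le y hyS
    rw [Finset.mem_range]; omega
  have hir : i ∈ range (D ^ 2 + 1) := by
    rw [Finset.mem_range]; omega
  rw [D09.sum_two _ (fun j => load (U \ E) φ w j ^ 2) (φ y) i hyr hir hiy,
    D09.sum_two _ (fun j => load (U \ E) (Function.update φ y i) w j ^ 2) (φ y) i hyr hir hiy] at hle
  have hrest2 : ∑ j ∈ ((range (D ^ 2 + 1)).erase (φ y)).erase i, load (U \ E) φ w j ^ 2 =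
      ∑ j ∈ ((range (D ^ 2 + 1)).erase (φ y)).erase i,
        load (U \ E) (Function.update φ y i) w j ^ 2 := by
    apply Finset.sum_congr rfl
    intro j hj
    have h1 : j ≠ i := Finset.ne_of_mem_erase hj
    have h2 : j ≠ φ y := Finset.ne_of_mem_erase (Finset.mem_of_mem_erase hj)
    rw [e1, e2, if_neg h2.symm, if_neg h1.symm]
  rw [← hrest2] at hle
  set a := ∑ x ∈ (U \ E).erase y, if φ x = φ y then w x else 0 with ha
  set b := ∑ x ∈ (U \ E).erase y, if φ x = i then w x else 0 with hb
  have a1 : load (U \ E) φ w (φ y) = w y + a := by rw [e1, if_pos rfl]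
  have a2 : load (U \ E) φ w i = b := by rw [e1, if_neg hiy.symm, zero_add]
  have a3 : load (U \ E) (Function.update φ y i) w (φ y) = a := by
    rw [e2, if_neg hiy, zero_add]
  have a4 : load (U \ E) (Function.update φ y i) w i = w y + b := by rw [e2, if_pos rfl]
  rw [a1, a2, a3, a4] at hle
  rw [a1, a2]
  have h3 : (w y + a) ^ 2 + b ^ 2 ≤ a ^ 2 + (w y + b) ^ 2 := by omega
  have h4 : w y * a ≤ w y * b := by nlinarith [h3]
  have h5 : a ≤ b := Nat.le_of_mul_le_mul_left h4 hw
  omega

end GYD
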