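import Pool.Agent.GYD.StmtsC

/-!
# D10: number of free labels
-/

set_option autoImplicit false

namespace GYD

open Finset

/-- number of free labels -/
theorem t_D10 : Stmt_D10 := by
  intro V _ _ G D S φ y hdeg hy
  classical
  have hg : (gn G S y).card ≤ D := (card_le_card (gn_mono G (subset_univ S) y)).trans (hdeg y)
  have hsub : range (D ^ 2 + 1) ⊆
      ((range (D ^ 2 + 1)).filter (fun i => i ≠ φ y ∧ Free G S φ y i)) ∪
        ({φ y} ∪ ((hn G S y).image φ ∪ ((gn G S y).image (fun u => φ u + 1) ∪
          (gn G S y).image (fun u => φ u - 1)))) := by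
    intro i hi
    by_cases h1 : i = φ y
    · exact mem_union_right _ (mem_union_left _ (mem_singleton.2 h1))
    by_cases h2 : Free G S φ y i
    · exact mem_union_left _ (mem_filter.2 ⟨hi, h1, h2⟩)
    · refine mem_union_right _ (mem_union_right _ ?_)
      have h3 : 0 < mult G (S.erase y) φ y i := Nat.pos_of_ne_zero h2
      rw [mult_pos_iff] at h3
      rcases h3 with ⟨u, hu1, hu2, hu3⟩ | ⟨u, hu1, hu2, hu3⟩
      · exact mem_union_left _ (mem_image.2 ⟨u, mem_hn.2 ⟨mem_of_mem_erase hu1, hu2⟩, hu3⟩)
      · refine mem_union_right _ ?_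
        have hu4 : u ∈ gn G S y := mem_gn.2 ⟨mem_of_mem_erase hu1, hu2⟩
        rcases hu3 with hu3 | hu3
        · exact mem_union_right _ (mem_image.2 ⟨u, hu4, by omega⟩)
        · exact mem_union_left _ (mem_image.2 ⟨u, hu4, by omega⟩)
  have h1 := card_le_card hsub
  rw [card_range] at h1
  have h2 := card_union_le ((range (D ^ 2 + 1)).filter (fun i => i ≠ φ y ∧ Free G S φ y i))
    ({φ y} ∪ ((hn G S y).image φ ∪ ((gn G S y).image (fun u => φ u + 1) ∪
          (gn G S y).image (fun u => φ u - 1))))
  have h3 := card_union_le {φ y} ((hn G S y).image φ ∪ ((gn G S y).image (fun u => φ u + 1) ∪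
          (gn G S y).image (fun u => φ u - 1)))
  rw [card_singleton] at h3
  have h4 := card_union_le ((hn G S y).image φ) ((gn G S y).image (fun u => φ u + 1) ∪
          (gn G S y).image (fun u => φ u - 1))
  have h5 := card_union_le ((gn G S y).image (fun u => φ u + 1))
    ((gn G S y).image (fun u => φ u - 1))
  have h6 : ((gn G S y).image (fun u => φ u + 1)).card ≤ (gn G S y).card := card_image_le
  have h7 : ((gn G S y).image (fun u => φ u - 1)).card ≤ (gn G S y).card := card_image_le
  omega

end GYD
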