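import Pool.Agent.GYD.StmtsC

set_option autoImplicit false
set_option linter.unusedVariables false

/-!
# Double counting of edges between two sets, and of common neighbours
-/

namespace GYD

open Finset

namespace D11

open Classical in
theorem sum_gn {V : Type} [Fintype V] [DecidableEq V] (G : SimpleGraph V) (B : Finset V) (x : V)
    (f : V → ℕ) : ∑ m ∈ gn G B x, f m = ∑ m ∈ B, (if G.Adj x m then 1 else 0) * f m := by
  rw [gn, Finset.sum_filter]
  exact Finset.sum_congr rfl fun m _ => by split_ifs <;> simp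

open Classical in
theorem card_gn {V : Type} [Fintype V] [DecidableEq V] (G : SimpleGraph V) (B : Finset V) (x : V) :
    (gn G B x).card = ∑ m ∈ B, (if G.Adj x m then 1 else 0) := by
  rw [gn, Finset.card_filter]

open Classical in
theorem cp_eq {V : Type} [Fintype V] [DecidableEq V] (G : SimpleGraph V) (C : Finset V) (x y : V) :
    cp G C x y = ∑ m ∈ C, (if G.Adj x m then 1 else 0) * (if G.Adj m y then 1 else 0) := by
  rw [cp, Finset.card_filter]
  refine Finset.sum_congr rfl fun m _ => ?_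
  by_cases h1 : G.Adj x m
  · by_cases h2 : G.Adj m y
    · rw [if_pos ⟨h1, h2⟩, if_pos h1, if_pos h2]
    · rw [if_neg (fun h => h2 h.2), if_neg h2, mul_zero]
  · rw [if_neg (fun h => h1 h.1), if_neg h1, zero_mul]

theorem sum4 {V : Type} (A C : Finset V) (F : V → V → V → V → ℕ) :
    ∑ x ∈ A, ∑ y ∈ A, ∑ v ∈ C, ∑ w ∈ C, F x y v w =
      ∑ v ∈ C, ∑ w ∈ C, ∑ x ∈ A, ∑ y ∈ A, F x y v w := by
  calc ∑ x ∈ A, ∑ y ∈ A, ∑ v ∈ C, ∑ w ∈ C, F x y v w =
      ∑ x ∈ A, ∑ v ∈ C, ∑ y ∈ A, ∑ w ∈ C, F x y v w :=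
        Finset.sum_congr rfl fun x _ => Finset.sum_comm
    _ = ∑ v ∈ C, ∑ x ∈ A, ∑ y ∈ A, ∑ w ∈ C, F x y v w := Finset.sum_comm
    _ = ∑ v ∈ C, ∑ x ∈ A, ∑ w ∈ C, ∑ y ∈ A, F x y v w :=
        Finset.sum_congr rfl fun v _ => Finset.sum_congr rfl fun x _ => Finset.sum_comm
    _ = ∑ v ∈ C, ∑ w ∈ C, ∑ x ∈ A, ∑ y ∈ A, F x y v w :=
        Finset.sum_congr rfl fun v _ => Finset.sum_comm

end D11

theorem t_D11 : Stmt_D11 := by
  classical
  intro V _ _ G A B C f
  have hs : ∀ x y, (if G.Adj x y then 1 else 0) = (if G.Adj y x then 1 else 0 : ℕ) := fun x y =>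
    if_congr ⟨fun h => h.symm, fun h => h.symm⟩ rfl rfl
  have h1 : ∀ (B : Finset V) (f : V → ℕ),
      ∑ x ∈ A, ∑ m ∈ gn G B x, f m = ∑ m ∈ B, (gn G A m).card * f m := by
    intro B f
    rw [Finset.sum_congr rfl fun x _ => D11.sum_gn G B x f, Finset.sum_comm]
    refine Finset.sum_congr rfl fun m _ => ?_
    rw [D11.card_gn, Finset.sum_mul]
    exact Finset.sum_congr rfl fun x _ => by rw [hs x m]
  have h2 : ∀ (B : Finset V) x, ∑ z ∈ B, cp G C x z = ∑ m ∈ gn G C x, (gn G B m).card := by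
    intro B x
    rw [D11.sum_gn, Finset.sum_congr rfl fun z _ => D11.cp_eq G C x z, Finset.sum_comm]
    refine Finset.sum_congr rfl fun m _ => ?_
    rw [D11.card_gn, Finset.mul_sum]
  refine ⟨h1 B f, h2 B, ?_, ?_, ?_, ?_, ?_⟩
  · rw [Finset.sum_congr rfl fun x _ => h2 A x, h1]
    exact Finset.sum_congr rfl fun m _ => by rw [sq]
  · have e1 : ∀ x y, cp G C x y ^ 2 = ∑ v ∈ C, ∑ w ∈ C,
        ((if G.Adj x v then 1 else 0) * (if G.Adj v y then 1 else 0)) *
          ((if G.Adj x w then 1 else 0) * (if G.Adj w y then 1 else 0)) := by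
      intro x y
      rw [sq, D11.cp_eq, Finset.sum_mul_sum]
    have e2 : ∀ v w, cp G A v w ^ 2 = ∑ x ∈ A, ∑ y ∈ A,
        ((if G.Adj v x then 1 else 0) * (if G.Adj x w then 1 else 0)) *
          ((if G.Adj v y then 1 else 0) * (if G.Adj y w then 1 else 0)) := by
      intro x y
      rw [sq, D11.cp_eq, Finset.sum_mul_sum]
    simp only [e1, e2]
    rw [D11.sum4]
    refine Finset.sum_congr rfl fun v _ => Finset.sum_congr rfl fun w _ =>
      Finset.sum_congr rfl fun x _ => Finset.sum_congr rfl fun y _ => ?_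
    rw [hs x v, hs w y]
    ring
  · intro x y
    unfold cp cdg
    exact Finset.card_le_card (Finset.filter_subset_filter _ (Finset.subset_univ _))
  · intro x y
    unfold cp
    congr 1
    ext m
    simp only [Finset.mem_filter]
    exact ⟨fun h => ⟨h.1, h.2.2.symm, h.2.1.symm⟩, fun h => ⟨h.1, h.2.2.symm, h.2.1.symm⟩⟩
  · intro x
    unfold cp gn
    congr 1
    ext m
    simp only [Finset.mem_filter]
    exact ⟨fun h => ⟨h.1, h.2.1⟩, fun h => ⟨h.1, h.2, h.2.symm⟩⟩

end GYD
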