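import Mathlib

set_option autoImplicit false
set_option linter.unusedSectionVars false
set_option linter.unusedVariables false

/-!
# Definitions for the Griggs-Yeh theorem (all graphs of large maximum degree)

See `Pool/Agent/GYD/PAPER.md`.
-/

namespace GYD

open Finset

variable {V : Type} [Fintype V] [DecidableEq V]

/-! ## distance two, neighbourhoods, labellings -/

/-- distance at most two (possibly equal) -/
def Nr (G : SimpleGraph V) (u v : V) : Prop := G.Adj u v ∨ ∃ x, G.Adj u x ∧ G.Adj x v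

/-- adjacency in the square of `G` -/
def HA (G : SimpleGraph V) (u v : V) : Prop := u ≠ v ∧ Nr G u v

theorem Nr.symm {G : SimpleGraph V} {u v : V} (h : Nr G u v) : Nr G v u := by
  rcases h with h | ⟨x, h1, h2⟩
  · exact Or.inl h.symm
  · exact Or.inr ⟨x, h2.symm, h1.symm⟩

theorem HA.symm {G : SimpleGraph V} {u v : V} (h : HA G u v) : HA G v u := ⟨h.1.symm, h.2.symm⟩

theorem HA.comm {G : SimpleGraph V} {u v : V} : HA G u v ↔ HA G v u := ⟨HA.symm, HA.symm⟩

theorem HA.of_adj {G : SimpleGraph V} {u v : V} (h : G.Adj u v) : HA G u v :=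
  ⟨h.ne, Or.inl h⟩

theorem HA.ne {G : SimpleGraph V} {u v : V} (h : HA G u v) : u ≠ v := h.1

theorem not_HA_self {G : SimpleGraph V} {u : V} : ¬ HA G u u := fun h => h.1 rfl

open Classical in
/-- the `G`-neighbours of `v` in `S` -/
noncomputable def gn (G : SimpleGraph V) (S : Finset V) (v : V) : Finset V :=
  S.filter (fun u => G.Adj v u)

open Classical in
/-- the neighbours of `v` in the square of `G` which lie in `S` -/
noncomputable def hn (G : SimpleGraph V) (S : Finset V) (v : V) : Finset V :=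
  S.filter (fun u => HA G v u)

@[simp] theorem mem_gn {G : SimpleGraph V} {S : Finset V} {v u : V} :
    u ∈ gn G S v ↔ u ∈ S ∧ G.Adj v u := by
  classical
  simp [gn]

@[simp] theorem mem_hn {G : SimpleGraph V} {S : Finset V} {v u : V} :
    u ∈ hn G S v ↔ u ∈ S ∧ HA G v u := by
  classical
  simp [hn]

theorem gn_subset_hn (G : SimpleGraph V) (S : Finset V) (v : V) : gn G S v ⊆ hn G S v := by
  intro u hu
  rw [mem_gn] at hu
  exact mem_hn.mpr ⟨hu.1, HA.of_adj hu.2⟩

theorem gn_mono (G : SimpleGraph V) {S T : Finset V} (h : S ⊆ T) (v : V) : gn G S v ⊆ gn G T v := by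
  intro u hu
  rw [mem_gn] at hu ⊢
  exact ⟨h hu.1, hu.2⟩

theorem hn_mono (G : SimpleGraph V) {S T : Finset V} (h : S ⊆ T) (v : V) : hn G S v ⊆ hn G T v := by
  intro u hu
  rw [mem_hn] at hu ⊢
  exact ⟨h hu.1, hu.2⟩

/-- `φ` is an `L(2,1)`-labelling of the vertex set `U` with labels `0..N`; distances are measured
in the whole graph. -/
structure Lab (G : SimpleGraph V) (U : Finset V) (N : ℕ) (φ : V → ℕ) : Prop where
  le : ∀ u ∈ U, φ u ≤ N
  ne : ∀ u ∈ U, ∀ v ∈ U, HA G u v → φ u ≠ φ v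
  adj : ∀ u ∈ U, ∀ v ∈ U, G.Adj u v → φ u + 2 ≤ φ v ∨ φ v + 2 ≤ φ u

theorem Lab.mono {G : SimpleGraph V} {U W : Finset V} {N : ℕ} {φ : V → ℕ} (h : Lab G U N φ)
    (hW : W ⊆ U) : Lab G W N φ :=
  ⟨fun u hu => h.le u (hW hu), fun u hu v hv => h.ne u (hW hu) v (hW hv),
    fun u hu v hv => h.adj u (hW hu) v (hW hv)⟩

/-! ## Part 2: pairs, blocked labels -/

/-- the vertices of a set of pairs -/
def pv (P : Finset (V × V)) : Finset V := P.image Prod.fst ∪ P.image Prod.snd

theorem mem_pv {P : Finset (V × V)} {x : V} : x ∈ pv P ↔ ∃ p ∈ P, x = p.1 ∨ x = p.2 := by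
  simp only [pv, mem_union, mem_image]
  constructor
  · rintro (⟨p, hp, rfl⟩ | ⟨p, hp, rfl⟩)
    · exact ⟨p, hp, Or.inl rfl⟩
    · exact ⟨p, hp, Or.inr rfl⟩
  · rintro ⟨p, hp, rfl | rfl⟩
    · exact Or.inl ⟨p, hp, rfl⟩
    · exact Or.inr ⟨p, hp, rfl⟩

/-- `P` is a set of disjoint pairs of distinct non-neighbours (in the square) of `C` -/
structure Pairs (G : SimpleGraph V) (C : Finset V) (P : Finset (V × V)) : Prop where
  mem : ∀ p ∈ P, p.1 ∈ C ∧ p.2 ∈ C
  ne : ∀ p ∈ P, p.1 ≠ p.2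
  nadj : ∀ p ∈ P, ¬ HA G p.1 p.2
  disj : ∀ p ∈ P, ∀ q ∈ P, p ≠ q → p.1 ≠ q.1 ∧ p.1 ≠ q.2 ∧ p.2 ≠ q.1 ∧ p.2 ≠ q.2

open Classical in
/-- the multiplicity with which the label `j` is blocked for `v` by the vertices of `S` -/
noncomputable def mult (G : SimpleGraph V) (S : Finset V) (φ : V → ℕ) (v : V) (j : ℕ) : ℕ :=
  ((hn G S v).filter (fun u => φ u = j)).card +
    ((gn G S v).filter (fun u => φ u = j + 1 ∨ φ u + 1 = j)).card

theorem mult_pos_iff {G : SimpleGraph V} {S : Finset V} {φ : V → ℕ} {v : V} {j : ℕ} :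
    0 < mult G S φ v j ↔ (∃ u ∈ S, HA G v u ∧ φ u = j) ∨
      ∃ u ∈ S, G.Adj v u ∧ (φ u = j + 1 ∨ φ u + 1 = j) := by
  classical
  unfold mult
  rw [Nat.add_pos_iff_pos_or_pos, Finset.card_pos, Finset.card_pos]
  constructor
  · rintro (⟨u, hu⟩ | ⟨u, hu⟩)
    · simp only [mem_filter, mem_hn] at hu
      exact Or.inl ⟨u, hu.1.1, hu.1.2, hu.2⟩
    · simp only [mem_filter, mem_gn] at hu
      exact Or.inr ⟨u, hu.1.1, hu.1.2, hu.2⟩
  · rintro (⟨u, h1, h2, h3⟩ | ⟨u, h1, h2, h3⟩)
    · exact Or.inl ⟨u, by simp [h1, h2, h3]⟩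
    · exact Or.inr ⟨u, by simp only [mem_filter, mem_gn]; exact ⟨⟨h1, h2⟩, h3⟩⟩

open Classical in
/-- the vertices of `C` for which the label `j` is not blocked by `S` -/
noncomputable def FF (G : SimpleGraph V) (C S : Finset V) (φ : V → ℕ) (j : ℕ) : Finset V :=
  C.filter (fun v => mult G S φ v j = 0)

theorem mem_FF {G : SimpleGraph V} {C S : Finset V} {φ : V → ℕ} {j : ℕ} {v : V} :
    v ∈ FF G C S φ j ↔ v ∈ C ∧ mult G S φ v j = 0 := by
  classical
  simp [FF]

/-- the labels which are available to at most `83 D` vertices of `C` -/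
noncomputable def JJ (G : SimpleGraph V) (D : ℕ) (C S : Finset V) (φ : V → ℕ) : Finset ℕ :=
  (range (D ^ 2 + 1)).filter (fun j => (FF G C S φ j).card ≤ 83 * D)

theorem mem_JJ {G : SimpleGraph V} {D : ℕ} {C S : Finset V} {φ : V → ℕ} {j : ℕ} :
    j ∈ JJ G D C S φ ↔ j ≤ D ^ 2 ∧ (FF G C S φ j).card ≤ 83 * D := by
  simp [JJ]

/-- total availability of the labels of `JJ` -/
noncomputable def TT (G : SimpleGraph V) (D : ℕ) (C S : Finset V) (φ : V → ℕ) : ℕ :=
  ∑ j ∈ JJ G D C S φ, (FF G C S φ j).card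

open Classical in
/-- number of labels of `JJ` available to `v` -/
noncomputable def dfc (G : SimpleGraph V) (D : ℕ) (C S : Finset V) (φ : V → ℕ) (v : V) : ℕ :=
  ((JJ G D C S φ).filter (fun j => mult G S φ v j = 0)).card

/-! ## Part 3: counting -/

open Classical in
/-- number of common neighbours -/
noncomputable def cdg (G : SimpleGraph V) (u v : V) : ℕ :=
  (univ.filter (fun m => G.Adj u m ∧ G.Adj m v)).card

open Classical in
/-- number of common neighbours in `C` -/
noncomputable def cp (G : SimpleGraph V) (C : Finset V) (u v : V) : ℕ :=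
  (C.filter (fun m => G.Adj u m ∧ G.Adj m v)).card

open Classical in
/-- one if adjacent, zero otherwise -/
noncomputable def ad (G : SimpleGraph V) (u v : V) : ℕ := if G.Adj u v then 1 else 0

/-- the slack of `v` -/
noncomputable def slk (G : SimpleGraph V) (D : ℕ) (U : Finset V) (v : V) : ℕ :=
  D ^ 2 - (hn G U v).card

/-- graph and clique -/
structure Base (G : SimpleGraph V) (D s : ℕ) (U C : Finset V) : Prop where
  deg : ∀ v, (gn G univ v).card ≤ D
  big : 10 ^ 8 ≤ D
  CU : C ⊆ U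
  clq : ∀ u ∈ C, ∀ v ∈ C, u ≠ v → HA G u v
  cards : C.card + s = D ^ 2 + 1
  s_le : s ≤ 72 * D

/-- a labelling of `U \ C` for which the completion lemma fails -/
structure Fail (G : SimpleGraph V) (D s : ℕ) (U C : Finset V) (φ : V → ℕ) : Prop
    extends Base G D s U C where
  lab : Lab G (U \ C) (D ^ 2) φ
  J_ge : s + 1 ≤ (JJ G D C (U \ C) φ).card
  J_le : (JJ G D C (U \ C) φ).card ≤ 75 * D
  T_le : TT G D C (U \ C) φ ≤ ((JJ G D C (U \ C) φ).card - s) * (324 * D)

/-- everything: `E` is the closure (called `C` in the paper), `C = E \ pv P` the clique (called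
`C'` in the paper) and `φ` an admissible labelling of `U \ C`. -/
structure Full (G : SimpleGraph V) (D s : ℕ) (U E C : Finset V) (P : Finset (V × V))
    (φ : V → ℕ) : Prop extends Fail G D s U C φ where
  EU : E ⊆ U
  Cdef : C = E \ pv P
  pairs : Pairs G E P
  Pcard : P.card ≤ 5 * D
  s_ref : s ≤ 61 * D + 1 + 2 * P.card
  mono : ∀ p ∈ P, φ p.1 = φ p.2
  c2 : ∀ x ∈ E, 5 * (E.card - (hn G E x).card) ≤ D ^ 2 + 400 * D
  c3 : ∀ y ∈ U, y ∉ E → 5 * (hn G E y).card ≤ 4 * D ^ 2 + 400 * D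

/-- the labelling `φ` of `U \ C` can be changed at `y` to the label `i` -/
def Free (G : SimpleGraph V) (S : Finset V) (φ : V → ℕ) (y : V) (i : ℕ) : Prop :=
  mult G (S.erase y) φ y i = 0

open Classical in
/-- the load of the label `j`: total weight of the vertices of `O` with this label -/
noncomputable def load (O : Finset V) (φ : V → ℕ) (w : V → ℕ) (j : ℕ) : ℕ :=
  ∑ y ∈ O.filter (fun y => φ y = j), w y

/-- minimality with respect to the sum of the squares of the loads -/
def MinLoad (G : SimpleGraph V) (D : ℕ) (O S : Finset V) (φ w : V → ℕ) : Prop :=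
  ∀ y ∈ O, ∀ i ≤ D ^ 2, i ≠ φ y → Free G S φ y i → 0 < w y →
    load O φ w (φ y) ≤ load O φ w i + w y

open Classical in
/-- the vertices of `C` with a neighbour of label `j` in `O` -/
noncomputable def Mj (G : SimpleGraph V) (C O : Finset V) (φ : V → ℕ) (j : ℕ) : Finset V :=
  C.filter (fun m => ∃ y ∈ O, G.Adj m y ∧ φ y = j)

theorem mem_Mj {G : SimpleGraph V} {C O : Finset V} {φ : V → ℕ} {j : ℕ} {m : V} :
    m ∈ Mj G C O φ j ↔ m ∈ C ∧ ∃ y ∈ O, G.Adj m y ∧ φ y = j := by
  classical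
  simp [Mj]

open Classical in
/-- forbidden labels for `x` -/
noncomputable def forb (G : SimpleGraph V) (W : Finset V) (φ : V → ℕ) (x : V) : Finset ℕ :=
  (hn G W x).image φ ∪ ((gn G W x).image (fun u => φ u + 1) ∪
    (gn G W x).image (fun u => φ u - 1))

open Classical in
/-- the labels at distance at most one from `JJ` -/
noncomputable def Jp (G : SimpleGraph V) (D : ℕ) (C S : Finset V) (φ : V → ℕ) : Finset ℕ :=
  (range (D ^ 2 + 1)).filter (fun i => i ∈ JJ G D C S φ ∨ i + 1 ∈ JJ G D C S φ ∨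
    ∃ j ∈ JJ G D C S φ, i = j + 1)

open Classical in
/-- the lines with a loaded label (type II) -/
noncomputable def ZZ (G : SimpleGraph V) (D : ℕ) (U E C : Finset V) (φ : V → ℕ) : Finset V :=
  (U \ E).filter (fun y => φ y ∈ Jp G D C (U \ C) φ ∧
    C.card ≤ 2250 * load (U \ E) φ (fun x => (gn G C x).card) (φ y) ∧
    D ≤ 2 * (gn G C y).card)

open Classical in
/-- outside vertices of class one (type I) -/
noncomputable def cl1 (G : SimpleGraph V) (D : ℕ) (U E C : Finset V) (P : Finset (V × V))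
    (φ : V → ℕ) : Finset V :=
  (U \ E).filter (fun x => φ x ∈ JJ G D C (U \ C) φ ∧ φ x ∉ (pv P).image φ)

/-- outside vertices of class two (type I) -/
noncomputable def cl2 (G : SimpleGraph V) (D : ℕ) (U E C : Finset V) (P : Finset (V × V))
    (φ : V → ℕ) : Finset V :=
  (univ \ C) \ cl1 G D U E C P φ

/-- number of neighbours of `z` in `M_j` -/
noncomputable def dj (G : SimpleGraph V) (C O : Finset V) (φ : V → ℕ) (z : V) (j : ℕ) : ℕ :=
  (gn G (Mj G C O φ j) z).card

end GYD
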