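import Pool.Agent.GYD.StmtsB
import Pool.Agent.GYD.StmtsC

set_option autoImplicit false
set_option linter.unusedSectionVars false

/-!
# E01: many lines have labels near `JJ`
-/

namespace GYD

open Finset

namespace E01

variable {V : Type} [Fintype V] [DecidableEq V]

theorem split_o (G : SimpleGraph V) {U C : Finset V} (h : C ⊆ U) (v : V) :
    (gn G (univ \ C) v).card = (gn G (U \ C) v).card + (gn G (univ \ U) v).card := by
  classical
  rw [← card_union_of_disjoint]
  · congr 1
    ext x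
    simp only [mem_gn, mem_union, mem_sdiff, mem_univ, true_and]
    constructor
    · rintro ⟨h1, h2⟩
      by_cases hx : x ∈ U
      · exact Or.inl ⟨⟨hx, h1⟩, h2⟩
      · exact Or.inr ⟨hx, h2⟩
    · rintro (⟨⟨_, h1⟩, h2⟩ | ⟨h1, h2⟩)
      · exact ⟨h1, h2⟩
      · exact ⟨fun hc => h1 (h hc), h2⟩
  · rw [disjoint_left]
    intro x hx hx'
    simp only [mem_gn, mem_sdiff, mem_univ, true_and] at hx hx'
    exact hx'.1 hx.1.1

theorem gn_le_sum (G : SimpleGraph V) (S : Finset V) (v : V) :
    (gn G S v).card ≤ ∑ x ∈ S, (cdg G v x + ad G v x) := by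
  classical
  unfold gn
  rw [card_filter]
  refine sum_le_sum fun x _ => ?_
  unfold ad
  by_cases hx : G.Adj v x <;> simp [hx]

end E01

theorem t_E01 (hC01 : Stmt_C01) (hD02 : Stmt_D02) : Stmt_E01 := by
  intro V _ _ G D s U C φ hF v hv
  classical
  obtain ⟨h1, -⟩ := hC01 V G D s U C φ hF.toBase hF.lab v hv
  have h2 := hD02 V G D s U C hF.toBase v hv
  have h3 := E01.gn_le_sum G (univ \ U) v
  have h4 := E01.split_o G hF.CU v
  have h5 := hF.J_ge
  have h6 : (gn G (U \ C) v).card ≤ (hn G (U \ C) v).card := card_le_card (gn_subset_hn _ _ _)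
  set J := JJ G D C (U \ C) φ with hJ
  set X := (gn G (U \ C) v).filter (fun y => φ y ∈ Jp G D C (U \ C) φ) with hX
  -- blocked labels
  have h7 : J.card = dfc G D C (U \ C) φ v +
      (J.filter (fun j => ¬ mult G (U \ C) φ v j = 0)).card := by
    unfold dfc
    rw [← hJ]
    exact (card_filter_add_card_filter_not _).symm
  have h8 : J.filter (fun j => ¬ mult G (U \ C) φ v j = 0) ⊆
      (X.image φ ∪ (X.image (fun y => φ y + 1) ∪ X.image (fun y => φ y - 1))) ∪
        ((hn G (U \ C) v) \ (gn G (U \ C) v)).image φ := by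
    intro j hj
    obtain ⟨hjJ, hj0⟩ := mem_filter.1 hj
    have hjD : j ≤ D ^ 2 := (mem_JJ.1 hjJ).1
    have hle : ∀ u ∈ U \ C, φ u ≤ D ^ 2 := hF.lab.le
    have key : ∀ u ∈ U \ C, G.Adj v u → (φ u = j ∨ φ u = j + 1 ∨ φ u + 1 = j) →
        j ∈ X.image φ ∪ (X.image (fun y => φ y + 1) ∪ X.image (fun y => φ y - 1)) := by
      intro u hu hadj hcase
      have huJp : φ u ∈ Jp G D C (U \ C) φ := by
        unfold Jp
        rw [mem_filter, mem_range]
        refine ⟨Nat.lt_succ_of_le (hle u hu), ?_⟩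
        rcases hcase with h | h | h
        · exact Or.inl (by rw [h]; exact hjJ)
        · exact Or.inr (Or.inr ⟨j, hjJ, h⟩)
        · exact Or.inr (Or.inl (by rw [h]; exact hjJ))
      have huX : u ∈ X := mem_filter.2 ⟨mem_gn.2 ⟨hu, hadj⟩, huJp⟩
      rcases hcase with h | h | h
      · exact mem_union_left _ (mem_image.2 ⟨u, huX, h⟩)
      · exact mem_union_right _ (mem_union_right _ (mem_image.2 ⟨u, huX, by omega⟩))
      · exact mem_union_right _ (mem_union_left _ (mem_image.2 ⟨u, huX, h⟩))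
    rcases mult_pos_iff.1 (Nat.pos_of_ne_zero hj0) with ⟨u, hu, hH, hφ⟩ | ⟨u, hu, hA, hφ⟩
    · by_cases hadj : G.Adj v u
      · exact mem_union_left _ (key u hu hadj (Or.inl hφ))
      · refine mem_union_right _ (mem_image.2 ⟨u, mem_sdiff.2 ⟨mem_hn.2 ⟨hu, hH⟩, ?_⟩, hφ⟩)
        rw [mem_gn]
        exact fun h => hadj h.2
    · exact mem_union_left _ (key u hu hA (Or.inr hφ))
  have h9 := card_le_card h8
  have h10 : ((X.image φ ∪ (X.image (fun y => φ y + 1) ∪ X.image (fun y => φ y - 1))) ∪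
        ((hn G (U \ C) v) \ (gn G (U \ C) v)).image φ).card ≤
      (X.card + (X.card + X.card)) + ((hn G (U \ C) v) \ (gn G (U \ C) v)).card := by
    refine (card_union_le _ _).trans (Nat.add_le_add ?_ card_image_le)
    refine (card_union_le _ _).trans (Nat.add_le_add card_image_le ?_)
    exact (card_union_le _ _).trans (Nat.add_le_add card_image_le card_image_le)
  rw [card_sdiff_of_subset (gn_subset_hn _ _ _)] at h10
  omega

end GYD
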