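import Pool.Agent.GYD.StmtsB
import Pool.Agent.GYD.StmtsC

set_option autoImplicit false

/-!
# Griggs-Yeh, part B, module E02
-/

namespace GYD

open Finset

namespace E02

variable {V : Type} [Fintype V] [DecidableEq V]

theorem double (G : SimpleGraph V) (C Q : Finset V) (D : ℕ)
    (hdeg : ∀ v, (gn G univ v).card ≤ D) :
    ∑ v ∈ C, (gn G Q v).card ≤ Q.card * D := by
  classical
  have h1 : ∀ v, gn G Q v = Q.bipartiteAbove G.Adj v := by
    intro v
    ext u
    simp [mem_gn, Finset.mem_bipartiteAbove]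
  rw [sum_congr rfl (fun v _ => by rw [h1 v]),
    sum_card_bipartiteAbove_eq_sum_card_bipartiteBelow]
  refine (sum_le_card_nsmul Q _ D ?_).trans (by rw [smul_eq_mul])
  intro u _
  refine (card_le_card ?_).trans (hdeg u)
  intro v hv
  rw [Finset.mem_bipartiteBelow] at hv
  exact mem_gn.2 ⟨mem_univ v, hv.2.symm⟩

theorem Jp_card (G : SimpleGraph V) (D : ℕ) (C S : Finset V) (φ : V → ℕ) :
    (Jp G D C S φ).card ≤ 3 * (JJ G D C S φ).card := by
  classical
  have h1 : Jp G D C S φ ⊆ JJ G D C S φ ∪ ((JJ G D C S φ).image (fun j => j - 1) ∪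
      (JJ G D C S φ).image (fun j => j + 1)) := by
    intro i hi
    unfold Jp at hi
    rw [mem_filter] at hi
    rw [mem_union, mem_union, mem_image, mem_image]
    rcases hi.2 with h | h | ⟨j, hj, h⟩
    · exact Or.inl h
    · exact Or.inr (Or.inl ⟨i + 1, h, by simp⟩)
    · exact Or.inr (Or.inr ⟨j, hj, h.symm⟩)
  have h2 := card_le_card h1
  have h3 := card_union_le (JJ G D C S φ) ((JJ G D C S φ).image (fun j => j - 1) ∪
      (JJ G D C S φ).image (fun j => j + 1))
  have h4 := card_union_le ((JJ G D C S φ).image (fun j => j - 1))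
      ((JJ G D C S φ).image (fun j => j + 1))
  have h5 := card_image_le (s := JJ G D C S φ) (f := fun j => j - 1)
  have h6 := card_image_le (s := JJ G D C S φ) (f := fun j => j + 1)
  omega

end E02

theorem t_E02 (hE01 : Stmt_E01) (hB03 : Stmt_B03) (hD06 : Stmt_D06) : Stmt_E02 := by
  intro V _ _ G D s U E C P φ hF ho
  classical
  have hJ : (Jp G D C (U \ C) φ).card ≤ 225 * D := by
    have h1 := E02.Jp_card G D C (U \ C) φ
    have h2 := hF.J_le
    omega
  refine ⟨?_, hJ⟩
  have h1 : ∑ v ∈ C, (1 + (gn G (univ \ C) v).card) ≤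
      ∑ v ∈ C, (3 * ((gn G (U \ C) v).filter (fun y => φ y ∈ Jp G D C (U \ C) φ)).card
        + dfc G D C (U \ C) φ v) :=
    sum_le_sum fun v hv => by
      have := hE01 V G D s U C φ hF.toFail v hv
      convert this
  rw [sum_add_distrib, sum_add_distrib, ← mul_sum, (hD06 V G D U C φ).1] at h1
  have h2 : ∑ v ∈ C, D ≤ ∑ v ∈ C, ((gn G (univ \ C) v).card + 216) := sum_le_sum ho
  rw [sum_add_distrib] at h2
  simp only [sum_const, smul_eq_mul, mul_one] at h1 h2
  have h3 : TT G D C (U \ C) φ ≤ 24300 * D ^ 2 := by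
    refine hF.T_le.trans ?_
    have h4 : (JJ G D C (U \ C) φ).card - s ≤ 75 * D := (Nat.sub_le _ _).trans hF.J_le
    calc ((JJ G D C (U \ C) φ).card - s) * (324 * D) ≤ (75 * D) * (324 * D) :=
          Nat.mul_le_mul_right _ h4
      _ = 24300 * D ^ 2 := by ring
  have h4 : ∑ v ∈ C, ((gn G (U \ C) v).filter (fun y => φ y ∈ Jp G D C (U \ C) φ)).card ≤
      ∑ v ∈ C, ((gn G (U \ E) v).filter (fun y => φ y ∈ Jp G D C (U \ C) φ)).card +
      ∑ v ∈ C, (gn G (pv P) v).card := by
    rw [← sum_add_distrib]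
    refine sum_le_sum fun v _ => ?_
    refine (card_le_card ?_).trans (card_union_le _ _)
    intro u hu
    rw [mem_filter, mem_gn, mem_sdiff, hF.Cdef, mem_sdiff] at hu
    rw [mem_union, mem_filter, mem_gn, mem_gn, mem_sdiff]
    by_cases h : u ∈ pv P
    · exact Or.inr ⟨h, hu.1.2⟩
    · left
      refine ⟨⟨⟨hu.1.1.1, fun hE => hu.1.1.2 ⟨hE, h⟩⟩, hu.1.2⟩, ?_⟩
      rw [hF.Cdef]
      exact hu.2
  have h5 : ∑ v ∈ C, (gn G (pv P) v).card ≤ 10 * D ^ 2 := by
    refine (E02.double G C (pv P) D hF.deg).trans ?_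
    have h6 := (hB03 V G E P hF.pairs).1
    have h7 : (pv P).card ≤ 10 * D := by
      have := hF.Pcard
      omega
    calc (pv P).card * D ≤ (10 * D) * D := Nat.mul_le_mul_right _ h7
      _ = 10 * D ^ 2 := by ring
  have h6 : 10 ^ 8 * C.card ≤ C.card * D := by
    rw [mul_comm]
    exact Nat.mul_le_mul_left _ hF.big
  have h7 : 10 ^ 8 * D ≤ D ^ 2 := by
    rw [pow_two]
    exact Nat.mul_le_mul_right D hF.big
  have h8 := hF.cards
  have h9 := hF.s_le
  omega

end GYD
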