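import Pool.Agent.GYD.StmtsB
import Pool.Agent.GYD.StmtsC

set_option autoImplicit false
set_option linter.unusedVariables false

namespace GYD

open Finset

namespace E03

variable {V : Type} [Fintype V] [DecidableEq V]

theorem low_sum (G : SimpleGraph V) (C O : Finset V) (φ : V → ℕ) (L : Finset ℕ) :
    ∑ v ∈ C, ((gn G O v).filter (fun y => φ y ∈ L)).card
      = ∑ j ∈ L, load O φ (fun x => (gn G C x).card) j := by
  classical
  have h1 : ∑ j ∈ L, load O φ (fun x => (gn G C x).card) j
      = ∑ y ∈ O.filter (fun y => φ y ∈ L), (gn G C y).card := by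
    rw [← Finset.sum_fiberwise_of_maps_to (s := O.filter (fun y => φ y ∈ L)) (t := L) (g := φ)
      (fun y hy => (mem_filter.mp hy).2)]
    apply Finset.sum_congr rfl
    intro j hj
    unfold load
    apply Finset.sum_congr _ (fun _ _ => rfl)
    ext y
    simp only [mem_filter]
    constructor
    · rintro ⟨h1, h2⟩
      exact ⟨⟨h1, h2 ▸ hj⟩, h2⟩
    · rintro ⟨⟨h1, _⟩, h2⟩
      exact ⟨h1, h2⟩
  rw [h1]
  have h2 : ∀ v, ((gn G O v).filter (fun y => φ y ∈ L)).card
      = ((O.filter (fun y => φ y ∈ L)).filter (fun y => G.Adj v y)).card := by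
    intro v
    congr 1
    ext y
    simp only [mem_filter, mem_gn]
    tauto
  have h3 : ∀ y, (gn G C y).card = (C.filter (fun v => G.Adj v y)).card := by
    intro y
    congr 1
    ext v
    simp only [mem_filter, mem_gn]
    rw [G.adj_comm]
  simp only [h2, h3, Finset.card_filter (fun y => G.Adj _ y)]
  rw [Finset.sum_comm]
  apply Finset.sum_congr rfl
  intro y _
  rw [Finset.card_filter]

end E03

open E03 in
theorem t_E03 (hE02 : Stmt_E02) (hD04 : Stmt_D04) : Stmt_E03 := by
  classical
  intro V _ _ G D s U E C P φ hF hO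
  obtain ⟨h1, h2⟩ := hE02 V G D s U E C P φ hF hO
  have hB : Base G D s U C := hF.toFail.toBase
  set JP := Jp G D C (U \ C) φ with hJP
  set L := JP.filter (fun j => 2250 * load (U \ E) φ (fun x => (gn G C x).card) j < C.card) with hL
  have h3 : ∀ v ∈ C, ((gn G (U \ E) v).filter (fun y => φ y ∈ JP)).card
      ≤ (gn G (ZZ G D U E C φ) v).card + 144 + ((gn G (U \ E) v).filter (fun y => φ y ∈ L)).card := by
    intro v hv
    obtain ⟨_, _, h144, _⟩ := hD04 V G D s U C hB v hv
    have hsub : (gn G (U \ E) v).filter (fun y => φ y ∈ JP) ⊆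
        (gn G (ZZ G D U E C φ) v ∪ (gn G univ v).filter (fun m => 2 * (gn G C m).card < D)) ∪
          (gn G (U \ E) v).filter (fun y => φ y ∈ L) := by
      intro y hy
      obtain ⟨hy1, hy2⟩ := mem_filter.mp hy
      obtain ⟨hy3, hy4⟩ := mem_gn.mp hy1
      rw [mem_union, mem_union]
      by_cases ha : 2250 * load (U \ E) φ (fun x => (gn G C x).card) (φ y) < C.card
      · right
        rw [mem_filter]
        refine ⟨hy1, ?_⟩
        rw [hL, mem_filter]
        exact ⟨hy2, ha⟩
      · left
        by_cases hb : 2 * (gn G C y).card < D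
        · right
          rw [mem_filter]
          exact ⟨mem_gn.mpr ⟨mem_univ _, hy4⟩, hb⟩
        · left
          rw [mem_gn]
          refine ⟨?_, hy4⟩
          unfold ZZ
          rw [mem_filter]
          exact ⟨hy3, hy2, not_lt.mp ha, not_lt.mp hb⟩
    calc _ ≤ _ := card_le_card hsub
      _ ≤ _ := card_union_le _ _
      _ ≤ _ := Nat.add_le_add_right (le_trans (card_union_le _ _) (Nat.add_le_add_left h144 _)) _
  have h4 := Finset.sum_le_sum h3
  rw [Finset.sum_add_distrib, Finset.sum_add_distrib, Finset.sum_const, smul_eq_mul, low_sum G C (U \ E) φ L] at h4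
  have h5 : 2250 * ∑ j ∈ L, load (U \ E) φ (fun x => (gn G C x).card) j ≤ 225 * D * C.card := by
    rw [Finset.mul_sum]
    calc ∑ j ∈ L, 2250 * load (U \ E) φ (fun x => (gn G C x).card) j
        ≤ ∑ j ∈ L, C.card := Finset.sum_le_sum fun j hj => le_of_lt (mem_filter.mp hj).2
      _ = L.card * C.card := by rw [Finset.sum_const, smul_eq_mul]
      _ ≤ 225 * D * C.card := Nat.mul_le_mul_right _ (le_trans (card_filter_le _ _) h2)
  have h6 : 10 ^ 8 * C.card ≤ C.card * D := by
    rw [mul_comm]
    exact Nat.mul_le_mul_left _ hB.big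
  have h7 : 225 * D * C.card = 225 * (C.card * D) := by ring
  rw [h7] at h5
  generalize C.card * D = a at *
  generalize (∑ v ∈ C, (gn G (ZZ G D U E C φ) v).card) = b at *
  generalize (∑ j ∈ L, load (U \ E) φ (fun x => (gn G C x).card) j) = c at *
  generalize (∑ v ∈ C, ((gn G (U \ E) v).filter (fun y => φ y ∈ JP)).card) = e at *
  omega

end GYD
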