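import Pool.Agent.GYD.StmtsB
import Pool.Agent.GYD.StmtsC

set_option autoImplicit false
set_option linter.unusedVariables false
set_option linter.unusedSectionVars false

/-!
# (II.4): every loaded line has few loaded lines near it
-/

open Finset

namespace GYD

namespace E04

variable {V : Type} [Fintype V] [DecidableEq V]

theorem card_Jp (G : SimpleGraph V) (D : ℕ) (C S : Finset V) (φ : V → ℕ) :
    (Jp G D C S φ).card ≤ 3 * (JJ G D C S φ).card := by
  classical
  have h : Jp G D C S φ ⊆ JJ G D C S φ ∪ ((JJ G D C S φ).image (fun j => j - 1) ∪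
      (JJ G D C S φ).image (fun j => j + 1)) := by
    intro i hi
    unfold Jp at hi
    rw [mem_filter] at hi
    rw [mem_union, mem_union, mem_image, mem_image]
    rcases hi.2 with h1 | h1 | ⟨j, h1, h2⟩
    · exact Or.inl h1
    · exact Or.inr (Or.inl ⟨i + 1, h1, by omega⟩)
    · exact Or.inr (Or.inr ⟨j, h1, h2.symm⟩)
  have h1 := card_le_card h
  have h2 := card_union_le (JJ G D C S φ) ((JJ G D C S φ).image (fun j => j - 1) ∪
      (JJ G D C S φ).image (fun j => j + 1))
  have h3 := card_union_le ((JJ G D C S φ).image (fun j => j - 1))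
      ((JJ G D C S φ).image (fun j => j + 1))
  have h4 : ((JJ G D C S φ).image (fun j => j - 1)).card ≤ _ := card_image_le
  have h5 : ((JJ G D C S φ).image (fun j => j + 1)).card ≤ _ := card_image_le
  omega

theorem double (G : SimpleGraph V) (A B : Finset V) :
    ∑ y ∈ A, (gn G B y).card = ∑ m ∈ B, (gn G A m).card := by
  classical
  have h1 : ∀ (S : Finset V) (y : V), (gn G S y).card = ∑ m ∈ S, if G.Adj y m then 1 else 0 := by
    intro S y
    unfold gn
    rw [card_filter]
  simp only [h1]
  rw [sum_comm]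
  refine sum_congr rfl fun m _ => sum_congr rfl fun y _ => ?_
  rw [G.adj_comm]

theorem sum_load (O : Finset V) (φ w : V → ℕ) (T : Finset ℕ) :
    ∑ i ∈ T, load O φ w i ≤ ∑ y ∈ O, w y := by
  classical
  unfold load
  have h1 : ∀ i ∈ T, ∑ y ∈ O.filter (fun y => φ y = i), w y =
      ∑ y ∈ O, if φ y = i then w y else 0 := fun i _ => sum_filter _ _
  rw [sum_congr rfl h1, sum_comm]
  refine sum_le_sum fun y _ => ?_
  rw [sum_ite_eq T (φ y) (fun _ => w y)]
  split_ifs
  · exact le_rfl
  · exact Nat.zero_le _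

end E04

theorem t_E04 (hE02 : Stmt_E02) (hD10 : Stmt_D10) (hD01 : Stmt_D01) : Stmt_E04 := by
  classical
  intro V _ _ G D s U E C P φ hF hmin y hy
  set S := U \ C with hS
  set O := U \ E with hO
  set Z := ZZ G D U E C φ with hZ
  set w : V → ℕ := fun y => (gn G C y).card with hw
  have hbig := hF.big
  have hCE : C ⊆ E := by rw [hF.Cdef]; exact sdiff_subset
  have hZy : y ∈ O ∧ φ y ∈ Jp G D C S φ ∧ C.card ≤ 2250 * load O φ w (φ y) ∧
      D ≤ 2 * (gn G C y).card := by
    have h := hy
    rw [hZ] at h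
    unfold ZZ at h
    rw [mem_filter] at h
    exact h
  obtain ⟨hyO, hyJ, hyL, hyD⟩ := hZy
  have hyS : y ∈ S := by
    rw [hS, mem_sdiff]
    rw [hO, mem_sdiff] at hyO
    exact ⟨hyO.1, fun h => hyO.2 (hCE h)⟩
  have hZS : Z ⊆ S := by
    intro x hx
    rw [hZ] at hx
    unfold ZZ at hx
    rw [mem_filter, mem_sdiff] at hx
    rw [hS, mem_sdiff]
    exact ⟨hx.1.1, fun h => hx.1.2 (hCE h)⟩
  -- the free labels
  set A := (range (D ^ 2 + 1)).filter (fun i => i ≠ φ y ∧ Free G S φ y i) with hA
  have h1 : D ^ 2 ≤ A.card + ((hn G S y).image φ).card + 2 * D := hD10 V G D S φ y hF.deg hyS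
  have h2 : (hn G S y).card ≤ D ^ 2 :=
    (card_le_card (hn_mono G (subset_univ S) y)).trans (hD01 V G D hF.deg y).2
  have h3 : hn G Z y ⊆ hn G S y := hn_mono G hZS y
  have h4 : ((hn G S y).image φ).card ≤ 225 * D + ((hn G S y).card - (hn G Z y).card) := by
    have h5 : (hn G S y).image φ ⊆ Jp G D C S φ ∪ (hn G S y \ hn G Z y).image φ := by
      intro i hi
      obtain ⟨u, hu, rfl⟩ := mem_image.mp hi
      rw [mem_union]
      by_cases h : u ∈ hn G Z y
      · left
        have h6 := (mem_hn.mp h).1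
        rw [hZ] at h6
        unfold ZZ at h6
        rw [mem_filter] at h6
        exact h6.2.1
      · right
        exact mem_image_of_mem φ (mem_sdiff.mpr ⟨hu, h⟩)
    have h6 := (card_le_card h5).trans (card_union_le _ _)
    have h7 : ((hn G S y \ hn G Z y).image φ).card ≤ (hn G S y \ hn G Z y).card := card_image_le
    rw [card_sdiff_of_subset h3] at h7
    have h8 := E04.card_Jp G D C S φ
    have h9 : (JJ G D C S φ).card ≤ 75 * D := hF.J_le
    omega
  have h5 := card_le_card h3
  have h6 : (hn G Z y).card ≤ A.card + 227 * D := by omega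
  -- the loads of the free labels
  have h7 : ∀ i ∈ A, C.card ≤ 2250 * load O φ w i + 2250 * D := by
    intro i hi
    rw [hA, mem_filter, mem_range] at hi
    have h8 := hmin y hyO i (by omega) hi.2.1 hi.2.2 (by
      show 0 < (gn G C y).card
      omega)
    have h8' : load O φ w (φ y) ≤ load O φ w i + (gn G C y).card := h8
    have h9 : (gn G C y).card ≤ D :=
      (card_le_card (gn_mono G (subset_univ C) y)).trans (hF.deg y)
    omega
  have h8 : A.card * C.card ≤ 2250 * ∑ i ∈ A, load O φ w i + 2250 * D * A.card := by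
    have h9 := sum_le_sum h7
    rw [sum_const, smul_eq_mul, sum_add_distrib, ← mul_sum, sum_const, smul_eq_mul] at h9
    linarith
  have h9 : ∑ i ∈ A, load O φ w i ≤ D * C.card := by
    refine (E04.sum_load O φ w A).trans ?_
    show ∑ y ∈ O, (gn G C y).card ≤ D * C.card
    rw [E04.double]
    have h10 : ∀ m ∈ C, (gn G O m).card ≤ D := fun m _ =>
      (card_le_card (gn_mono G (subset_univ O) m)).trans (hF.deg m)
    have h11 := sum_le_sum h10
    rw [sum_const, smul_eq_mul, mul_comm] at h11
    exact h11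
  -- conclusion
  have hc := hF.cards
  have hs := hF.s_le
  by_contra hcon
  have h10 : 2253 * D ≤ A.card := by omega
  have h11 : A.card * C.card ≤ 2250 * (D * C.card) + 2250 * D * A.card := by
    have := Nat.mul_le_mul_left 2250 h9
    omega
  have h12 : D ^ 2 ≤ C.card + 72 * D := by omega
  have h13 : 10 ^ 8 * D ≤ D ^ 2 := by rw [pow_two]; exact Nat.mul_le_mul_right D hbig
  have h14 : (10 ^ 8 - 72) * D ≤ C.card := by omega
  have hD0 : 0 < D := by omega
  -- (A - 2250 D) (C - 2250 D) <= (2250 D)^2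
  obtain ⟨a, ha⟩ := Nat.exists_eq_add_of_le h10
  obtain ⟨c, hc'⟩ := Nat.exists_eq_add_of_le h14
  rw [ha, hc'] at h11
  nlinarith [Nat.zero_le (a * D), Nat.zero_le (a * c), Nat.zero_le (D * c), Nat.mul_pos hD0 hD0]

end GYD
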