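import Pool.Agent.GYD.StmtsC

/-! (II.5) the two sums and the number of pairs (module GYD_E05). -/

set_option autoImplicit false

namespace GYD

open Finset

namespace E05

variable {V : Type} [Fintype V] [DecidableEq V]

theorem sq_le (r g : ℕ) (h : r ≤ g) : r ^ 2 ≤ r + g * (r - 1) := by
  rcases Nat.eq_zero_or_pos r with h0 | h0
  · subst h0
    simp
  · obtain ⟨k, rfl⟩ : ∃ k, r = k + 1 := ⟨r - 1, by omega⟩
    rw [Nat.add_sub_cancel]
    nlinarith

theorem cp_le_gn (G : SimpleGraph V) (Z : Finset V) (v w : V) : cp G Z v w ≤ (gn G Z v).card := by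
  classical
  unfold cp
  apply card_le_card
  intro m hm
  rw [mem_filter] at hm
  exact mem_gn.2 ⟨hm.1, hm.2.1⟩

end E05

theorem t_E05 (hD02 : Stmt_D02) (hD03 : Stmt_D03) (hD11 : Stmt_D11) : Stmt_E05 := by
  classical
  intro V _ _ G D s U C Z hB
  have h11 := hD11 V G Z C C (fun _ => 0)
  rw [h11.2.2.2.1, mul_sum]
  apply sum_le_sum
  intro v hv
  have hdeg : ∀ (S : Finset V) (m : V), (gn G S m).card ≤ D := fun S m =>
    (card_le_card (gn_mono G (subset_univ S) m)).trans (hB.deg m)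
  have hZ := hD11 V G Z C Z (fun _ => 0)
  obtain ⟨-, hsum, -, -, hcd, -, hself⟩ := hZ
  -- the sum of the `r`
  have e1 : ∑ w ∈ C, cp G Z v w ≤ D * (gn G Z v).card := by
    rw [hsum v, mul_comm, ← smul_eq_mul, ← sum_const]
    exact sum_le_sum fun m _ => hdeg C m
  -- the sum of the `r - 1`
  have hsub : C.erase v ⊆ hn G U v := by
    intro w hw
    rw [mem_erase] at hw
    exact mem_hn.2 ⟨hB.CU hw.2, hB.clq v hv w hw.2 hw.1.symm⟩
  have e2 : ∑ w ∈ C.erase v, (cp G Z v w - 1) ≤ 72 * D := by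
    have h1 : ∑ w ∈ C.erase v, (cp G Z v w - 1) ≤ ∑ w ∈ C.erase v, (cdg G v w + ad G v w - 1) := by
      apply sum_le_sum
      intro w _
      have := hcd v w
      omega
    have h2 : ∑ w ∈ C.erase v, (cdg G v w + ad G v w - 1) ≤
        ∑ w ∈ hn G U v, (cdg G v w + ad G v w - 1) :=
      sum_le_sum_of_subset hsub
    have h3 := hD02 V G D s U C hB v hv
    have h4 := (hD03 V G D s U C hB v hv).2.1
    have h5 := hB.s_le
    omega
  rw [← add_sum_erase C _ hv, hself v]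
  have e3 : ∑ w ∈ C.erase v, cp G Z v w ^ 2 ≤ ∑ w ∈ C.erase v, cp G Z v w +
      (gn G Z v).card * ∑ w ∈ C.erase v, (cp G Z v w - 1) := by
    rw [mul_sum, ← sum_add_distrib]
    exact sum_le_sum fun w _ => E05.sq_le _ _ (E05.cp_le_gn G Z v w)
  have e4 : ∑ w ∈ C.erase v, cp G Z v w ≤ ∑ w ∈ C, cp G Z v w :=
    sum_le_sum_of_subset (erase_subset v C)
  have e5 : (gn G Z v).card * ∑ w ∈ C.erase v, (cp G Z v w - 1) ≤ (gn G Z v).card * (72 * D) :=
    Nat.mul_le_mul_left _ e2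
  have e6 : (gn G Z v).card ^ 2 ≤ D * (gn G Z v).card := by
    rw [sq]
    exact Nat.mul_le_mul_right _ (hdeg Z v)
  nlinarith [e1, e3, e4, e5, e6]

end GYD
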