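import Pool.Agent.GYD.StmtsC

set_option autoImplicit false
set_option linter.unusedVariables false
set_option linter.unusedSectionVars false

/-!
# E06: type II is impossible
-/

namespace GYD

open Finset

namespace E06

variable {V : Type} [Fintype V] [DecidableEq V]

open Classical in
theorem cp_pos {G : SimpleGraph V} {C : Finset V} {x y : V} (h : 0 < cp G C x y) :
    x = y ∨ HA G x y := by
  unfold cp at h
  obtain ⟨m, hm⟩ := Finset.card_pos.1 h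
  obtain ⟨_, h1, h2⟩ := mem_filter.1 hm
  by_cases hxy : x = y
  · exact Or.inl hxy
  · exact Or.inr ⟨hxy, Or.inr ⟨m, h1, h2⟩⟩

open Classical in
/-- Cauchy-Schwarz over the pairs with a common neighbour. -/
theorem cs (G : SimpleGraph V) (C Z : Finset V) (k : ℕ) (hk : ∀ y ∈ Z, (hn G Z y).card ≤ k) :
    (∑ x ∈ Z, ∑ y ∈ Z, cp G C x y) ^ 2 ≤
      (Z.card * (k + 1)) * ∑ x ∈ Z, ∑ y ∈ Z, cp G C x y ^ 2 := by
  let Pz : Finset (V × V) := (Z ×ˢ Z).filter (fun p => 0 < cp G C p.1 p.2)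
  have e1 : ∑ x ∈ Z, ∑ y ∈ Z, cp G C x y = ∑ p ∈ Pz, cp G C p.1 p.2 := by
    rw [← Finset.sum_product' Z Z (fun x y => cp G C x y)]
    symm
    apply Finset.sum_filter_of_ne
    intro p _ hp
    exact Nat.pos_of_ne_zero hp
  have e2 : ∑ p ∈ Pz, cp G C p.1 p.2 ^ 2 ≤ ∑ x ∈ Z, ∑ y ∈ Z, cp G C x y ^ 2 := by
    rw [← Finset.sum_product' Z Z (fun x y => cp G C x y ^ 2)]
    exact Finset.sum_le_sum_of_subset (filter_subset _ _)
  have e3 : Pz.card ≤ Z.card * (k + 1) := by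
    have h1 : Pz.card = ∑ x ∈ Z, (Z.filter (fun y => 0 < cp G C x y)).card := by
      rw [Finset.card_filter, Finset.sum_product]
      apply Finset.sum_congr rfl
      intro x _
      rw [Finset.card_filter]
    rw [h1, ← smul_eq_mul]
    apply Finset.sum_le_card_nsmul
    intro x hx
    have h2 : Z.filter (fun y => 0 < cp G C x y) ⊆ insert x (hn G Z x) := by
      intro y hy
      obtain ⟨hy1, hy2⟩ := mem_filter.1 hy
      rw [mem_insert, mem_hn]
      rcases cp_pos hy2 with h | h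
      · exact Or.inl h.symm
      · exact Or.inr ⟨hy1, h⟩
    exact (card_le_card h2).trans ((card_insert_le _ _).trans (Nat.succ_le_succ (hk x hx)))
  rw [e1]
  calc (∑ p ∈ Pz, cp G C p.1 p.2) ^ 2 ≤ Pz.card * ∑ p ∈ Pz, cp G C p.1 p.2 ^ 2 :=
        sq_sum_le_card_mul_sum_sq
    _ ≤ _ := Nat.mul_le_mul e3 e2

theorem arith (c z S Q W D s : ℕ) (hD : 10 ^ 8 ≤ D) (hc : c + s = D ^ 2 + 1) (hs : s ≤ 72 * D)
    (h1 : 10 * (c * D) ≤ 44 * S) (h3 : W ≤ 74 * D * S) (h5 : S ^ 2 ≤ c * Q)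
    (h6 : Q ^ 2 ≤ (z * (2480 * D + 1)) * W) (h7 : z * D ≤ 2 * S) : False := by
  have hc0 : 0 < c := by
    have : 72 * D < D ^ 2 + 1 := by nlinarith
    omega
  have hD0 : 0 < D := by omega
  have hS0 : 0 < S := by
    have : 0 < c * D := Nat.mul_pos hc0 hD0
    omega
  have h8 : S ^ 2 * (S ^ 2 * D) ≤ (148 * c ^ 2 * (2480 * D + 1)) * (S ^ 2 * D) := by
    calc S ^ 2 * (S ^ 2 * D) = (S ^ 2) ^ 2 * D := by ring
      _ ≤ (c * Q) ^ 2 * D := Nat.mul_le_mul_right _ (Nat.pow_le_pow_left h5 2)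
      _ = c ^ 2 * D * Q ^ 2 := by ring
      _ ≤ c ^ 2 * D * ((z * (2480 * D + 1)) * W) := Nat.mul_le_mul_left _ h6
      _ ≤ c ^ 2 * D * ((z * (2480 * D + 1)) * (74 * D * S)) :=
          Nat.mul_le_mul_left _ (Nat.mul_le_mul_left _ h3)
      _ = (z * D) * (c ^ 2 * (2480 * D + 1) * (74 * D * S)) := by ring
      _ ≤ (2 * S) * (c ^ 2 * (2480 * D + 1) * (74 * D * S)) := Nat.mul_le_mul_right _ h7
      _ = (148 * c ^ 2 * (2480 * D + 1)) * (S ^ 2 * D) := by ring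
  have h9 : S ^ 2 ≤ 148 * c ^ 2 * (2480 * D + 1) :=
    Nat.le_of_mul_le_mul_right h8 (by positivity)
  have h10 : c ^ 2 * (100 * D ^ 2) ≤ c ^ 2 * (286528 * (2480 * D + 1)) := by
    calc c ^ 2 * (100 * D ^ 2) = (10 * (c * D)) ^ 2 := by ring
      _ ≤ (44 * S) ^ 2 := Nat.pow_le_pow_left h1 2
      _ = 1936 * S ^ 2 := by ring
      _ ≤ 1936 * (148 * c ^ 2 * (2480 * D + 1)) := Nat.mul_le_mul_left _ h9
      _ = _ := by ring
  have h11 : 100 * D ^ 2 ≤ 286528 * (2480 * D + 1) :=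
    Nat.le_of_mul_le_mul_left h10 (by positivity)
  nlinarith

end E06

open E06 in
theorem t_E06 (hE03 : Stmt_E03) (hE04 : Stmt_E04) (hE05 : Stmt_E05) (hD11 : Stmt_D11) :
    Stmt_E06 := by
  intro V _ _ G D s U E C P φ hF hdeg hM
  have hB : Base G D s U C := hF.toFail.toBase
  have h1 := hE03 V G D s U E C P φ hF hdeg
  have h4 := hE04 V G D s U E C P φ hF hM
  have h3 := hE05 V G D s U C (ZZ G D U E C φ) hB
  obtain ⟨h11, _, h12, _⟩ := hD11 V G (ZZ G D U E C φ) C C (fun _ => 1)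
  have h5 : (∑ v ∈ C, (gn G (ZZ G D U E C φ) v).card) ^ 2 ≤
      C.card * ∑ v ∈ C, (gn G (ZZ G D U E C φ) v).card ^ 2 := sq_sum_le_card_mul_sum_sq
  have h6 := cs G C (ZZ G D U E C φ) (2480 * D) h4
  rw [h12] at h6
  have h7 : (ZZ G D U E C φ).card * D ≤ 2 * ∑ v ∈ C, (gn G (ZZ G D U E C φ) v).card := by
    simp only [mul_one, sum_const, smul_eq_mul] at h11
    rw [← h11, Finset.mul_sum, ← smul_eq_mul]
    apply Finset.card_nsmul_le_sum
    intro y hy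
    classical
    exact (mem_filter.1 hy).2.2.2
  exact arith C.card (ZZ G D U E C φ).card (∑ v ∈ C, (gn G (ZZ G D U E C φ) v).card)
    (∑ v ∈ C, (gn G (ZZ G D U E C φ) v).card ^ 2)
    (∑ y ∈ ZZ G D U E C φ, ∑ y' ∈ ZZ G D U E C φ, cp G C y y' ^ 2) D s hB.big hB.cards hB.s_le
    h1 h3 h5 h6 h7

end GYD
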