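import Pool.Agent.GYD.StmtsC

set_option autoImplicit false

/-!
# (I.2), the inequality (*)
-/

namespace GYD

open Finset

namespace G01

variable {V : Type} [Fintype V] [DecidableEq V]

theorem cp_le_cdg (G : SimpleGraph V) (C : Finset V) (u v : V) : cp G C u v ≤ cdg G u v := by
  classical
  unfold cp cdg
  refine card_le_card ?_
  intro m hm
  rw [mem_filter] at hm ⊢
  exact ⟨mem_univ m, hm.2⟩

theorem ha_of_cp {G : SimpleGraph V} {C : Finset V} {u v : V} (hne : u ≠ v)
    (h : cp G C u v ≠ 0) : HA G u v := by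
  classical
  unfold cp at h
  obtain ⟨m, hm⟩ := card_pos.mp (Nat.pos_of_ne_zero h)
  rw [mem_filter] at hm
  exact ⟨hne, Or.inr ⟨m, hm.2⟩⟩

end G01

theorem t_G01 (hD02 : Stmt_D02) (hD05 : Stmt_D05) (hG03 : Stmt_G03) : Stmt_G01 := by
  classical
  intro V _ _ G D s U C O φ hF hO z hz
  have h2 := hD02 V G D s U C hF.toBase z hz
  have h5 := hD05 V G D s U C φ hF z hz
  set S := U \ C with hS
  set J := JJ G D C S φ with hJ
  set A := O.filter (fun y => HA G z y) with hA
  set sl : ℕ → ℕ := fun j => ∑ y ∈ A.filter (fun y => φ y = j), (cdg G z y + ad G z y - 1)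
    with hsl
  have hAS : ∀ y ∈ A, y ∈ hn G S z := by
    intro y hy
    rw [hA, mem_filter] at hy
    exact mem_hn.mpr ⟨hO hy.1, hy.2⟩
  have hAU : A ⊆ hn G U z := by
    intro y hy
    have h := hAS y hy
    rw [mem_hn] at h ⊢
    exact ⟨(mem_sdiff.mp h.1).1, h.2⟩
  have hdj : ∀ j, dj G C O φ z j ≤ mult G S φ z j + sl j := by
    intro j
    refine ((hG03 V G D s U C O φ hF hO j).2.2.1 z hz).trans ?_
    have e1 : ∑ y ∈ O.filter (fun y => φ y = j), cp G C z y =
        ∑ y ∈ A.filter (fun y => φ y = j), cp G C z y := by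
      symm
      refine sum_subset ?_ ?_
      · intro y hy
        rw [mem_filter, hA, mem_filter] at hy
        exact mem_filter.mpr ⟨hy.1.1, hy.2⟩
      · intro y hy hy'
        by_contra hc
        rw [mem_filter] at hy
        have hne : z ≠ y := by
          rintro rfl
          exact (mem_sdiff.mp (hO hy.1)).2 hz
        exact hy' (mem_filter.mpr ⟨mem_filter.mpr ⟨hy.1, G01.ha_of_cp hne hc⟩, hy.2⟩)
    rw [e1]
    have e2 : ∑ y ∈ A.filter (fun y => φ y = j), cp G C z y ≤
        ∑ y ∈ A.filter (fun y => φ y = j), (1 + (cdg G z y + ad G z y - 1)) := by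
      refine sum_le_sum fun y _ => ?_
      have := G01.cp_le_cdg G C z y
      omega
    refine e2.trans ?_
    rw [sum_add_distrib, sum_const, smul_eq_mul, mul_one]
    have e3 : (A.filter (fun y => φ y = j)).card ≤ mult G S φ z j := by
      unfold mult
      refine le_trans (card_le_card ?_) (Nat.le_add_right _ _)
      intro y hy
      rw [mem_filter] at hy ⊢
      exact ⟨hAS y hy.1, hy.2⟩
    exact Nat.add_le_add_right e3 _
  have hJr : J ⊆ range (D ^ 2 + 1) := by
    intro j hj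
    rw [hJ, mem_JJ] at hj
    rw [mem_range]
    omega
  have hslsum : ∑ j ∈ range (D ^ 2 + 1), sl j = ∑ y ∈ A, (cdg G z y + ad G z y - 1) := by
    rw [hsl]
    refine sum_fiberwise_of_maps_to ?_ _
    intro y hy
    rw [mem_range]
    have h := hF.lab.le y (mem_hn.mp (hAS y hy)).1
    omega
  have hsl2 : ∑ j ∈ J, sl j + ∑ j ∈ range (D ^ 2 + 1) \ J, sl j ≤
      ∑ x ∈ hn G U z, (cdg G z x + ad G z x - 1) := by
    rw [add_comm, sum_sdiff hJr, hslsum]
    exact sum_le_sum_of_subset hAU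
  have h6 : ∑ j ∈ J, (dj G C O φ z j - 1) ≤ ∑ j ∈ J, (mult G S φ z j - 1) + ∑ j ∈ J, sl j := by
    rw [← sum_add_distrib]
    refine sum_le_sum fun j _ => ?_
    have := hdj j
    omega
  have h7 : ∑ j ∈ range (D ^ 2 + 1) \ J, dj G C O φ z j ≤
      ∑ j ∈ range (D ^ 2 + 1) \ J, mult G S φ z j + ∑ j ∈ range (D ^ 2 + 1) \ J, sl j := by
    rw [← sum_add_distrib]
    exact sum_le_sum fun j _ => hdj j
  have h8 : ∑ x ∈ univ \ U, cp G C z x ≤ ∑ x ∈ univ \ U, (cdg G z x + ad G z x) := by
    refine sum_le_sum fun x _ => ?_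
    have := G01.cp_le_cdg G C z x
    omega
  omega

end GYD
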