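import Pool.Agent.GYD.StmtsC

set_option autoImplicit false
set_option linter.unusedVariables false

/-!
# (I.2), consequences
-/

namespace GYD

open Finset

namespace G02

theorem arith {K D m a f S : ℕ} (hm : m = 2 * a + f) (hKD : K ≤ D) (hKm : K ≤ m) (ha : a ≤ D)
    (hS : S ≤ m) : K * S ≤ 4 * a ^ 2 + 3 * D * f := by
  have h1 : K * S ≤ K * m := Nat.mul_le_mul_left _ hS
  have h2 : K * m = K * (2 * a) + K * f := by rw [hm]; ring
  have h3 : K * (2 * a) ≤ m * (2 * a) := Nat.mul_le_mul_right _ hKm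
  have h4 : m * (2 * a) = 4 * a ^ 2 + 2 * (a * f) := by rw [hm]; ring
  have h5 : a * f ≤ D * f := Nat.mul_le_mul_right _ ha
  have h6 : K * f ≤ D * f := Nat.mul_le_mul_right _ hKD
  have h7 : 3 * D * f = 3 * (D * f) := by ring
  omega

theorem main {J R : Finset ℕ} {d : ℕ → ℕ} {D m a f r : ℕ} (hJR : J ⊆ R)
    (hm : m = 2 * a + f) (hd : ∀ j, d j ≤ D) (ha : a ≤ D)
    (h : ∑ j ∈ J, (d j - 1) + ∑ j ∈ R \ J, d j + r + 1 ≤ m) :
    (∀ j ∈ R, d j ≤ m) ∧ ∑ j ∈ R, d j * (d j - 1) ≤ 4 * a ^ 2 + 3 * D * f := by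
  classical
  have key : ∀ j ∈ R, d j ≤ m := by
    intro j hj
    by_cases hjJ : j ∈ J
    · have h1 : d j - 1 ≤ ∑ j ∈ J, (d j - 1) :=
        Finset.single_le_sum (f := fun j => d j - 1) (fun i _ => Nat.zero_le _) hjJ
      omega
    · have h1 : d j ≤ ∑ j ∈ R \ J, d j :=
        Finset.single_le_sum (f := fun j => d j) (fun i _ => Nat.zero_le _)
          (Finset.mem_sdiff.mpr ⟨hj, hjJ⟩)
      omega
  refine ⟨key, ?_⟩
  have hK : ∀ j ∈ R, d j ≤ min D m := fun j hj => le_min (hd j) (key j hj)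
  have hsplit : ∑ j ∈ R, d j * (d j - 1) =
      ∑ j ∈ R \ J, d j * (d j - 1) + ∑ j ∈ J, d j * (d j - 1) :=
    (Finset.sum_sdiff hJR).symm
  have h1 : ∑ j ∈ J, d j * (d j - 1) ≤ min D m * ∑ j ∈ J, (d j - 1) := by
    rw [Finset.mul_sum]
    exact Finset.sum_le_sum fun j hj => Nat.mul_le_mul_right _ (hK j (hJR hj))
  have h2 : ∑ j ∈ R \ J, d j * (d j - 1) ≤ min D m * ∑ j ∈ R \ J, d j := by
    rw [Finset.mul_sum]
    refine Finset.sum_le_sum fun j hj => ?_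
    exact Nat.mul_le_mul (hK j (Finset.mem_sdiff.mp hj).1) (Nat.sub_le _ _)
  have h3 : ∑ j ∈ R, d j * (d j - 1) ≤
      min D m * (∑ j ∈ R \ J, d j + ∑ j ∈ J, (d j - 1)) := by
    rw [hsplit, Nat.mul_add]
    exact Nat.add_le_add h2 h1
  refine h3.trans (arith hm (min_le_left _ _) (min_le_right _ _) ha ?_)
  omega

end G02

theorem t_G02 (hG01 : Stmt_G01) : Stmt_G02 := by
  intro V _ _ G D s U C O φ hF hO z hz
  classical
  have hdeg : ∀ (S : Finset V) (v : V), (gn G S v).card ≤ D := fun S v =>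
    (Finset.card_le_card (gn_mono G (Finset.subset_univ S) v)).trans (hF.toBase.deg v)
  have h := hG01 V G D s U C O φ hF hO z hz
  have hJR : JJ G D C (U \ C) φ ⊆ range (D ^ 2 + 1) := by
    intro j hj
    exact Finset.mem_range.mpr (Nat.lt_succ_of_le (mem_JJ.mp hj).1)
  obtain ⟨h1, h2⟩ := G02.main (d := fun j => dj G C O φ z j) hJR rfl
    (fun j => hdeg _ _) (hdeg (U \ C) z) h
  exact ⟨fun j hj => h1 j (Finset.mem_range.mpr (Nat.lt_succ_of_le hj)), h2⟩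

end GYD
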