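import Pool.Agent.GYD.StmtsC

set_option autoImplicit false
set_option linter.unusedSectionVars false
set_option linter.unusedVariables false

namespace GYD

open Finset

namespace G03

variable {V : Type} [Fintype V] [DecidableEq V]

theorem Mj_eq (G : SimpleGraph V) (C O : Finset V) (φ : V → ℕ) (j : ℕ) :
    Mj G C O φ j = (O.filter (fun y => φ y = j)).biUnion (fun y => gn G C y) := by
  classical
  ext m
  rw [mem_Mj, mem_biUnion]
  constructor
  · rintro ⟨hm, y, hy, ha, hj⟩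
    exact ⟨y, mem_filter.mpr ⟨hy, hj⟩, mem_gn.mpr ⟨hm, ha.symm⟩⟩
  · rintro ⟨y, hy, hm⟩
    rw [mem_filter] at hy
    rw [mem_gn] at hm
    exact ⟨hm.1, y, hy.1, hm.2.symm, hy.2⟩

theorem disj {G : SimpleGraph V} {N : ℕ} {U C O : Finset V} {φ : V → ℕ}
    (hL : Lab G (U \ C) N φ) (hO : O ⊆ U \ C) (j : ℕ) :
    ∀ x ∈ O.filter (fun y => φ y = j), ∀ y ∈ O.filter (fun y => φ y = j), x ≠ y →
      Disjoint (gn G C x) (gn G C y) := by
  classical
  intro x hx y hy hne
  rw [mem_filter] at hx hy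
  rw [Finset.disjoint_left]
  intro m hm hm'
  rw [mem_gn] at hm hm'
  exact hL.ne x (hO hx.1) y (hO hy.1) ⟨hne, Or.inr ⟨m, hm.2, hm'.2.symm⟩⟩
    (hx.2.trans hy.2.symm)

theorem dj_eq {G : SimpleGraph V} {N : ℕ} {U C O : Finset V} {φ : V → ℕ}
    (hL : Lab G (U \ C) N φ) (hO : O ⊆ U \ C) (j : ℕ) (z : V) :
    dj G C O φ z j = ∑ y ∈ O.filter (fun y => φ y = j), cp G C z y := by
  classical
  have h1 : gn G (Mj G C O φ j) z = (O.filter (fun y => φ y = j)).biUnion
      (fun y => C.filter (fun m => G.Adj z m ∧ G.Adj m y)) := by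
    ext m
    rw [mem_gn, mem_Mj, mem_biUnion]
    constructor
    · rintro ⟨⟨hm, y, hy, ha, hj⟩, hz⟩
      exact ⟨y, mem_filter.mpr ⟨hy, hj⟩, mem_filter.mpr ⟨hm, hz, ha⟩⟩
    · rintro ⟨y, hy, hm⟩
      rw [mem_filter] at hy hm
      exact ⟨⟨hm.1, y, hy.1, hm.2.2, hy.2⟩, hm.2.1⟩
  unfold dj
  rw [h1, card_biUnion]
  · rfl
  · intro x hx y hy hne
    refine Finset.disjoint_of_subset_left ?_ (Finset.disjoint_of_subset_right ?_
      (disj hL hO j x hx y hy hne))
    · intro m hm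
      rw [mem_filter] at hm
      exact mem_gn.mpr ⟨hm.1, hm.2.2.symm⟩
    · intro m hm
      rw [mem_filter] at hm
      exact mem_gn.mpr ⟨hm.1, hm.2.2.symm⟩

theorem dbl (G : SimpleGraph V) (C M : Finset V) :
    ∑ z ∈ C, (gn G M z).card = ∑ m ∈ M, (gn G C m).card := by
  classical
  unfold gn
  simp only [card_filter]
  rw [sum_comm]
  refine sum_congr rfl fun m _ => sum_congr rfl fun z _ => ?_
  rw [G.adj_comm z m]

end G03

theorem t_G03 : Stmt_G03 := by
  intro V _ _ G D s U C O φ hF hO j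
  classical
  refine ⟨?_, ?_, ?_, ?_⟩
  · unfold load
    rw [G03.Mj_eq, card_biUnion]
    exact G03.disj hF.lab hO j
  · exact G03.dbl G C _
  · intro z _
    exact (G03.dj_eq hF.lab hO j z).le
  · intro z _
    exact (G03.dj_eq hF.lab hO j z).ge

end GYD

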