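import Pool.Agent.GYD.StmtsC

set_option autoImplicit false

/-!
# (I.3), the second moment
-/

namespace GYD

open Finset

namespace G05

theorem double_count {V : Type} (G : SimpleGraph V) (A B : Finset V) :
    ∑ x ∈ A, (gn G B x).card = ∑ m ∈ B, (gn G A m).card := by
  classical
  unfold gn
  simp only [card_filter]
  rw [sum_comm]
  refine sum_congr rfl fun m _ => sum_congr rfl fun x _ => ?_
  simp only [G.adj_comm]

end G05

open G05 in
theorem t_G05 (hD04 : Stmt_D04) (hD05 : Stmt_D05) (hD06 : Stmt_D06) (hG04 : Stmt_G04) :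
    Stmt_G05 := by
  intro V _ _ G D s e U C φ hF ho
  classical
  have hB : Base G D s U C := hF.toBase
  have hD : 0 < D := lt_of_lt_of_le (by norm_num) hB.big
  obtain ⟨L, hL⟩ : ∃ L, L = (univ \ C).filter (fun x => D ≤ 2 * (gn G C x).card) := ⟨_, rfl⟩
  have hLs : L ⊆ univ \ C := by
    rw [hL]
    exact filter_subset _ _
  have hxo : ∀ v, (gn G L v).card ≤ (gn G (univ \ C) v).card := fun v =>
    card_le_card (gn_mono G hLs v)
  -- the sum of the x
  have hsx : ∑ v ∈ C, (gn G L v).card ≤ e * D ^ 2 :=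
    le_trans (sum_le_sum fun v _ => hxo v) ho
  -- the number of lines
  have hLc : L.card ≤ 2 * e * D := by
    have h1 : ∑ x ∈ L, D ≤ ∑ x ∈ L, 2 * (gn G C x).card := by
      refine sum_le_sum fun x hx => ?_
      rw [hL, mem_filter] at hx
      exact hx.2
    rw [sum_const, smul_eq_mul, ← mul_sum, double_count] at h1
    have h2 : L.card * D ≤ (2 * e * D) * D := by
      calc L.card * D ≤ 2 * ∑ v ∈ C, (gn G L v).card := h1
        _ ≤ 2 * (e * D ^ 2) := Nat.mul_le_mul_left _ hsx
        _ = (2 * e * D) * D := by ring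
    exact Nat.le_of_mul_le_mul_right h2 hD
  -- o ≤ x + 144
  have hox : ∀ v ∈ C, (gn G (univ \ C) v).card ≤ (gn G L v).card + 144 := by
    intro v hv
    have h1 := (hD04 V G D s U C hB v hv).2.2.1
    have h2 : gn G (univ \ C) v ⊆ gn G L v ∪
        (gn G univ v).filter (fun m => 2 * (gn G C m).card < D) := by
      intro m hm
      rw [mem_gn] at hm
      rw [mem_union]
      by_cases h : D ≤ 2 * (gn G C m).card
      · left
        rw [mem_gn, hL, mem_filter]
        exact ⟨⟨hm.1, h⟩, hm.2⟩
      · right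
        rw [mem_filter, mem_gn]
        exact ⟨⟨mem_univ _, hm.2⟩, not_le.1 h⟩
    calc (gn G (univ \ C) v).card ≤ _ := card_le_card h2
      _ ≤ (gn G L v).card + ((gn G univ v).filter (fun m => 2 * (gn G C m).card < D)).card :=
        card_union_le _ _
      _ ≤ _ := by
        refine Nat.add_le_add_left (le_trans (le_of_eq ?_) h1) _
        congr
  -- the slack
  have hsl : ∀ v ∈ C, slk G D U v ≤ 2 * (gn G (univ \ C) v).card + dfc G D C (U \ C) φ v := by
    intro v hv
    have h1 := hD05 V G D s U C φ hF v hv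
    have h2 := (hD06 V G D U C φ).2 v
    omega
  have hxD : ∀ v, (gn G L v).card ≤ D := fun v =>
    le_trans (card_le_card (gn_mono G (subset_univ _) v)) (hB.deg v)
  have hdf := (hD06 V G D U C φ).1
  have hG := hG04 V G D s U C L hB hLs
  -- the sum with the slack
  have h1 : ∑ v ∈ C, (gn G L v).card * slk G D U v ≤
      2 * ∑ v ∈ C, (gn G L v).card ^ 2 + 288 * ∑ v ∈ C, (gn G L v).card +
        D * TT G D C (U \ C) φ := by
    rw [← hdf, mul_sum, mul_sum, mul_sum, ← sum_add_distrib, ← sum_add_distrib]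
    refine sum_le_sum fun v hv => ?_
    have h2 := hsl v hv
    have h3 := hox v hv
    have h4 := hxD v
    calc (gn G L v).card * slk G D U v
        ≤ (gn G L v).card * (2 * ((gn G L v).card + 144) + dfc G D C (U \ C) φ v) :=
          Nat.mul_le_mul_left _ (by omega)
      _ = 2 * (gn G L v).card ^ 2 + 288 * (gn G L v).card
          + (gn G L v).card * dfc G D C (U \ C) φ v := by ring
      _ ≤ _ := Nat.add_le_add_left (Nat.mul_le_mul_right _ h4) _
  -- the sum of the squares
  have h2 : ∑ v ∈ C, (gn G (univ \ C) v).card ^ 2 ≤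
      ∑ v ∈ C, (gn G L v).card ^ 2 + 288 * ∑ v ∈ C, (gn G L v).card + 20736 * C.card := by
    have h3 : 20736 * C.card = ∑ _v ∈ C, 20736 := by
      rw [sum_const, smul_eq_mul, mul_comm]
    rw [h3, mul_sum, ← sum_add_distrib, ← sum_add_distrib]
    refine sum_le_sum fun v hv => ?_
    have h4 := hox v hv
    calc (gn G (univ \ C) v).card ^ 2 ≤ ((gn G L v).card + 144) ^ 2 :=
          Nat.pow_le_pow_left h4 2
      _ = _ := by ring
  have hC : C.card ≤ D ^ 2 + 1 := by
    have := hB.cards
    omega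
  have hL2 : 9 * L.card ^ 2 ≤ 36 * e ^ 2 * D ^ 2 := by
    calc 9 * L.card ^ 2 ≤ 9 * (2 * e * D) ^ 2 :=
          Nat.mul_le_mul_left _ (Nat.pow_le_pow_left hLc 2)
      _ = _ := by ring
  nlinarith

end GYD
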