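import Pool.Agent.GYD.StmtsC

set_option autoImplicit false

/-!
# (I.3'): the bootstrap
-/

namespace GYD

open Finset

namespace G06

/-- double counting -/
theorem dc {V : Type} [Fintype V] [DecidableEq V] (G : SimpleGraph V) (C : Finset V) (f : V → ℕ) :
    ∑ v ∈ C, ∑ m ∈ gn G C v, f m = ∑ m ∈ C, (gn G C m).card * f m := by
  rw [Finset.sum_comm' (s' := fun m => gn G C m) (t' := C)]
  · refine Finset.sum_congr rfl fun m _ => ?_
    rw [Finset.sum_const, smul_eq_mul]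
  · intro v m
    rw [mem_gn, mem_gn, G.adj_comm]
    tauto

end G06

theorem t_G06 (hD03 : Stmt_D03) (hD04 : Stmt_D04) (hD06 : Stmt_D06) (hD07 : Stmt_D07)
    (hG05 : Stmt_G05) : Stmt_G06 := by
  intro V _ _ G D s U C φ hF hSO
  classical
  have hB : Base G D s U C := hF.toBase
  have hD : 10 ^ 8 ≤ D := hB.big
  have ha : ∑ v ∈ C, (gn G (U \ C) v).card ≤ ∑ v ∈ C, (gn G (univ \ C) v).card :=
    Finset.sum_le_sum fun v _ => (hD06 V G D U C φ).2 v
  obtain ⟨-, hT217⟩ := ((hD07 V G D s U C φ hF).2 217 (by omega) (ha.trans hSO)) (by norm_num)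
  have hS2 := hG05 V G D s 217 U C φ hF hSO
  -- the sum over the clique
  have h1 : ∑ m ∈ C, (gn G C m).card * (gn G (univ \ C) m).card ≤ s * C.card := by
    rw [← G06.dc G C (fun m => (gn G (univ \ C) m).card)]
    calc ∑ v ∈ C, ∑ m ∈ gn G C v, (gn G (univ \ C) m).card ≤ ∑ _v ∈ C, s :=
          Finset.sum_le_sum fun v hv => (hD03 V G D s U C hB v hv).2.2
      _ = s * C.card := by rw [Finset.sum_const, smul_eq_mul, mul_comm]
  have h2 : D * ∑ v ∈ C, (gn G (univ \ C) v).card ≤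
      ∑ m ∈ C, (gn G C m).card * (gn G (univ \ C) m).card +
        ∑ v ∈ C, (gn G (univ \ C) v).card ^ 2 + 72 * ∑ v ∈ C, (gn G (univ \ C) v).card := by
    rw [Finset.mul_sum, Finset.mul_sum, ← Finset.sum_add_distrib, ← Finset.sum_add_distrib]
    refine Finset.sum_le_sum fun v hv => ?_
    have h := (hD04 V G D s U C hB v hv).2.2.2
    nlinarith
  have hc : C.card ≤ D ^ 2 + 1 := by
    have := hB.cards
    omega
  have h3 : s * C.card ≤ 72 * D * (D ^ 2 + 1) := Nat.mul_le_mul hB.s_le hc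
  have hSO73 : ∑ v ∈ C, (gn G (univ \ C) v).card ≤ 73 * D ^ 2 := by
    by_contra hlt
    push Not at hlt
    have h4 : D * (73 * D ^ 2) < D * ∑ v ∈ C, (gn G (univ \ C) v).card :=
      Nat.mul_lt_mul_of_pos_left hlt (by omega)
    have h5 : D * TT G D C (U \ C) φ ≤ D * ((2 * 217 + 1) * (324 * D)) :=
      Nat.mul_le_mul_left D hT217
    have h6 : D * D ^ 2 ≥ 10 ^ 8 * D ^ 2 := Nat.mul_le_mul_right _ hD
    have h7 : D ^ 2 ≥ 10 ^ 8 * D := by
      rw [pow_two]
      exact Nat.mul_le_mul_right _ hD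
    nlinarith
  obtain ⟨hJ, hT⟩ := ((hD07 V G D s U C φ hF).2 73 (by omega) (ha.trans hSO73)) (by norm_num)
  have hS3 := hG05 V G D s 73 U C φ hF hSO73
  refine ⟨hSO73, by omega, by omega, ?_⟩
  have h5 : D * TT G D C (U \ C) φ ≤ D * ((2 * 73 + 1) * (324 * D)) :=
    Nat.mul_le_mul_left D hT
  have h7 : D ^ 2 ≥ 10 ^ 8 * D := by
    rw [pow_two]
    exact Nat.mul_le_mul_right _ hD
  nlinarith

end GYD
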