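import Pool.Agent.GYD.StmtsB
import Pool.Agent.GYD.StmtsC

set_option autoImplicit false

/-! # G07: the sizes of the sets `M_j` -/

namespace GYD

open Finset

namespace G07

theorem num {N D : ℕ} (hD : 10 ^ 8 ≤ D) (h : N * D ≤ 219 * D ^ 2 + 47628 * D + 72 * N) :
    N ≤ 222 * D := by
  by_contra hcon
  push Not at hcon
  obtain ⟨e, rfl⟩ := Nat.exists_eq_add_of_le (le_trans (by norm_num : 72 ≤ 10 ^ 8) hD)
  have h1 : N * e ≤ 219 * (72 + e) ^ 2 + 47628 * (72 + e) := by nlinarith
  have h2 : (222 * (72 + e)) * e ≤ N * e := Nat.mul_le_mul_right e hcon.le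
  have h3 : 10 ^ 8 ≤ 72 + e := hD
  nlinarith

end G07

theorem t_G07 (hD04 : Stmt_D04) (hD06 : Stmt_D06) (hG01 : Stmt_G01) (hG03 : Stmt_G03) :
    Stmt_G07 := by
  classical
  intro V _ _ G D s U C O φ hF hN hO j
  by_cases hj : j ≤ D ^ 2
  · have hD := hF.toBase.big
    have hMC : Mj G C O φ j ⊆ C := fun m hm => (mem_Mj.mp hm).1
    have h1 : ∀ z ∈ C, dj G C O φ z j ≤ 2 * (gn G (U \ C) z).card +
        dfc G D C (U \ C) φ z := by
      intro z hz
      have h2 := hG01 V G D s U C O φ hF hO z hz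
      by_cases hJ : j ∈ JJ G D C (U \ C) φ
      · have h3 : dj G C O φ z j - 1 ≤ ∑ j ∈ JJ G D C (U \ C) φ, (dj G C O φ z j - 1) :=
          Finset.single_le_sum (f := fun j => dj G C O φ z j - 1)
            (fun _ _ => Nat.zero_le _) hJ
        omega
      · have h3 : dj G C O φ z j ≤ ∑ j ∈ range (D ^ 2 + 1) \ JJ G D C (U \ C) φ,
            dj G C O φ z j :=
          Finset.single_le_sum (f := fun j => dj G C O φ z j)
            (fun _ _ => Nat.zero_le _)
            (mem_sdiff.mpr ⟨mem_range.mpr (Nat.lt_succ_of_le hj), hJ⟩)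
        omega
    have h2 : ∑ z ∈ C, dj G C O φ z j ≤ 146 * D ^ 2 + 47628 * D := by
      refine (Finset.sum_le_sum h1).trans ?_
      rw [Finset.sum_add_distrib, ← Finset.mul_sum]
      have h3 := (hD06 V G D U C φ).1
      rw [h3]
      have h4 : ∑ z ∈ C, (gn G (U \ C) z).card ≤ ∑ z ∈ C, (gn G (univ \ C) z).card :=
        Finset.sum_le_sum fun z _ => (hD06 V G D U C φ).2 z
      have h5 := hN.o1
      have h6 := hN.T
      omega
    have h3 : (Mj G C O φ j).card * D ≤ ∑ m ∈ Mj G C O φ j, (gn G C m).card +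
        ∑ m ∈ Mj G C O φ j, (gn G (univ \ C) m).card + 72 * (Mj G C O φ j).card := by
      have h4 : ∑ _m ∈ Mj G C O φ j, D ≤ ∑ m ∈ Mj G C O φ j,
          ((gn G C m).card + (gn G (univ \ C) m).card + 72) :=
        Finset.sum_le_sum fun m hm => (hD04 V G D s U C hF.toBase m (hMC hm)).2.2.2
      rw [Finset.sum_add_distrib, Finset.sum_add_distrib, Finset.sum_const, Finset.sum_const,
        smul_eq_mul, smul_eq_mul, mul_comm _ 72] at h4
      exact h4
    have h4 : ∑ m ∈ Mj G C O φ j, (gn G (univ \ C) m).card ≤ 73 * D ^ 2 :=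
      (Finset.sum_le_sum_of_subset hMC).trans hN.o1
    rw [← (hG03 V G D s U C O φ hF hO j).2.1] at h3
    refine G07.num hD ?_
    omega
  · have h1 : Mj G C O φ j = ∅ := by
      rw [Finset.eq_empty_iff_forall_notMem]
      intro m hm
      obtain ⟨-, y, hy, -, rfl⟩ := mem_Mj.mp hm
      exact hj (hF.lab.le y (hO hy))
    rw [h1, Finset.card_empty]
    exact Nat.zero_le _

end GYD
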