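import Pool.Agent.GYD.StmtsB
import Pool.Agent.GYD.StmtsC

set_option autoImplicit false

/-!
# GYD G08: the number of pairs is at most 250
-/

namespace GYD

open Finset

namespace G08

variable {V : Type} [Fintype V] [DecidableEq V] {G : SimpleGraph V}
  {D s : ℕ} {U E C : Finset V} {P : Finset (V × V)} {φ : V → ℕ}

open Classical in
/-- the pairs both ends of which are joined to `v` -/
noncomputable def Av (G : SimpleGraph V) (P : Finset (V × V)) (v : V) : Finset (V × V) :=
  P.filter (fun p => HA G v p.1 ∧ HA G v p.2)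

open Classical in
/-- the pairs with label `j` -/
noncomputable def Aj (G : SimpleGraph V) (P : Finset (V × V)) (φ : V → ℕ) (v : V) (j : ℕ) :
    Finset (V × V) :=
  (Av G P v).filter (fun p => φ p.1 = j)

theorem outC (h : Full G D s U E C P φ) {p : V × V} (hp : p ∈ P) :
    p.1 ∈ U \ C ∧ p.2 ∈ U \ C := by
  have h1 := h.pairs.mem p hp
  rw [mem_sdiff, mem_sdiff, h.Cdef, mem_sdiff, mem_sdiff]
  refine ⟨⟨h.EU h1.1, ?_⟩, ⟨h.EU h1.2, ?_⟩⟩
  · rintro ⟨_, hn⟩
    exact hn (mem_pv.mpr ⟨p, hp, Or.inl rfl⟩)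
  · rintro ⟨_, hn⟩
    exact hn (mem_pv.mpr ⟨p, hp, Or.inr rfl⟩)

theorem two_le (hB03 : Stmt_B03) (h : Full G D s U E C P φ) (v : V) (j : ℕ) :
    2 * (Aj G P φ v j).card ≤ mult G (U \ C) φ v j := by
  classical
  have hsub : Aj G P φ v j ⊆ P := by
    intro p hp
    unfold Aj Av at hp
    exact (mem_filter.mp (mem_filter.mp hp).1).1
  have h1 := (hB03 V G E P h.pairs).2.2 _ hsub
  have h2 := (hB03 V G E _ h1).1
  rw [← h2]
  unfold mult
  refine le_trans (Finset.card_le_card ?_) (Nat.le_add_right _ _)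
  intro x hx
  rw [mem_pv] at hx
  obtain ⟨p, hp, hx⟩ := hx
  have hpP := hsub hp
  have ho := outC h hpP
  have hm := h.mono p hpP
  unfold Aj Av at hp
  rw [mem_filter, mem_filter] at hp
  obtain ⟨⟨_, ha1, ha2⟩, hj⟩ := hp
  rw [mem_filter, mem_hn]
  rcases hx with rfl | rfl
  · exact ⟨⟨ho.1, ha1⟩, hj⟩
  · exact ⟨⟨ho.2, ha2⟩, by rw [← hm]; exact hj⟩

theorem sum_Aj (h : Full G D s U E C P φ) (v : V) :
    (Av G P v).card = ∑ j ∈ range (D ^ 2 + 1), (Aj G P φ v j).card := by
  classical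
  unfold Aj
  apply Finset.card_eq_sum_card_fiberwise
  intro p hp
  have hpP : p ∈ P := by
    have : p ∈ Av G P v := hp
    unfold Av at this
    exact (mem_filter.mp this).1
  have h1 := h.lab.le p.1 (outC h hpP).1
  rw [Finset.mem_coe, mem_range]
  exact Nat.lt_succ_of_le h1

theorem pi_le (hB03 : Stmt_B03) (hD05 : Stmt_D05) (h : Full G D s U E C P φ) {v : V}
    (hv : v ∈ C) :
    (Av G P v).card ≤ 2 * (gn G (U \ C) v).card + dfc G D C (U \ C) φ v := by
  classical
  have h5 := hD05 V G D s U C φ h.toFail v hv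
  have hJ : JJ G D C (U \ C) φ ⊆ range (D ^ 2 + 1) := by
    unfold JJ
    exact Finset.filter_subset _ _
  have e1 := sum_Aj h v
  rw [← Finset.sum_sdiff hJ] at e1
  have e2 : ∑ j ∈ JJ G D C (U \ C) φ, (Aj G P φ v j).card
      ≤ ∑ j ∈ JJ G D C (U \ C) φ, (mult G (U \ C) φ v j - 1) := by
    apply Finset.sum_le_sum
    intro j _
    have := two_le hB03 h v j
    omega
  have e3 : ∑ j ∈ range (D ^ 2 + 1) \ JJ G D C (U \ C) φ, (Aj G P φ v j).card
      ≤ ∑ j ∈ range (D ^ 2 + 1) \ JJ G D C (U \ C) φ, mult G (U \ C) φ v j := by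
    apply Finset.sum_le_sum
    intro j _
    have := two_le hB03 h v j
    omega
  omega

theorem sum_pi (hB03 : Stmt_B03) (hD05 : Stmt_D05) (hD06 : Stmt_D06)
    (h : Full G D s U E C P φ) (hN : NumI G D s U C φ) :
    ∑ v ∈ C, (Av G P v).card ≤ 146 * D ^ 2 + 47628 * D := by
  have e1 : ∑ v ∈ C, (Av G P v).card
      ≤ ∑ v ∈ C, (2 * (gn G (univ \ C) v).card + dfc G D C (U \ C) φ v) := by
    apply Finset.sum_le_sum
    intro v hv
    have h1 := pi_le hB03 hD05 h hv
    have h2 := (hD06 V G D U C φ).2 v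
    omega
  rw [Finset.sum_add_distrib, ← Finset.mul_sum, (hD06 V G D U C φ).1] at e1
  have h1 := hN.o1
  have h2 := hN.T
  omega

theorem bad_le (h : Full G D s U E C P φ) {x : V} (hx : x ∈ E) [DecidablePred fun v => HA G v x] :
    5 * (C.filter (fun v => ¬ HA G v x)).card ≤ D ^ 2 + 400 * D := by
  classical
  refine le_trans ?_ (h.c2 x hx)
  have h1 : (C.filter (fun v => ¬ HA G v x)).card ≤ (E \ hn G E x).card := by
    apply Finset.card_le_card
    intro v hv
    rw [mem_filter, h.Cdef, mem_sdiff] at hv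
    rw [mem_sdiff, mem_hn]
    exact ⟨hv.1.1, fun h' => hv.2 h'.2.symm⟩
  have h2 : hn G E x ⊆ E := by
    unfold hn
    exact Finset.filter_subset _ _
  rw [Finset.card_sdiff_of_subset h2] at h1
  omega

theorem sum_co (h : Full G D s U E C P φ) :
    5 * ∑ v ∈ C, (P \ Av G P v).card ≤ P.card * (2 * (D ^ 2 + 400 * D)) := by
  classical
  have e1 : ∑ v ∈ C, (P \ Av G P v).card
      ≤ ∑ p ∈ P, ((C.filter (fun v => ¬ HA G v p.1)).card
          + (C.filter (fun v => ¬ HA G v p.2)).card) := by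
    have e2 : ∀ v ∈ C, (P \ Av G P v).card
        ≤ ∑ p ∈ P, ((if ¬ HA G v p.1 then 1 else 0) + (if ¬ HA G v p.2 then 1 else 0)) := by
      intro v _
      have e3 : (P \ Av G P v).card = ∑ p ∈ P, if ¬ (HA G v p.1 ∧ HA G v p.2) then 1 else 0 := by
        unfold Av
        rw [← Finset.filter_not, Finset.card_filter]
      rw [e3]
      apply Finset.sum_le_sum
      intro p _
      by_cases h1 : HA G v p.1 <;> by_cases h2 : HA G v p.2 <;> simp [h1, h2]
    refine le_trans (Finset.sum_le_sum e2) ?_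
    rw [Finset.sum_comm]
    apply Finset.sum_le_sum
    intro p _
    rw [Finset.sum_add_distrib, Finset.card_filter, Finset.card_filter]
  have e4 : ∑ p ∈ P, 5 * ((C.filter (fun v => ¬ HA G v p.1)).card
          + (C.filter (fun v => ¬ HA G v p.2)).card) ≤ ∑ _p ∈ P, 2 * (D ^ 2 + 400 * D) := by
    apply Finset.sum_le_sum
    intro p hp
    have hm := h.pairs.mem p hp
    have a1 := bad_le h hm.1
    have a2 := bad_le h hm.2
    omega
  rw [← Finset.mul_sum, Finset.sum_const, smul_eq_mul] at e4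
  omega

end G08

open G08 in
theorem t_G08 (hB03 : Stmt_B03) (hD05 : Stmt_D05) (hD06 : Stmt_D06) : Stmt_G08 := by
  intro V _ _ G D s U E C P φ h hN
  classical
  have h1 := sum_pi hB03 hD05 hD06 h hN
  have h2 := sum_co h
  have h3 : ∑ v ∈ C, (P \ Av G P v).card + ∑ v ∈ C, (Av G P v).card = C.card * P.card := by
    rw [← Finset.sum_add_distrib]
    have : ∀ v ∈ C, (P \ Av G P v).card + (Av G P v).card = P.card := by
      intro v _
      have hs : Av G P v ⊆ P := by
        unfold Av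
        exact Finset.filter_subset _ _
      exact Finset.card_sdiff_add_card_eq_card hs
    rw [Finset.sum_congr rfl this, Finset.sum_const, smul_eq_mul]
  have h4 := h.cards
  have h5 := h.s_le
  have h6 := h.big
  by_contra hc
  push Not at hc
  have h7 : 5 * (C.card * P.card) ≤ 5 * (146 * D ^ 2 + 47628 * D) + P.card * (2 * (D ^ 2 + 400 * D)) := by
    rw [← h3]
    omega
  have h8 : D ^ 2 + 1 ≤ C.card + 72 * D := by omega
  zify at h7 h8 hc h6
  generalize (C.card : ℤ) = c at *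
  generalize (P.card : ℤ) = p at *
  generalize (D : ℤ) = d at *
  nlinarith [mul_nonneg (by linarith : (0 : ℤ) ≤ p) (by linarith : (0 : ℤ) ≤ c + 72 * d - d ^ 2 - 1),
    mul_nonneg (by linarith : (0 : ℤ) ≤ p - 251) (by nlinarith : (0 : ℤ) ≤ 3 * d ^ 2 - 1160 * d)]

end GYD
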