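import Pool.Agent.GYD.StmtsB
import Pool.Agent.GYD.StmtsC

set_option autoImplicit false
set_option linter.unusedSectionVars false

/-! (I.6): the vertices of class one see few vertices of the clique. -/

namespace GYD

open Finset

namespace G09

variable {V : Type} [Fintype V] [DecidableEq V]

/-- Double counting. -/
theorem sum_hn_comm (G : SimpleGraph V) (O C : Finset V) :
    ∑ y ∈ O, (hn G C y).card = ∑ v ∈ C, (hn G O v).card := by
  classical
  have e1 : ∀ (S : Finset V) (y : V), (hn G S y).card = ∑ v ∈ S, if HA G y v then 1 else 0 := by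
    intro S y
    unfold hn
    rw [Finset.card_filter]
  simp only [e1]
  rw [Finset.sum_comm]
  apply Finset.sum_congr rfl
  intro v _
  apply Finset.sum_congr rfl
  intro y _
  by_cases h : HA G v y
  · rw [if_pos h, if_pos h.symm]
  · rw [if_neg h, if_neg (fun h' => h h'.symm)]

/-- The sum of the loads. -/
theorem sum_load (O : Finset V) (φ w : V → ℕ) (N : ℕ) (hN : ∀ y ∈ O, φ y ≤ N) :
    ∑ i ∈ range (N + 1), load O φ w i = ∑ y ∈ O, w y := by
  classical
  unfold load
  exact Finset.sum_fiberwise_of_maps_to (fun y hy => mem_range.mpr (Nat.lt_succ_of_le (hN y hy))) w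

theorem card_hn_add (G : SimpleGraph V) {S C : Finset V} (h : Disjoint S C) (x : V) :
    (hn G S x).card + (hn G C x).card ≤ (hn G univ x).card := by
  classical
  have hd : Disjoint (hn G S x) (hn G C x) := by
    rw [Finset.disjoint_left] at h ⊢
    intro a ha hb
    exact h (mem_hn.mp ha).1 (mem_hn.mp hb).1
  rw [← Finset.card_union_of_disjoint hd]
  apply Finset.card_le_card
  intro a ha
  rcases mem_union.mp ha with h' | h'
  · exact mem_hn.mpr ⟨mem_univ a, (mem_hn.mp h').2⟩
  · exact mem_hn.mpr ⟨mem_univ a, (mem_hn.mp h').2⟩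

theorem final_arith (D s c n h : ℕ) (hD : 10 ^ 8 ≤ D) (hs : s ≤ 61 * D + 501)
    (hc : c ≤ D ^ 2 + 1) (h1 : n * (D ^ 2 + 5) ≤ 5 * (s * c) + 5895 * D * n)
    (h2 : h ≤ n + 2 * D) : h ≤ 365 * D := by
  by_contra hh
  have hn : 363 * D ≤ n := by omega
  have h3 : s * c ≤ (61 * D + 501) * (D ^ 2 + 1) := Nat.mul_le_mul hs hc
  zify at *
  have hD' : (100000000 : ℤ) ≤ D := by linarith
  have h5 : (n : ℤ) * (D ^ 2 + 5 - 5895 * D) ≤ 5 * ((61 * D + 501) * (D ^ 2 + 1)) := by
    nlinarith
  have h6 : (0 : ℤ) ≤ (D : ℤ) ^ 2 + 5 - 5895 * D := by nlinarith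
  have h7 : (363 * D : ℤ) * (D ^ 2 + 5 - 5895 * D) ≤ (n : ℤ) * (D ^ 2 + 5 - 5895 * D) :=
    mul_le_mul_of_nonneg_right hn h6
  have h8 : (363 * D : ℤ) * (D ^ 2 + 5 - 5895 * D) ≤ 5 * ((61 * D + 501) * (D ^ 2 + 1)) :=
    h7.trans h5
  have h9 : (D : ℤ) ^ 2 * (58 * D) ≤ (D : ℤ) ^ 2 * 2142390 + 2505 := by nlinarith
  have h10 : (D : ℤ) ^ 2 * (58 * 100000000) ≤ (D : ℤ) ^ 2 * (58 * D) := by
    apply mul_le_mul_of_nonneg_left _ (by positivity)
    linarith
  have h11 : (1 : ℤ) ≤ (D : ℤ) ^ 2 := by nlinarith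
  nlinarith

end G09

open G09 in
theorem t_G09 (hB03 : Stmt_B03) (hC01 : Stmt_C01) (hD01 : Stmt_D01) (hD10 : Stmt_D10)
    (hG07 : Stmt_G07) : Stmt_G09 := by
  classical
  intro V _ _ G D s U E C P φ hF hN hP hM x hx
  have hbase : Base G D s U C := hF.toFail.toBase
  -- unpack the membership
  have hx' := hx
  unfold cl1 at hx'
  rw [mem_filter, mem_sdiff] at hx'
  obtain ⟨⟨hxU, hxE⟩, hxJ, hxP⟩ := hx'
  have hCE : C ⊆ E := by rw [hF.Cdef]; exact sdiff_subset
  have hxC : x ∉ C := fun h => hxE (hCE h)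
  have hxS : x ∈ U \ C := mem_sdiff.mpr ⟨hxU, hxC⟩
  have hOS : U \ E ⊆ U \ C := sdiff_subset_sdiff (Subset.refl U) hCE
  obtain ⟨hjD, hFF⟩ := mem_JJ.mp hxJ
  -- the cover of the clique
  have hcov : C ⊆ FF G C (U \ C) φ (φ x) ∪ (((U \ E).filter (fun y => φ y = φ x)).biUnion
      (fun u => hn G C u) ∪ (Mj G C (U \ E) φ (φ x + 1) ∪ (Mj G C (U \ E) φ (φ x - 1) ∪
        (pv P).biUnion (fun u => gn G C u)))) := by
    intro v hv
    by_cases h0 : mult G (U \ C) φ v (φ x) = 0
    · exact mem_union_left _ (mem_FF.mpr ⟨hv, h0⟩)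
    · apply mem_union_right
      have hsplit : ∀ u ∈ U \ C, u ∈ U \ E ∨ u ∈ pv P := by
        intro u hu
        rw [mem_sdiff] at hu
        by_cases huE : u ∈ E
        · right
          by_contra huP
          apply hu.2
          rw [hF.Cdef]
          exact mem_sdiff.mpr ⟨huE, huP⟩
        · left
          exact mem_sdiff.mpr ⟨hu.1, huE⟩
      rcases mult_pos_iff.mp (Nat.pos_of_ne_zero h0) with ⟨u, hu, hHA, hφ⟩ | ⟨u, hu, hadj, hφ⟩
      · rcases hsplit u hu with h | h
        · apply mem_union_left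
          rw [mem_biUnion]
          exact ⟨u, mem_filter.mpr ⟨h, hφ⟩, mem_hn.mpr ⟨hv, hHA.symm⟩⟩
        · exact absurd (mem_image.mpr ⟨u, h, hφ⟩) hxP
      · apply mem_union_right
        rcases hsplit u hu with h | h
        · rcases hφ with hφ | hφ
          · apply mem_union_left
            exact mem_Mj.mpr ⟨hv, u, h, hadj, hφ⟩
          · apply mem_union_right
            apply mem_union_left
            exact mem_Mj.mpr ⟨hv, u, h, hadj, by omega⟩
        · apply mem_union_right
          apply mem_union_right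
          rw [mem_biUnion]
          exact ⟨u, h, mem_gn.mpr ⟨hv, hadj.symm⟩⟩
  have hC1 : C.card ≤ 83 * D + (load (U \ E) φ (fun y => (hn G C y).card) (φ x) +
      (222 * D + (222 * D + 500 * D))) := by
    refine (card_le_card hcov).trans ((card_union_le _ _).trans (add_le_add hFF ?_))
    refine (card_union_le _ _).trans (add_le_add ?_ ?_)
    · exact card_biUnion_le
    · refine (card_union_le _ _).trans (add_le_add (hG07 V G D s U C (U \ E) φ hF.toFail hN hOS _) ?_)
      refine (card_union_le _ _).trans (add_le_add (hG07 V G D s U C (U \ E) φ hF.toFail hN hOS _) ?_)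
      refine card_biUnion_le.trans ?_
      have h1 : ∑ u ∈ pv P, (gn G C u).card ≤ ∑ u ∈ pv P, D := by
        apply Finset.sum_le_sum
        intro u _
        exact (card_le_card (gn_mono G (subset_univ C) u)).trans (hbase.deg u)
      refine h1.trans ?_
      rw [sum_const, smul_eq_mul, (hB03 V G E P hF.pairs).1]
      exact Nat.mul_le_mul_right D (by omega)
  -- trivial case
  rcases Nat.eq_zero_or_pos (hn G C x).card with h0 | hpos
  · rw [h0]; exact Nat.zero_le _
  -- free labels
  have hc3 : 5 * (hn G C x).card ≤ 4 * D ^ 2 + 400 * D :=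
    (Nat.mul_le_mul_left 5 (card_le_card (hn_mono G hCE x))).trans (hF.c3 x hxU hxE)
  have hcards := hbase.cards
  have hsle := hbase.s_le
  have hfree : ∀ i ∈ (range (D ^ 2 + 1)).filter (fun i => i ≠ φ x ∧ Free G (U \ C) φ x i),
      D ^ 2 + 5 ≤ 5 * load (U \ E) φ (fun y => (hn G C y).card) i + 5895 * D := by
    intro i hi
    rw [mem_filter, mem_range] at hi
    have := hM x (mem_sdiff.mpr ⟨hxU, hxE⟩) i (Nat.lt_succ_iff.mp hi.1) hi.2.1 hi.2.2 hpos
    simp only at this
    omega
  have hsum : ∑ i ∈ range (D ^ 2 + 1), load (U \ E) φ (fun y => (hn G C y).card) i ≤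
      s * C.card := by
    rw [sum_load (U \ E) φ _ (D ^ 2) (fun y hy => hF.lab.le y (hOS hy)), sum_hn_comm]
    have h1 : ∑ v ∈ C, (hn G (U \ E) v).card ≤ ∑ v ∈ C, s := by
      apply Finset.sum_le_sum
      intro v hv
      have h2 := (hC01 V G D s U C φ hbase hF.lab v hv).1
      have h3 := card_le_card (hn_mono G hOS v)
      omega
    refine h1.trans ?_
    rw [sum_const, smul_eq_mul, Nat.mul_comm]
  have hnf : ((range (D ^ 2 + 1)).filter (fun i => i ≠ φ x ∧ Free G (U \ C) φ x i)).card *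
      (D ^ 2 + 5) ≤ 5 * (s * C.card) + 5895 * D *
      ((range (D ^ 2 + 1)).filter (fun i => i ≠ φ x ∧ Free G (U \ C) φ x i)).card := by
    have h1 := Finset.sum_le_sum hfree
    rw [sum_const, smul_eq_mul, Finset.sum_add_distrib, sum_const, smul_eq_mul,
      ← Finset.mul_sum] at h1
    have h2 : ∑ i ∈ (range (D ^ 2 + 1)).filter (fun i => i ≠ φ x ∧ Free G (U \ C) φ x i),
        load (U \ E) φ (fun y => (hn G C y).card) i ≤ s * C.card :=
      (Finset.sum_le_sum_of_subset (filter_subset _ _)).trans hsum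
    calc _ ≤ _ := h1
      _ ≤ 5 * (s * C.card) + _ := Nat.add_le_add_right (Nat.mul_le_mul_left 5 h2) _
      _ = _ := by rw [Nat.mul_comm (5895 * D)]
  have hfin : (hn G C x).card ≤
      ((range (D ^ 2 + 1)).filter (fun i => i ≠ φ x ∧ Free G (U \ C) φ x i)).card + 2 * D := by
    have h1 := hD10 V G D (U \ C) φ x hbase.deg hxS
    have h2 : ((hn G (U \ C) x).image φ).card ≤ (hn G (U \ C) x).card := card_image_le
    have h3 := card_hn_add G (Finset.sdiff_disjoint : Disjoint (U \ C) C) x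
    have h4 := (hD01 V G D hbase.deg x).2
    omega
  have hs' : s ≤ 61 * D + 501 := by
    have := hF.s_ref
    omega
  exact final_arith D s C.card _ _ hbase.big hs' (by omega) hnf hfin

end GYD
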