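import Pool.Agent.GYD.StmtsB
import Pool.Agent.GYD.StmtsC

set_option autoImplicit false

/-!
# Module GYD_G10: walks from an outside vertex into the clique
-/

open Finset

namespace GYD

namespace G10

variable {V : Type} [Fintype V] [DecidableEq V]

theorem arith (n : ℕ) : n ≤ 1 + n * (n - 1) := by
  rcases n with _ | _ | n
  · simp
  · simp
  · have h : n + 1 + 1 ≤ 1 + (n + 1 + 1) * (n + 1) := by nlinarith
    simpa using h

open Classical in
theorem cp_eq (G : SimpleGraph V) (C : Finset V) (x z : V) :
    cp G C x z = ((gn G C x).filter (fun v => G.Adj v z)).card := by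
  unfold cp gn
  rw [Finset.filter_filter]

open Classical in
theorem sum_cp (G : SimpleGraph V) (C : Finset V) (x : V) :
    ∑ v ∈ gn G C x, (gn G C v).card = ∑ z ∈ C, cp G C x z := by
  have h1 : ∀ v, (gn G C v).card = ∑ z ∈ C, if G.Adj v z then 1 else 0 := by
    intro v
    unfold gn
    rw [Finset.card_filter]
  have h2 : ∀ z, cp G C x z = ∑ v ∈ gn G C x, if G.Adj v z then 1 else 0 := by
    intro z
    rw [cp_eq, Finset.card_filter]
  rw [Finset.sum_congr rfl fun v _ => h1 v, Finset.sum_congr rfl fun z _ => h2 z,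
    Finset.sum_comm]

open Classical in
theorem cp_mul (G : SimpleGraph V) (C : Finset V) (x z : V) :
    cp G C x z * (cp G C x z - 1) = ∑ v ∈ gn G C x, ∑ v' ∈ (gn G C x).erase v,
      if G.Adj v z ∧ G.Adj v' z then 1 else 0 := by
  have h1 : ∀ v ∈ gn G C x, (∑ v' ∈ (gn G C x).erase v,
      if G.Adj v z ∧ G.Adj v' z then 1 else 0) =
        if G.Adj v z then cp G C x z - 1 else 0 := by
    intro v hv
    by_cases h : G.Adj v z
    · rw [if_pos h, cp_eq]
      have h3 : v ∈ (gn G C x).filter (fun v => G.Adj v z) := Finset.mem_filter.2 ⟨hv, h⟩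
      rw [← Finset.card_erase_of_mem h3, ← Finset.card_filter]
      congr 1
      ext w
      simp only [Finset.mem_filter, Finset.mem_erase, h, true_and]
      tauto
    · rw [if_neg h]
      apply Finset.sum_eq_zero
      intro w _
      rw [if_neg fun h' => h h'.1]
  rw [Finset.sum_congr rfl h1, ← Finset.sum_filter, Finset.sum_const, smul_eq_mul, ← cp_eq]

open Classical in
theorem sum_cp_mul (G : SimpleGraph V) (C : Finset V) (x : V) :
    ∑ z ∈ C, cp G C x z * (cp G C x z - 1) =
      ∑ v ∈ gn G C x, ∑ v' ∈ (gn G C x).erase v, cp G C v v' := by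
  rw [Finset.sum_congr rfl fun z _ => cp_mul G C x z, Finset.sum_comm]
  apply Finset.sum_congr rfl
  intro v _
  rw [Finset.sum_comm]
  apply Finset.sum_congr rfl
  intro v' _
  unfold cp
  rw [Finset.card_filter]
  apply Finset.sum_congr rfl
  intro z _
  simp only [G.adj_comm v' z]

theorem cp_lt (G : SimpleGraph V) (C : Finset V) (x v v' : V) (hx : x ∉ C) (h : G.Adj x v)
    (h' : G.Adj x v') : cp G C v v' ≤ cdg G v v' - 1 := by
  classical
  have hlt : cp G C v v' < cdg G v v' := by
    unfold cp cdg
    apply Finset.card_lt_card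
    rw [Finset.ssubset_iff_of_subset (Finset.filter_subset_filter _ (Finset.subset_univ _))]
    refine ⟨x, Finset.mem_filter.2 ⟨Finset.mem_univ _, h.symm, h'⟩, ?_⟩
    intro h2
    exact hx (Finset.mem_filter.1 h2).1
  omega

end G10

open G10 in
theorem t_G10 (hD02 : Stmt_D02) : Stmt_G10 := by
  intro V _ _ G D s U C hB x hx
  classical
  rw [sum_cp]
  have hsub : hn G C x ⊆ C := fun z hz => (mem_hn.1 hz).1
  have h1 : ∑ z ∈ C, cp G C x z = ∑ z ∈ hn G C x, cp G C x z := by
    symm
    apply Finset.sum_subset hsub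
    intro z hz hz'
    by_contra h0
    apply hz'
    have hpos : 0 < cp G C x z := Nat.pos_of_ne_zero h0
    unfold cp at hpos
    obtain ⟨m, hm⟩ := Finset.card_pos.1 hpos
    rw [Finset.mem_filter] at hm
    rw [mem_hn]
    refine ⟨hz, ?_, Or.inr ⟨m, hm.2.1, hm.2.2⟩⟩
    rintro rfl
    exact hx hz
  rw [h1]
  calc ∑ z ∈ hn G C x, cp G C x z
      ≤ ∑ z ∈ hn G C x, (1 + cp G C x z * (cp G C x z - 1)) :=
        Finset.sum_le_sum fun z _ => arith _
    _ = (hn G C x).card + ∑ z ∈ hn G C x, cp G C x z * (cp G C x z - 1) := by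
        rw [Finset.sum_add_distrib, Finset.sum_const, smul_eq_mul, mul_one]
    _ ≤ (hn G C x).card + ∑ z ∈ C, cp G C x z * (cp G C x z - 1) := by
        apply Nat.add_le_add_left
        exact Finset.sum_le_sum_of_subset hsub
    _ = (hn G C x).card + ∑ v ∈ gn G C x, ∑ v' ∈ (gn G C x).erase v, cp G C v v' := by
        rw [sum_cp_mul]
    _ ≤ (hn G C x).card + ∑ v ∈ gn G C x, slk G D U v := by
        apply Nat.add_le_add_left
        apply Finset.sum_le_sum
        intro v hv
        rw [mem_gn] at hv
        have h2 := hD02 V G D s U C hB v hv.1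
        have h3 : (gn G C x).erase v ⊆ hn G U v := by
          intro w hw
          rw [Finset.mem_erase, mem_gn] at hw
          rw [mem_hn]
          exact ⟨hB.CU hw.2.1, hw.1.symm, Or.inr ⟨x, hv.2.symm, hw.2.2⟩⟩
        calc ∑ v' ∈ (gn G C x).erase v, cp G C v v'
            ≤ ∑ v' ∈ (gn G C x).erase v, (cdg G v v' + ad G v v' - 1) := by
              apply Finset.sum_le_sum
              intro w hw
              rw [Finset.mem_erase, mem_gn] at hw
              have := cp_lt G C x v w hx hv.2 hw.2.2
              omega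
          _ ≤ ∑ v' ∈ hn G U v, (cdg G v v' + ad G v v' - 1) :=
              Finset.sum_le_sum_of_subset h3
          _ ≤ slk G D U v := by omega

end GYD
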