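import Pool.Agent.GYD.StmtsC

set_option autoImplicit false

/-!
# (I.7): the sum of the squares for the outside vertices with few neighbours in the clique
-/

namespace GYD

open Finset

namespace G11

variable {V : Type} [Fintype V] [DecidableEq V]

theorem dc (G : SimpleGraph V) (C X : Finset V) (F : V → ℕ) :
    ∑ x ∈ X, ∑ v ∈ gn G C x, F v = ∑ v ∈ C, (gn G X v).card * F v := by
  rw [Finset.sum_comm' (s' := fun v => gn G X v) (t' := C)]
  · refine Finset.sum_congr rfl fun v _ => ?_
    rw [Finset.sum_const, smul_eq_mul]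
  · intro x v
    rw [mem_gn, mem_gn]
    constructor
    · rintro ⟨h1, h2, h3⟩
      exact ⟨⟨h1, h3.symm⟩, h2⟩
    · rintro ⟨⟨h1, h2⟩, h3⟩
      exact ⟨h1, h3, h2.symm⟩

theorem fin (D S : ℕ) (hD : 10 ^ 8 ≤ D) (h : D * S ≤ 72 * S + 464273 * D ^ 3) :
    S ≤ 465000 * D ^ 2 := by
  by_contra hc
  push Not at hc
  obtain ⟨e, rfl⟩ : ∃ e, D = 72 + e := ⟨D - 72, by omega⟩
  have h1 : e * S ≤ 464273 * (72 + e) ^ 3 := by
    have : (72 + e) * S = 72 * S + e * S := by ring
    omega
  have h2 : e * (465000 * (72 + e) ^ 2) ≤ e * S := Nat.mul_le_mul_left _ hc.le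
  have h3 : e * 465000 * (72 + e) ^ 2 ≤ 464273 * (72 + e) * (72 + e) ^ 2 := by
    calc e * 465000 * (72 + e) ^ 2 = e * (465000 * (72 + e) ^ 2) := by ring
      _ ≤ 464273 * (72 + e) ^ 3 := h2.trans h1
      _ = 464273 * (72 + e) * (72 + e) ^ 2 := by ring
  have h4 : e * 465000 ≤ 464273 * (72 + e) := Nat.le_of_mul_le_mul_right h3 (by positivity)
  omega

end G11

theorem t_G11 (hD04 : Stmt_D04) (hD05 : Stmt_D05) (hD06 : Stmt_D06) (hG10 : Stmt_G10) :
    Stmt_G11 := by
  classical
  intro V _ _ G D s U C X φ hF hN hX hh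
  have hB : Base G D s U C := hF.toBase
  obtain ⟨hT, hoU⟩ := hD06 V G D U C φ
  have ho : ∀ v, (gn G X v).card ≤ (gn G (univ \ C) v).card := fun v =>
    card_le_card (gn_mono G hX v)
  have hoD : ∀ v, (gn G (univ \ C) v).card ≤ D := fun v =>
    (card_le_card (gn_mono G (subset_univ _) v)).trans (hB.deg v)
  have hbD : ∀ x, (gn G C x).card ≤ D := fun x =>
    (card_le_card (gn_mono G (subset_univ _) x)).trans (hB.deg x)
  have hslk : ∀ v ∈ C, slk G D U v ≤ 2 * (gn G (univ \ C) v).card + dfc G D C (U \ C) φ v := by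
    intro v hv
    have h1 := hD05 V G D s U C φ hF v hv
    have h2 := hoU v
    omega
  -- one vertex
  have hx : ∀ x ∈ X, D * (gn G C x).card ^ 2 ≤ 72 * (gn G C x).card ^ 2 +
      365 * D * (gn G C x).card +
      D * ∑ v ∈ gn G C x, ((gn G (univ \ C) v).card + slk G D U v) := by
    intro x hxX
    have hxC : x ∉ C := (mem_sdiff.1 (hX hxX)).2
    have h1 := hG10 V G D s U C hB x hxC
    have h2 : D * (gn G C x).card ≤ ∑ v ∈ gn G C x, ((gn G C v).card +
        (gn G (univ \ C) v).card + 72) := by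
      rw [mul_comm, ← smul_eq_mul]
      refine Finset.card_nsmul_le_sum _ _ _ fun v hv => ?_
      exact (hD04 V G D s U C hB v (mem_gn.1 hv).1).2.2.2
    have h3 : ∑ v ∈ gn G C x, ((gn G C v).card + (gn G (univ \ C) v).card + 72) =
        ∑ v ∈ gn G C x, (gn G C v).card + ∑ v ∈ gn G C x, (gn G (univ \ C) v).card +
          72 * (gn G C x).card := by
      rw [sum_add_distrib, sum_add_distrib, sum_const, smul_eq_mul, mul_comm 72]
    have h4 : ∑ v ∈ gn G C x, ((gn G (univ \ C) v).card + slk G D U v) =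
        ∑ v ∈ gn G C x, (gn G (univ \ C) v).card + ∑ v ∈ gn G C x, slk G D U v :=
      sum_add_distrib
    have h5 := hh x hxX
    have h6 : D * (gn G C x).card ≤ 365 * D +
        ∑ v ∈ gn G C x, ((gn G (univ \ C) v).card + slk G D U v) + 72 * (gn G C x).card := by
      omega
    have h7 := Nat.mul_le_mul_right (gn G C x).card h6
    have h8 : (∑ v ∈ gn G C x, ((gn G (univ \ C) v).card + slk G D U v)) * (gn G C x).card ≤
        D * ∑ v ∈ gn G C x, ((gn G (univ \ C) v).card + slk G D U v) := by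
      rw [mul_comm]
      exact Nat.mul_le_mul_right _ (hbD x)
    calc D * (gn G C x).card ^ 2 = D * (gn G C x).card * (gn G C x).card := by ring
      _ ≤ _ := h7
      _ = 72 * (gn G C x).card ^ 2 + 365 * D * (gn G C x).card +
          (∑ v ∈ gn G C x, ((gn G (univ \ C) v).card + slk G D U v)) * (gn G C x).card := by ring
      _ ≤ _ := Nat.add_le_add_left h8 _
  -- the sum
  have hb1 : ∑ x ∈ X, (gn G C x).card ≤ 73 * D ^ 2 := by
    have h1 := G11.dc G C X (fun _ => 1)
    simp only [sum_const, smul_eq_mul, mul_one] at h1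
    rw [h1]
    exact (sum_le_sum fun v _ => ho v).trans hN.o1
  have hb2 : ∑ x ∈ X, ∑ v ∈ gn G C x, ((gn G (univ \ C) v).card + slk G D U v) ≤
      437628 * D ^ 2 := by
    rw [G11.dc G C X]
    have h1 : ∀ v ∈ C, (gn G X v).card * ((gn G (univ \ C) v).card + slk G D U v) ≤
        3 * (gn G (univ \ C) v).card ^ 2 + D * dfc G D C (U \ C) φ v := by
      intro v hv
      have h2 := hslk v hv
      calc (gn G X v).card * ((gn G (univ \ C) v).card + slk G D U v)
          ≤ (gn G (univ \ C) v).card * ((gn G (univ \ C) v).card +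
            (2 * (gn G (univ \ C) v).card + dfc G D C (U \ C) φ v)) :=
            Nat.mul_le_mul (ho v) (Nat.add_le_add_left h2 _)
        _ = 3 * (gn G (univ \ C) v).card ^ 2 +
            (gn G (univ \ C) v).card * dfc G D C (U \ C) φ v := by ring
        _ ≤ _ := Nat.add_le_add_left (Nat.mul_le_mul_right _ (hoD v)) _
    refine (sum_le_sum h1).trans ?_
    rw [sum_add_distrib, ← mul_sum, ← mul_sum, hT]
    have h3 := hN.o2
    have h4 := Nat.mul_le_mul_left D hN.T
    have h5 : D * (47628 * D) = 47628 * D ^ 2 := by ring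
    omega
  have hS := sum_le_sum hx
  rw [sum_add_distrib, sum_add_distrib, ← mul_sum, ← mul_sum, ← mul_sum, ← mul_sum] at hS
  refine G11.fin D _ hB.big (hS.trans ?_)
  have h1 : 365 * D * ∑ x ∈ X, (gn G C x).card ≤ 365 * D * (73 * D ^ 2) :=
    Nat.mul_le_mul_left _ hb1
  have h2 := Nat.mul_le_mul_left D hb2
  have h3 : 365 * D * (73 * D ^ 2) = 26645 * D ^ 3 := by ring
  have h4 : D * (437628 * D ^ 2) = 437628 * D ^ 3 := by ring
  omega

end GYD
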