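import Pool.Agent.GYD.StmtsC

set_option autoImplicit false

/-!
# (I.8), first part: outside vertices without a label of `JJ`, and unlabelled ones
-/

namespace GYD

open Finset

namespace G12

variable {V : Type} [Fintype V] [DecidableEq V]

omit [Fintype V] [DecidableEq V] in
/-- Walks of length two from `x` through `C` to `C`. -/
theorem walks (G : SimpleGraph V) (C : Finset V) (x : V) :
    ∑ m ∈ gn G C x, (gn G C m).card = ∑ z ∈ C, cp G C z x := by
  classical
  have h1 : ∀ m, (gn G C m).card = ∑ z ∈ C, if G.Adj m z then 1 else 0 := by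
    intro m
    unfold gn
    rw [card_filter]
  have h2 : ∀ z, cp G C z x = ∑ m ∈ C, if G.Adj z m ∧ G.Adj m x then 1 else 0 := by
    intro z
    unfold cp
    rw [card_filter]
  simp only [h1, h2]
  unfold gn
  rw [sum_filter, sum_comm (s := C) (t := C)
    (f := fun z m => if G.Adj z m ∧ G.Adj m x then 1 else 0)]
  refine sum_congr rfl fun m _ => ?_
  by_cases hx : G.Adj x m
  · rw [if_pos hx]
    refine sum_congr rfl fun z _ => ?_
    by_cases hz : G.Adj m z
    · rw [if_pos hz, if_pos ⟨hz.symm, hx.symm⟩]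
    · rw [if_neg hz, if_neg (fun h => hz h.1.symm)]
  · rw [if_neg hx]
    symm
    apply sum_eq_zero
    intro z _
    rw [if_neg (fun h => hx h.2.symm)]

/-- The sum over the walks of length one. -/
theorem walks_o (G : SimpleGraph V) (C X : Finset V) (hX : ∀ x ∈ X, x ∉ C) :
    ∑ x ∈ X, ∑ m ∈ gn G C x, (gn G (univ \ C) m).card ≤
      ∑ m ∈ C, (gn G (univ \ C) m).card ^ 2 := by
  classical
  have h1 : ∑ x ∈ X, ∑ m ∈ gn G C x, (gn G (univ \ C) m).card =
      ∑ m ∈ C, (gn G X m).card * (gn G (univ \ C) m).card := by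
    have h2 : ∀ x, ∑ m ∈ gn G C x, (gn G (univ \ C) m).card =
        ∑ m ∈ C, if G.Adj x m then (gn G (univ \ C) m).card else 0 := by
      intro x
      conv_lhs => unfold gn
      rw [sum_filter]
      rfl
    simp only [h2]
    rw [sum_comm]
    refine sum_congr rfl fun m _ => ?_
    have h3 : (gn G X m).card = ∑ x ∈ X, if G.Adj m x then 1 else 0 := by
      unfold gn
      rw [card_filter]
    rw [h3, sum_mul]
    refine sum_congr rfl fun x _ => ?_
    by_cases hx : G.Adj x m
    · rw [if_pos hx, if_pos hx.symm, one_mul]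
    · rw [if_neg hx, if_neg (fun h => hx h.symm), zero_mul]
  rw [h1]
  refine sum_le_sum fun m _ => ?_
  rw [sq]
  apply Nat.mul_le_mul_right
  apply card_le_card
  apply gn_mono
  intro x hx
  exact mem_sdiff.mpr ⟨mem_univ _, hX x hx⟩

end G12

/-- (I.8), first part. -/
theorem t_G12 (hD04 : Stmt_D04) (hD06 : Stmt_D06) (hG01 : Stmt_G01) (hG03 : Stmt_G03) :
    Stmt_G12 := by
  intro V _ _ G D s U C O X φ hF hN hO hX
  classical
  have hB : Base G D s U C := hF.toBase
  have hCU := hB.CU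
  have hXC : ∀ x ∈ X, x ∉ C := by
    intro x hx hxC
    rcases hX x hx with h | ⟨h, _⟩
    · exact h (hCU hxC)
    · exact (mem_sdiff.mp (hO h)).2 hxC
  have h1 : ∀ x ∈ X, D * (gn G C x).card ≤
      ∑ m ∈ gn G C x, (gn G C m).card + ∑ m ∈ gn G C x, (gn G (univ \ C) m).card +
        72 * (gn G C x).card := by
    intro x _
    have h2 : D * (gn G C x).card ≤
        ∑ m ∈ gn G C x, ((gn G C m).card + (gn G (univ \ C) m).card + 72) := by
      rw [mul_comm, ← smul_eq_mul, ← sum_const]
      exact sum_le_sum fun m hm => (hD04 V G D s U C hB m (mem_gn.mp hm).1).2.2.2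
    rw [sum_add_distrib, sum_add_distrib, sum_const, smul_eq_mul] at h2
    omega
  have h2 : D * ∑ x ∈ X, (gn G C x).card ≤
      ∑ x ∈ X, ∑ m ∈ gn G C x, (gn G C m).card +
        ∑ x ∈ X, ∑ m ∈ gn G C x, (gn G (univ \ C) m).card +
          72 * ∑ x ∈ X, (gn G C x).card := by
    rw [mul_sum, mul_sum, ← sum_add_distrib, ← sum_add_distrib]
    exact sum_le_sum h1
  have h3 : ∑ x ∈ X, ∑ m ∈ gn G C x, (gn G (univ \ C) m).card ≤ 130000 * D ^ 2 :=
    (G12.walks_o G C X hXC).trans hN.o2
  have h4 : ∑ x ∈ X, ∑ m ∈ gn G C x, (gn G C m).card ≤ 146 * D ^ 2 + 47628 * D := by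
    simp only [G12.walks]
    rw [sum_comm]
    have h5 : ∀ z ∈ C, ∑ x ∈ X, cp G C z x ≤
        2 * (gn G (univ \ C) z).card + dfc G D C (U \ C) φ z := by
      intro z hz
      have e1 := hG01 V G D s U C O φ hF hO z hz
      have e2 := (hD06 V G D U C φ).2 z
      have e3 : ∑ x ∈ X, cp G C z x = ∑ x ∈ X.filter (fun x => x ∉ U), cp G C z x +
          ∑ x ∈ X.filter (fun x => ¬ x ∉ U), cp G C z x :=
        (sum_filter_add_sum_filter_not X _ _).symm
      have e4 : ∑ x ∈ X.filter (fun x => x ∉ U), cp G C z x ≤ ∑ x ∈ univ \ U, cp G C z x := by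
        apply sum_le_sum_of_subset
        intro x hx
        exact mem_sdiff.mpr ⟨mem_univ _, (mem_filter.mp hx).2⟩
      have e5 : ∑ x ∈ X.filter (fun x => ¬ x ∉ U), cp G C z x ≤
          ∑ j ∈ range (D ^ 2 + 1) \ JJ G D C (U \ C) φ, dj G C O φ z j := by
        have hmap : ∀ x ∈ X.filter (fun x => ¬ x ∉ U),
            φ x ∈ range (D ^ 2 + 1) \ JJ G D C (U \ C) φ := by
          intro x hx
          obtain ⟨hx1, hx2⟩ := mem_filter.mp hx
          rcases hX x hx1 with h | ⟨h, h'⟩
          · exact absurd h hx2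
          · exact mem_sdiff.mpr ⟨mem_range.mpr (Nat.lt_succ_of_le (hF.lab.le x (hO h))), h'⟩
        rw [← sum_fiberwise_of_maps_to hmap]
        refine sum_le_sum fun j _ => ?_
        refine le_trans (sum_le_sum_of_subset ?_) ((hG03 V G D s U C O φ hF hO j).2.2.2 z hz)
        intro x hx
        obtain ⟨hx1, hx2⟩ := mem_filter.mp hx
        obtain ⟨hx3, hx4⟩ := mem_filter.mp hx1
        rcases hX x hx3 with h | ⟨h, _⟩
        · exact absurd h hx4
        · exact mem_filter.mpr ⟨h, hx2⟩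
      omega
    refine (sum_le_sum h5).trans ?_
    rw [sum_add_distrib, ← mul_sum, (hD06 V G D U C φ).1]
    have := hN.o1
    have := hN.T
    omega
  have hbig := hB.big
  by_contra hcon
  push Not at hcon
  have h6 : D * ∑ x ∈ X, (gn G C x).card ≤
      146 * D ^ 2 + 47628 * D + 130000 * D ^ 2 + 72 * ∑ x ∈ X, (gn G C x).card := by omega
  generalize ∑ x ∈ X, (gn G C x).card = S at hcon h6
  obtain ⟨E, rfl⟩ : ∃ E, D = E + 72 := ⟨D - 72, by omega⟩
  have h7 : E * S ≤ 130146 * (E + 72) ^ 2 + 47628 * (E + 72) := by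
    have e : (E + 72) * S = E * S + 72 * S := by ring
    omega
  have h8 : E * (131000 * (E + 72)) ≤ E * S := Nat.mul_le_mul_left _ hcon.le
  have h9 : 10 ^ 8 ≤ E + 72 := hbig
  nlinarith [h7, h8, h9]

end GYD
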