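import Pool.Agent.GYD.StmtsB
import Pool.Agent.GYD.StmtsC

/-!
# G13: the vertices of class two (helper83)
-/

set_option autoImplicit false

namespace GYD

open Finset

theorem t_G13 (hB03 : Stmt_B03) (hG07 : Stmt_G07) (hG12 : Stmt_G12) (hG03 : Stmt_G03) :
    Stmt_G13 := by
  classical
  intro V _ _ G D s U E C P φ hF hN hP
  have hfail : Fail G D s U C φ := hF.toFail
  have hCE : C ⊆ E := by
    rw [hF.Cdef]
    exact sdiff_subset
  have hO : U \ E ⊆ U \ C := sdiff_subset_sdiff (Subset.refl U) hCE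
  set b : V → ℕ := fun x => (gn G C x).card with hb
  set L : Finset ℕ := (pv P).image φ with hL
  set X : Finset V := univ.filter
    (fun x => x ∉ U ∨ (x ∈ U \ E ∧ φ x ∉ JJ G D C (U \ C) φ)) with hX
  set Y : Finset V := (U \ E).filter (fun x => φ x ∈ L) with hY
  -- the cover
  have hcov : cl2 G D U E C P φ ⊆ X ∪ (pv P ∪ Y) := by
    intro x hx
    rw [cl2, mem_sdiff, mem_sdiff] at hx
    obtain ⟨⟨-, hxC⟩, hx1⟩ := hx
    by_cases hxU : x ∈ U
    · by_cases hxE : x ∈ E
      · have hxP : x ∈ pv P := by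
          by_contra hn
          apply hxC
          rw [hF.Cdef, mem_sdiff]
          exact ⟨hxE, hn⟩
        exact mem_union_right _ (mem_union_left _ hxP)
      · have hxUE : x ∈ U \ E := mem_sdiff.mpr ⟨hxU, hxE⟩
        by_cases hJ : φ x ∈ JJ G D C (U \ C) φ
        · have hxL : φ x ∈ L := by
            by_contra hn
            apply hx1
            rw [cl1, mem_filter]
            exact ⟨hxUE, hJ, hn⟩
          exact mem_union_right _ (mem_union_right _ (mem_filter.mpr ⟨hxUE, hxL⟩))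
        · exact mem_union_left _ (mem_filter.mpr ⟨mem_univ _, Or.inr ⟨hxUE, hJ⟩⟩)
    · exact mem_union_left _ (mem_filter.mpr ⟨mem_univ _, Or.inl hxU⟩)
  -- the three sums
  have h1 : ∑ x ∈ X, b x ≤ 131000 * D :=
    hG12 V G D s U C (U \ E) X φ hfail hN hO (fun x hx => (mem_filter.mp hx).2)
  have h2 : ∑ x ∈ pv P, b x ≤ 500 * D := by
    have hd : ∀ x ∈ pv P, b x ≤ D := fun x _ =>
      (card_le_card (gn_mono G (subset_univ C) x)).trans (hF.deg x)
    have hc : (pv P).card ≤ 500 := by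
      rw [(hB03 V G E P hF.pairs).1]
      omega
    calc ∑ x ∈ pv P, b x ≤ (pv P).card • D := sum_le_card_nsmul _ _ _ hd
      _ = (pv P).card * D := by rw [smul_eq_mul]
      _ ≤ 500 * D := Nat.mul_le_mul_right D hc
  have hLc : L.card ≤ 250 := by
    have hs : L ⊆ P.image (fun p => φ p.1) := by
      intro j hj
      obtain ⟨x, hx, rfl⟩ := mem_image.mp hj
      obtain ⟨p, hp, rfl | rfl⟩ := mem_pv.mp hx
      · exact mem_image.mpr ⟨p, hp, rfl⟩
      · exact mem_image.mpr ⟨p, hp, hF.mono p hp⟩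
    exact ((card_le_card hs).trans card_image_le).trans hP
  have h3 : ∑ x ∈ Y, b x ≤ 250 * (222 * D) := by
    have e1 : ∑ x ∈ Y, b x = ∑ j ∈ L, ∑ x ∈ Y.filter (fun x => φ x = j), b x :=
      (sum_fiberwise_of_maps_to (fun x hx => (mem_filter.mp hx).2) b).symm
    have e2 : ∀ j ∈ L, ∑ x ∈ Y.filter (fun x => φ x = j), b x ≤ 222 * D := by
      intro j _
      have e3 : ∑ x ∈ Y.filter (fun x => φ x = j), b x
          ≤ ∑ x ∈ (U \ E).filter (fun x => φ x = j), b x := by
        refine sum_le_sum_of_subset ?_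
        intro x hx
        rw [mem_filter] at hx ⊢
        exact ⟨(mem_filter.mp hx.1).1, hx.2⟩
      have e4 := (hG03 V G D s U C (U \ E) φ hfail hO j).1
      have e5 := hG07 V G D s U C (U \ E) φ hfail hN hO j
      rw [e4, load] at e5
      exact e3.trans e5
    calc ∑ x ∈ Y, b x ≤ L.card • (222 * D) := by
          rw [e1]
          exact sum_le_card_nsmul _ _ _ e2
      _ = L.card * (222 * D) := by rw [smul_eq_mul]
      _ ≤ 250 * (222 * D) := Nat.mul_le_mul_right _ hLc
  have hu : ∀ A B : Finset V, ∑ x ∈ A ∪ B, b x ≤ ∑ x ∈ A, b x + ∑ x ∈ B, b x := by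
    intro A B
    have h := sum_union_inter (s₁ := A) (s₂ := B) (f := b)
    omega
  have h4 : ∑ x ∈ cl2 G D U E C P φ, b x ≤ ∑ x ∈ X ∪ (pv P ∪ Y), b x :=
    sum_le_sum_of_subset hcov
  have h5 := hu X (pv P ∪ Y)
  have h6 := hu (pv P) Y
  show ∑ x ∈ cl2 G D U E C P φ, b x ≤ 188000 * D
  omega

end GYD
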