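import Pool.Agent.GYD.StmtsC

set_option autoImplicit false

/-!
# G14: nearly every vertex of the clique has a neighbour of class one
-/

namespace GYD

open Finset

namespace G14

variable {V : Type} [Fintype V] [DecidableEq V]

/-- double counting of the edges between two sets -/
theorem sum_gn (G : SimpleGraph V) (A B : Finset V) :
    ∑ m ∈ A, (gn G B m).card = ∑ x ∈ B, (gn G A x).card := by
  classical
  have h1 : ∀ (S : Finset V) (v : V), (gn G S v).card = ∑ u ∈ S, if G.Adj v u then 1 else 0 := by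
    intro S v
    have : gn G S v = S.filter (fun u => G.Adj v u) := by
      ext u
      rw [mem_gn, mem_filter]
    rw [this, card_filter]
  simp only [h1]
  rw [sum_comm]
  refine sum_congr rfl fun x _ => sum_congr rfl fun m _ => ?_
  simp only [G.adj_comm m x]

end G14

open G14 in
/-- nearly every vertex of the clique has a neighbour of class one -/
theorem t_G14 (hD05 : Stmt_D05) (hD06 : Stmt_D06) : Stmt_G14 := by
  classical
  intro V _ _ G D s U E C P φ h
  refine ⟨C.filter (fun m => ∃ x ∈ cl1 G D U E C P φ, G.Adj m x), filter_subset _ _,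
    fun m hm => (mem_filter.mp hm).2, ?_⟩
  have h1 : (C.filter (fun m => ∃ x ∈ cl1 G D U E C P φ, G.Adj m x)).card +
      (C.filter (fun m => ¬ ∃ x ∈ cl1 G D U E C P φ, G.Adj m x)).card = C.card :=
    card_filter_add_card_filter_not _
  have h2 : (C.filter (fun m => ¬ ∃ x ∈ cl1 G D U E C P φ, G.Adj m x)).card ≤
      ∑ m ∈ C.filter (fun m => ¬ ∃ x ∈ cl1 G D U E C P φ, G.Adj m x),
        (dfc G D C (U \ C) φ m + (gn G (cl2 G D U E C P φ) m).card) := by
    rw [card_eq_sum_ones]
    refine sum_le_sum fun m hm => ?_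
    rw [mem_filter] at hm
    have h3 := hD05 V G D s U C φ h.toFail m hm.1
    by_cases h4 : dfc G D C (U \ C) φ m = 0
    · have h5 : 0 < (gn G (U \ C) m).card := by omega
      obtain ⟨x, hx⟩ := card_pos.mp h5
      rw [mem_gn, mem_sdiff] at hx
      have h6 : x ∈ gn G (cl2 G D U E C P φ) m := by
        rw [mem_gn, cl2, mem_sdiff, mem_sdiff]
        exact ⟨⟨⟨mem_univ _, hx.1.2⟩, fun hc => hm.2 ⟨x, hc, hx.2⟩⟩, hx.2⟩
      have h7 : 0 < (gn G (cl2 G D U E C P φ) m).card := card_pos.mpr ⟨x, h6⟩
      omega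
    · omega
  have h3 : ∑ m ∈ C.filter (fun m => ¬ ∃ x ∈ cl1 G D U E C P φ, G.Adj m x),
        (dfc G D C (U \ C) φ m + (gn G (cl2 G D U E C P φ) m).card) ≤
      ∑ m ∈ C, (dfc G D C (U \ C) φ m + (gn G (cl2 G D U E C P φ) m).card) :=
    sum_le_sum_of_subset (filter_subset _ _)
  have h4 := h2.trans h3
  rw [sum_add_distrib, (hD06 V G D U C φ).1, sum_gn] at h4
  omega

end GYD
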