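import Pool.Agent.GYD.StmtsB
import Pool.Agent.GYD.StmtsC

open Finset

namespace GYD

open Classical in
theorem t_G15 : Stmt_G15 := by
  intro V _ _ C₀ J f hf
  have h1 : C₀.card = ∑ j ∈ J, (C₀.filter (fun m => f m = j)).card :=
    Finset.card_eq_sum_card_fiberwise hf
  have hsub : ((C₀ ×ˢ C₀).filter (fun p => f p.1 = f p.2)).card
      ≤ ((C₀ ×ˢ C₀).filter (fun p => p.1 ≠ p.2 ∧ f p.1 = f p.2)).card + C₀.card := by
    have hcov : (C₀ ×ˢ C₀).filter (fun p => f p.1 = f p.2) ⊆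
        (C₀ ×ˢ C₀).filter (fun p => p.1 ≠ p.2 ∧ f p.1 = f p.2) ∪
          C₀.image (fun m => (m, m)) := by
      intro p hp
      rw [Finset.mem_filter, Finset.mem_product] at hp
      rw [Finset.mem_union, Finset.mem_filter, Finset.mem_product, Finset.mem_image]
      by_cases h : p.1 = p.2
      · right
        exact ⟨p.1, hp.1.1, by rw [Prod.ext_iff]; exact ⟨rfl, h⟩⟩
      · left
        exact ⟨hp.1, h, hp.2⟩
    calc ((C₀ ×ˢ C₀).filter (fun p => f p.1 = f p.2)).card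
        ≤ ((C₀ ×ˢ C₀).filter (fun p => p.1 ≠ p.2 ∧ f p.1 = f p.2) ∪
          C₀.image (fun m => (m, m))).card := Finset.card_le_card hcov
      _ ≤ ((C₀ ×ˢ C₀).filter (fun p => p.1 ≠ p.2 ∧ f p.1 = f p.2)).card +
          (C₀.image (fun m => (m, m))).card := Finset.card_union_le _ _
      _ ≤ _ := Nat.add_le_add_left Finset.card_image_le _
  have h2 : ((C₀ ×ˢ C₀).filter (fun p => f p.1 = f p.2)).card =
      ∑ j ∈ J, (C₀.filter (fun m => f m = j)).card ^ 2 := by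
    have hmap : ∀ p ∈ (C₀ ×ˢ C₀).filter (fun p => f p.1 = f p.2), f p.1 ∈ J := by
      intro p hp
      rw [Finset.mem_filter, Finset.mem_product] at hp
      exact hf p.1 hp.1.1
    rw [Finset.card_eq_sum_card_fiberwise (f := fun p : V × V => f p.1) (t := J) hmap]
    refine Finset.sum_congr rfl ?_
    intro j _
    rw [pow_two, ← Finset.card_product]
    congr 1
    ext p
    simp only [Finset.mem_filter, Finset.mem_product]
    constructor
    · rintro ⟨⟨⟨ha, hb⟩, hab⟩, hj⟩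
      exact ⟨⟨ha, hj⟩, ⟨hb, hab ▸ hj⟩⟩
    · rintro ⟨⟨ha, hj⟩, ⟨hb, hj2⟩⟩
      exact ⟨⟨⟨ha, hb⟩, hj.trans hj2.symm⟩, hj⟩
  have hcs : (∑ j ∈ J, (C₀.filter (fun m => f m = j)).card) ^ 2 ≤
      J.card * ∑ j ∈ J, (C₀.filter (fun m => f m = j)).card ^ 2 :=
    sq_sum_le_card_mul_sum_sq
  rw [← h1, ← h2] at hcs
  exact hcs.trans (Nat.mul_le_mul_left _ hsub)

end GYD
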