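import Pool.Agent.GYD.StmtsB
import Pool.Agent.GYD.StmtsC

set_option autoImplicit false
set_option linter.unusedVariables false
set_option linter.unusedSectionVars false

/-!
# Upper bound for the number of pairs of clique vertices with the same label, (I.9)
-/

namespace GYD

open Finset

namespace G16

variable {V : Type} [Fintype V] [DecidableEq V]

/-- the pairs with a common neighbour outside the clique -/
noncomputable def PA (G : SimpleGraph V) (C : Finset V) : Finset (V × V) :=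
  (univ \ C).biUnion (fun x => gn G C x ×ˢ gn G C x)

/-- the adjacent pairs -/
noncomputable def PB (G : SimpleGraph V) (C O C₀ : Finset V) (φ : V → ℕ) (y : V → V) :
    Finset (V × V) :=
  C₀.biUnion (fun m => (gn G (Mj G C O φ (φ (y m))) m).image (fun m2 => (m, m2)))

/-- the pairs with a common neighbour in the clique -/
noncomputable def PE (G : SimpleGraph V) (D : ℕ) (C O : Finset V) (φ : V → ℕ) :
    Finset (V × V) :=
  C.biUnion (fun z => (range (D ^ 2 + 1)).biUnion (fun j => (gn G (Mj G C O φ j) z).offDiag))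

theorem card_PA (G : SimpleGraph V) (C : Finset V) :
    (PA G C).card ≤ ∑ x ∈ univ \ C, (gn G C x).card ^ 2 := by
  refine le_trans card_biUnion_le (sum_le_sum fun x _ => ?_)
  rw [card_product, sq]

theorem card_PB (G : SimpleGraph V) (C O C₀ : Finset V) (φ : V → ℕ) (y : V → V) :
    (PB G C O C₀ φ y).card ≤ ∑ m ∈ C₀, dj G C O φ m (φ (y m)) := by
  refine le_trans card_biUnion_le (sum_le_sum fun m _ => ?_)
  exact card_image_le

theorem card_PE (G : SimpleGraph V) (D : ℕ) (C O : Finset V) (φ : V → ℕ) :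
    (PE G D C O φ).card ≤
      ∑ z ∈ C, ∑ j ∈ range (D ^ 2 + 1), dj G C O φ z j * (dj G C O φ z j - 1) := by
  refine le_trans card_biUnion_le (sum_le_sum fun z _ => ?_)
  refine le_trans card_biUnion_le (sum_le_sum fun j _ => ?_)
  rw [offDiag_card, Nat.mul_sub, mul_one]
  exact le_refl _

end G16

theorem t_G16 (hD06 : Stmt_D06) (hG02 : Stmt_G02) : Stmt_G16 := by
  classical
  intro V _ _ G D s U C O C₀ φ y hF hO hC₀ hy
  have hcov : (C₀ ×ˢ C₀).filter (fun p => p.1 ≠ p.2 ∧ φ (y p.1) = φ (y p.2)) ⊆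
      G16.PA G C ∪ (G16.PB G C O C₀ φ y ∪ G16.PE G D C O φ) := by
    rintro ⟨m, m2⟩ hp
    rw [mem_filter, mem_product] at hp
    obtain ⟨⟨hm, hm2⟩, hne, hφ⟩ := hp
    simp only at hm hm2 hne hφ
    have hmC := hC₀ hm
    have hm2C := hC₀ hm2
    have hM : m ∈ Mj G C O φ (φ (y m)) := mem_Mj.mpr ⟨hmC, y m, (hy m hm).1, (hy m hm).2, rfl⟩
    have hM2 : m2 ∈ Mj G C O φ (φ (y m)) :=
      mem_Mj.mpr ⟨hm2C, y m2, (hy m2 hm2).1, (hy m2 hm2).2, hφ.symm⟩
    rcases (hF.clq m hmC m2 hm2C hne).2 with h | ⟨x, h1, h2⟩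
    · refine mem_union_right _ (mem_union_left _ ?_)
      rw [G16.PB, mem_biUnion]
      exact ⟨m, hm, mem_image.mpr ⟨m2, mem_gn.mpr ⟨hM2, h⟩, rfl⟩⟩
    · by_cases hx : x ∈ C
      · refine mem_union_right _ (mem_union_right _ ?_)
        rw [G16.PE, mem_biUnion]
        refine ⟨x, hx, mem_biUnion.mpr ⟨φ (y m), ?_, ?_⟩⟩
        · rw [mem_range, Nat.lt_succ_iff]
          exact hF.lab.le _ (hO (hy m hm).1)
        · rw [mem_offDiag]
          exact ⟨mem_gn.mpr ⟨hM, h1.symm⟩, mem_gn.mpr ⟨hM2, h2⟩, hne⟩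
      · refine mem_union_left _ ?_
        rw [G16.PA, mem_biUnion]
        refine ⟨x, by simp [hx], ?_⟩
        rw [mem_product]
        exact ⟨mem_gn.mpr ⟨hmC, h1.symm⟩, mem_gn.mpr ⟨hm2C, h2⟩⟩
  have hB : ∑ m ∈ C₀, dj G C O φ m (φ (y m)) ≤
      2 * ∑ v ∈ C, (gn G (U \ C) v).card + TT G D C (U \ C) φ := by
    calc ∑ m ∈ C₀, dj G C O φ m (φ (y m))
        ≤ ∑ m ∈ C₀, (2 * (gn G (U \ C) m).card + dfc G D C (U \ C) φ m) := by
          refine sum_le_sum fun m hm => ?_
          exact (hG02 V G D s U C O φ hF hO m (hC₀ hm)).1 _ (hF.lab.le _ (hO (hy m hm).1))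
      _ ≤ ∑ m ∈ C, (2 * (gn G (U \ C) m).card + dfc G D C (U \ C) φ m) :=
          sum_le_sum_of_subset hC₀
      _ = 2 * ∑ v ∈ C, (gn G (U \ C) v).card + TT G D C (U \ C) φ := by
          rw [sum_add_distrib, ← mul_sum, (hD06 V G D U C φ).1]
  have h0 := card_le_card hcov
  have h1 := card_union_le (G16.PA G C) (G16.PB G C O C₀ φ y ∪ G16.PE G D C O φ)
  have h2 := card_union_le (G16.PB G C O C₀ φ y) (G16.PE G D C O φ)
  have h3 := G16.card_PA G C
  have h4 := G16.card_PB G C O C₀ φ y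
  have h5 := G16.card_PE G D C O φ
  omega

end GYD
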