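import Pool.Agent.GYD.StmtsC

set_option autoImplicit false
set_option linter.unusedVariables false

/-!
# Type I is impossible
-/

namespace GYD

open Finset

namespace G17

/-- the final numerical contradiction -/
theorem num (D c0 J p : ℕ) (hD : 10 ^ 8 ≤ D) (h1 : c0 ^ 2 ≤ J * (p + c0))
    (hJ : J ≤ 61 * D + 648) (hp : p ≤ 1316030 * D ^ 2 + 47628 * D) (hc : c0 ≤ D ^ 2 + 1)
    (hc2 : D ^ 2 + 1 ≤ c0 + 235700 * D) : False := by
  obtain ⟨x, hDdef⟩ : ∃ x, D = x + 235700 := ⟨D - 235700, by omega⟩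
  have hx : 99764300 ≤ x := by omega
  have hD2 : 100000000 * D ≤ D ^ 2 := by
    rw [sq]; exact Nat.mul_le_mul_right _ (by omega)
  have hcx : D * x ≤ c0 := by
    have h : D ^ 2 = D * x + 235700 * D := by
      rw [sq]
      calc D * D = D * (x + 235700) := by rw [← hDdef]
        _ = D * x + 235700 * D := by ring
    omega
  have h2 : p + c0 ≤ 1316032 * D ^ 2 := by omega
  have h3 : J ≤ 62 * D := by omega
  have h4 : J * (p + c0) ≤ 62 * D * (1316032 * D ^ 2) := Nat.mul_le_mul h3 h2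
  have h5 : (D * x) ^ 2 ≤ c0 ^ 2 := Nat.pow_le_pow_left hcx 2
  have h6 : D ^ 2 * x ^ 2 ≤ D ^ 2 * (81593984 * D) := by
    calc D ^ 2 * x ^ 2 = (D * x) ^ 2 := by ring
      _ ≤ 62 * D * (1316032 * D ^ 2) := h5.trans (h1.trans h4)
      _ = D ^ 2 * (81593984 * D) := by ring
  have h7 : x ^ 2 ≤ 81593984 * D := Nat.le_of_mul_le_mul_left h6 (by positivity)
  have h8 : 99764300 * x ≤ x ^ 2 := by
    rw [sq]; exact Nat.mul_le_mul_right _ hx
  omega

end G17

theorem t_G17 (hD06 : Stmt_D06) (hG02 : Stmt_G02) (hG06 : Stmt_G06) (hG08 : Stmt_G08)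
    (hG09 : Stmt_G09) (hG11 : Stmt_G11) (hG13 : Stmt_G13) (hG14 : Stmt_G14) (hG15 : Stmt_G15)
    (hG16 : Stmt_G16) : Stmt_G17 := by
  classical
  intro V _ _ G D s U E C P φ hF hI hmin
  have hFail := hF.toFail
  have hbase := hFail.toBase
  obtain ⟨ho1, hJ, hT, ho2⟩ := hG06 V G D s U C φ hFail hI
  have num : NumI G D s U C φ := ⟨ho1, hJ, hT, ho2⟩
  have hP := hG08 V G D s U E C P φ hF num
  have hcl1 := hG09 V G D s U E C P φ hF num hP hmin
  have hCE : C ⊆ E := by rw [hF.Cdef]; exact Finset.sdiff_subset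
  have hO : U \ E ⊆ U \ C := Finset.sdiff_subset_sdiff (Finset.Subset.refl _) hCE
  have hcl1O : cl1 G D U E C P φ ⊆ U \ E := by
    unfold cl1; exact Finset.filter_subset _ _
  have hcl1J : ∀ x ∈ cl1 G D U E C P φ, φ x ∈ JJ G D C (U \ C) φ := by
    intro x hx
    unfold cl1 at hx
    exact (mem_filter.mp hx).2.1
  have hcl1C : cl1 G D U E C P φ ⊆ univ \ C := by
    intro x hx
    have h := hO (hcl1O hx)
    rw [mem_sdiff] at h ⊢
    exact ⟨mem_univ _, h.2⟩
  have h1 := hG11 V G D s U C (cl1 G D U E C P φ) φ hFail num hcl1C hcl1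
  have h2 := hG13 V G D s U E C P φ hF num hP
  have hb : ∀ x, (gn G C x).card ≤ D := fun x =>
    (Finset.card_le_card (gn_mono G (Finset.subset_univ C) x)).trans (hbase.deg x)
  have h2' : ∑ x ∈ cl2 G D U E C P φ, (gn G C x).card ^ 2 ≤ 188000 * D ^ 2 := by
    calc ∑ x ∈ cl2 G D U E C P φ, (gn G C x).card ^ 2
        ≤ ∑ x ∈ cl2 G D U E C P φ, D * (gn G C x).card := by
          apply Finset.sum_le_sum
          intro x _
          rw [sq]
          exact Nat.mul_le_mul_right _ (hb x)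
      _ = D * ∑ x ∈ cl2 G D U E C P φ, (gn G C x).card := by rw [Finset.mul_sum]
      _ ≤ D * (188000 * D) := Nat.mul_le_mul_left _ h2
      _ = 188000 * D ^ 2 := by ring
  have h12 : ∑ x ∈ univ \ C, (gn G C x).card ^ 2 ≤ 653000 * D ^ 2 := by
    have h := Finset.sum_sdiff (f := fun x => (gn G C x).card ^ 2) hcl1C
    have h' : ∑ x ∈ (univ \ C) \ cl1 G D U E C P φ, (gn G C x).card ^ 2 ≤ 188000 * D ^ 2 := h2'
    omega
  obtain ⟨C₀, hC₀, hC₀n, hC₀c⟩ := hG14 V G D s U E C P φ hF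
  let y : V → V := fun m => if h : m ∈ C₀ then Classical.choose (hC₀n m h) else m
  have hy : ∀ m ∈ C₀, y m ∈ cl1 G D U E C P φ ∧ G.Adj m (y m) := by
    intro m hm
    simp only [y, dif_pos hm]
    exact Classical.choose_spec (hC₀n m hm)
  have h16 := hG16 V G D s U C (U \ E) C₀ φ y hFail hO hC₀
    (fun m hm => ⟨hcl1O (hy m hm).1, (hy m hm).2⟩)
  have h15 := hG15 V C₀ (JJ G D C (U \ C) φ) (fun m => φ (y m))
    (fun m hm => hcl1J _ (hy m hm).1)
  obtain ⟨hdf, hao⟩ : (∑ v ∈ C, dfc G D C (U \ C) φ v = TT G D C (U \ C) φ) ∧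
      ∀ v, (gn G (U \ C) v).card ≤ (gn G (univ \ C) v).card := hD06 V G D U C φ
  have hz : ∑ z ∈ C, ∑ j ∈ range (D ^ 2 + 1), dj G C (U \ E) φ z j * (dj G C (U \ E) φ z j - 1)
      ≤ 662884 * D ^ 2 := by
    calc ∑ z ∈ C, ∑ j ∈ range (D ^ 2 + 1), dj G C (U \ E) φ z j * (dj G C (U \ E) φ z j - 1)
        ≤ ∑ z ∈ C, (4 * (gn G (univ \ C) z).card ^ 2 + 3 * D * dfc G D C (U \ C) φ z) := by
          apply Finset.sum_le_sum
          intro z hz
          refine ((hG02 V G D s U C (U \ E) φ hFail hO z hz).2).trans ?_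
          have := Nat.pow_le_pow_left (hao z) 2
          omega
      _ = 4 * ∑ z ∈ C, (gn G (univ \ C) z).card ^ 2 + 3 * D * ∑ z ∈ C, dfc G D C (U \ C) φ z := by
          rw [Finset.sum_add_distrib, Finset.mul_sum, Finset.mul_sum]
      _ ≤ 4 * (130000 * D ^ 2) + 3 * D * (47628 * D) := by
          rw [hdf]
          exact Nat.add_le_add (Nat.mul_le_mul_left _ ho2) (Nat.mul_le_mul_left _ hT)
      _ = 662884 * D ^ 2 := by ring
  have ha : ∑ v ∈ C, (gn G (U \ C) v).card ≤ 73 * D ^ 2 :=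
    (Finset.sum_le_sum (fun v _ => hao v)).trans ho1
  have hcards := hbase.cards
  have hs := hbase.s_le
  have hsr := hF.s_ref
  have hC₀le := Finset.card_le_card hC₀
  have hbig := hbase.big
  have e1 : D ^ 2 = D ^ 2 := rfl
  refine G17.num D C₀.card (JJ G D C (U \ C) φ).card
    (((C₀ ×ˢ C₀).filter (fun p => p.1 ≠ p.2 ∧ φ (y p.1) = φ (y p.2))).card) hbig ?_ ?_ ?_ ?_ ?_
  · exact h15
  · omega
  · omega
  · omega
  · omega

end GYD
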