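import Pool.Agent.GYD.Main
import Pool.Agent.GYD.A2
import Pool.Agent.GYD.B01
import Pool.Agent.GYD.B02
import Pool.Agent.GYD.B03
import Pool.Agent.GYD.B04
import Pool.Agent.GYD.B05
import Pool.Agent.GYD.B06
import Pool.Agent.GYD.B07
import Pool.Agent.GYD.B08
import Pool.Agent.GYD.C01
import Pool.Agent.GYD.C02
import Pool.Agent.GYD.C03
import Pool.Agent.GYD.C04
import Pool.Agent.GYD.C05
import Pool.Agent.GYD.C06
import Pool.Agent.GYD.C07
import Pool.Agent.GYD.D01
import Pool.Agent.GYD.D02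
import Pool.Agent.GYD.D03
import Pool.Agent.GYD.D04
import Pool.Agent.GYD.D05
import Pool.Agent.GYD.D06
import Pool.Agent.GYD.D07
import Pool.Agent.GYD.D08
import Pool.Agent.GYD.D09
import Pool.Agent.GYD.D10
import Pool.Agent.GYD.D11
import Pool.Agent.GYD.E01
import Pool.Agent.GYD.E02
import Pool.Agent.GYD.E03
import Pool.Agent.GYD.E04
import Pool.Agent.GYD.E05
import Pool.Agent.GYD.E06
import Pool.Agent.GYD.G01
import Pool.Agent.GYD.G02
import Pool.Agent.GYD.G03
import Pool.Agent.GYD.G04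
import Pool.Agent.GYD.G05
import Pool.Agent.GYD.G06
import Pool.Agent.GYD.G07
import Pool.Agent.GYD.G08
import Pool.Agent.GYD.G09
import Pool.Agent.GYD.G10
import Pool.Agent.GYD.G11
import Pool.Agent.GYD.G12
import Pool.Agent.GYD.G13
import Pool.Agent.GYD.G14
import Pool.Agent.GYD.G15
import Pool.Agent.GYD.G16
import Pool.Agent.GYD.G17

set_option autoImplicit false

/-!
# The Griggs-Yeh conjecture for all graphs of maximum degree at most `D`, `D ≥ 10 ^ 8`
-/

namespace GYD

open Finset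

/-- every finite graph with all degrees at most `D`, `D ≥ 10 ^ 8`, has an `L(2,1)`-labelling with
labels `0, ..., D ^ 2` -/
theorem labelling {V : Type} [Fintype V] [DecidableEq V] (G : SimpleGraph V) (D : ℕ)
    (hD : 10 ^ 8 ≤ D) (hdeg : ∀ v, (gn G univ v).card ≤ D) :
    ∃ φ : V → ℕ, Lab G univ (D ^ 2) φ := by
  have D01 := t_D01
  have A2 := t_A2 D01
  have B01 := t_B01 D01
  have B02 := t_B02
  have B03 := t_B03
  have B04 := t_B04
  have B05 := t_B05 B03 B04 D01
  have B06 := t_B06 B03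
  have B07 := t_B07 B04
  have B08 := t_B08 B03 B06 B07 D01
  have C01 := t_C01 D01
  have C02 := t_C02 C01
  have C07 := t_C07 C01 C02 t_C03 t_C04 (t_C05 C01) t_C06
  have D02 := t_D02 D01
  have D03 := t_D03 D01
  have D04 := t_D04 D01
  have D05 := t_D05 C01
  have D06 := t_D06
  have D07 := t_D07 C02
  have D08 := t_D08 D03 D04
  have D09 := t_D09
  have D10 := t_D10
  have D11 := t_D11
  have E01 := t_E01 C01 D02
  have E02 := t_E02 E01 B03 D06
  have E03 := t_E03 E02 D04
  have E04 := t_E04 E02 D10 D01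
  have E05 := t_E05 D02 D03 D11
  have E06 := t_E06 E03 E04 E05 D11
  have G03 := t_G03
  have G01 := t_G01 D02 D05 G03
  have G02 := t_G02 G01
  have G04 := t_G04 D02 D11
  have G05 := t_G05 D04 D05 D06 G04
  have G06 := t_G06 D03 D04 D06 D07 G05
  have G07 := t_G07 D04 D06 G01 G03
  have G08 := t_G08 B03 D05 D06
  have G09 := t_G09 B03 C01 D01 D10 G07
  have G10 := t_G10 D02
  have G11 := t_G11 D04 D05 D06 G10
  have G12 := t_G12 D04 D06 G01 G03
  have G13 := t_G13 B03 G07 G12 G03
  have G14 := t_G14 D05 D06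
  have G15 := t_G15
  have G16 := t_G16 D06 G02
  have G17 := t_G17 D06 G02 G06 G08 G09 G11 G13 G14 G15 G16
  exact main_of A2 B01 B02 B03 B05 B08 C07 D01 D08 D09 E06 G17 G D hD hdeg

end GYD
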