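import Pool.Agent.GYD.StmtsB
import Pool.Agent.GYD.StmtsC

set_option autoImplicit false

/-!
# G04: (I.3), the pairs of outside lines
-/

namespace GYD

open Finset

namespace G04

variable {V : Type} [Fintype V] [DecidableEq V]

theorem sum_split (S : Finset V) (f : V → V → ℕ) :
    ∑ x ∈ S, ∑ y ∈ S, f x y = ∑ x ∈ S, f x x + ∑ x ∈ S, ∑ y ∈ S.erase x, f x y := by
  rw [← sum_add_distrib]
  refine sum_congr rfl fun x hx => ?_
  exact (add_sum_erase S (fun y => f x y) hx).symm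

theorem sq_eq (k : ℕ) : k * (k - 1) + k = k ^ 2 := by
  cases k with
  | zero => rfl
  | succ k =>
    simp only [Nat.add_sub_cancel]
    ring

theorem five_le (k : ℕ) : 5 * k ≤ k * (k - 1) + 9 := by
  have h := sq_eq k
  have h1 : 6 * k ≤ k ^ 2 + 9 := by
    rcases Nat.lt_or_ge k 3 with h2 | h2
    · interval_cases k <;> norm_num
    · obtain ⟨m, rfl⟩ := Nat.exists_eq_add_of_le h2
      nlinarith [sq_nonneg m]
  omega

theorem cp_le_gn (G : SimpleGraph V) (L : Finset V) (v w : V) :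
    cp G L v w ≤ (gn G L v).card := by
  classical
  unfold cp
  refine card_le_card ?_
  intro m hm
  rw [mem_filter] at hm
  exact mem_gn.2 ⟨hm.1, hm.2.1⟩

end G04

open G04 in
theorem t_G04 (hD02 : Stmt_D02) (hD11 : Stmt_D11) : Stmt_G04 := by
  intro V _ _ G D s U C L hB _hL
  classical
  set a1 := ∑ x ∈ L, ∑ y ∈ L.erase x, cp G C x y with ha1
  set a2 := ∑ x ∈ L, ∑ y ∈ L.erase x, cp G C x y ^ 2 with ha2
  set a3 := ∑ x ∈ L, ∑ y ∈ L.erase x, cp G C x y * (cp G C x y - 1) with ha3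
  set b1 := ∑ v ∈ C, ∑ w ∈ C.erase v, cp G L v w with hb1
  set b2 := ∑ v ∈ C, ∑ w ∈ C.erase v, cp G L v w ^ 2 with hb2
  set b3 := ∑ v ∈ C, ∑ w ∈ C.erase v, cp G L v w * (cp G L v w - 1) with hb3
  set O1 := ∑ v ∈ C, (gn G L v).card with hO1
  set O2 := ∑ v ∈ C, (gn G L v).card ^ 2 with hO2
  set X2 := ∑ x ∈ L, (gn G C x).card ^ 2 with hX2
  obtain ⟨h1, -, h3, h4, -, -, h7⟩ := hD11 V G L C C (fun _ => 1)
  obtain ⟨-, -, g3, -, g5, -, g7⟩ := hD11 V G C C L (fun _ => 1)
  have hO1' : ∑ x ∈ L, (gn G C x).card = O1 := by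
    simpa using h1
  have e1 : O1 + a1 = O2 := by
    rw [sum_split] at h3
    simp only [h7] at h3
    rw [hO1'] at h3
    exact h3
  have e2 : X2 + a2 = O2 + b2 := by
    rw [sum_split, sum_split] at h4
    simp only [h7, g7] at h4
    exact h4
  have e3 : O1 + b1 = X2 := by
    rw [sum_split] at g3
    simp only [g7] at g3
    exact g3
  have e4 : a3 + a1 = a2 := by
    rw [ha1, ha2, ha3, ← sum_add_distrib]
    refine sum_congr rfl fun x _ => ?_
    rw [← sum_add_distrib]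
    exact sum_congr rfl fun y _ => sq_eq _
  have e5 : b3 + b1 = b2 := by
    rw [hb1, hb2, hb3, ← sum_add_distrib]
    refine sum_congr rfl fun x _ => ?_
    rw [← sum_add_distrib]
    exact sum_congr rfl fun y _ => sq_eq _
  have e6 : 5 * a1 ≤ a3 + 9 * L.card ^ 2 := by
    have h8 : 5 * a1 ≤ ∑ x ∈ L, ∑ y ∈ L.erase x, (cp G C x y * (cp G C x y - 1) + 9) := by
      rw [ha1, mul_sum]
      refine sum_le_sum fun x _ => ?_
      rw [mul_sum]
      exact sum_le_sum fun y _ => five_le _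
    refine h8.trans ?_
    have h9 : ∑ x ∈ L, ∑ y ∈ L.erase x, (cp G C x y * (cp G C x y - 1) + 9) =
        a3 + ∑ x ∈ L, ∑ y ∈ L.erase x, 9 := by
      rw [ha3, ← sum_add_distrib]
      refine sum_congr rfl fun x _ => ?_
      rw [← sum_add_distrib]
    rw [h9]
    have h10 : ∑ x ∈ L, ∑ y ∈ L.erase x, 9 ≤ ∑ x ∈ L, L.card * 9 := by
      refine sum_le_sum fun x _ => ?_
      rw [sum_const, smul_eq_mul]
      exact Nat.mul_le_mul_right 9 (card_le_card (erase_subset x L))
    rw [sum_const, smul_eq_mul] at h10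
    have h11 : L.card * (L.card * 9) = 9 * L.card ^ 2 := by ring
    rw [h11] at h10
    omega
  have e7 : b3 ≤ ∑ v ∈ C, (gn G L v).card * slk G D U v := by
    rw [hb3]
    refine sum_le_sum fun v hv => ?_
    have h8 : ∑ w ∈ C.erase v, cp G L v w * (cp G L v w - 1) ≤
        ∑ w ∈ C.erase v, (gn G L v).card * (cdg G v w + ad G v w - 1) := by
      refine sum_le_sum fun w _ => ?_
      refine Nat.mul_le_mul (cp_le_gn G L v w) ?_
      have h9 := g5 v w
      omega
    refine h8.trans ?_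
    rw [← mul_sum]
    refine Nat.mul_le_mul_left _ ?_
    have h9 : C.erase v ⊆ hn G U v := by
      intro w hw
      rw [mem_erase] at hw
      exact mem_hn.2 ⟨hB.CU hw.2, hB.clq v hv w hw.2 (Ne.symm hw.1)⟩
    have h10 := hD02 V G D s U C hB v hv
    have h11 : ∑ w ∈ C.erase v, (cdg G v w + ad G v w - 1) ≤
        ∑ w ∈ hn G U v, (cdg G v w + ad G v w - 1) :=
      sum_le_sum_of_subset h9
    omega
  omega

end GYD
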