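import Pool.Agent.GYD.StmtsB
import Pool.Agent.GYD.StmtsC

set_option autoImplicit false
set_option linter.unusedVariables false

/-!
# Assembly
-/

namespace GYD

open Finset

/-- a minimal set which cannot be labelled -/
theorem exists_min_bad {V : Type} [Fintype V] [DecidableEq V] (G : SimpleGraph V) (N : ℕ)
    (h : ¬ ∃ φ : V → ℕ, Lab G univ N φ) :
    ∃ U : Finset V, (¬ ∃ φ : V → ℕ, Lab G U N φ) ∧
      ∀ W : Finset V, W ⊂ U → ∃ φ : V → ℕ, Lab G W N φ := by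
  classical
  obtain ⟨U, hU, hmin⟩ := Finset.exists_min_image
    ((univ : Finset (Finset V)).filter (fun U => ¬ ∃ φ : V → ℕ, Lab G U N φ))
    (fun U => U.card) ⟨univ, by simpa using h⟩
  refine ⟨U, (mem_filter.mp hU).2, ?_⟩
  intro W hW
  by_contra hcon
  have h1 := hmin W (by simpa using hcon)
  have h2 := Finset.card_lt_card hW
  omega

/-- everything except the two types -/
theorem setup (hA : Stmt_A2) (hB01 : Stmt_B01) (hB02 : Stmt_B02) (hB03 : Stmt_B03)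
    (hB05 : Stmt_B05) (hB08 : Stmt_B08) (hC07 : Stmt_C07) (hD01 : Stmt_D01)
    {V : Type} [Fintype V] [DecidableEq V] (G : SimpleGraph V) (D : ℕ) (hD : 10 ^ 8 ≤ D)
    (hdeg : ∀ v, (gn G univ v).card ≤ D) (hno : ¬ ∃ φ : V → ℕ, Lab G univ (D ^ 2) φ) :
    ∃ (s : ℕ) (U E C : Finset V) (P : Finset (V × V)), Base G D s U C ∧ E ⊆ U ∧
      C = E \ pv P ∧ Pairs G E P ∧
      (∃ φ : V → ℕ, Lab G (U \ C) (D ^ 2) φ ∧ ∀ p ∈ P, φ p.1 = φ p.2) ∧
      ∀ φ : V → ℕ, Lab G (U \ C) (D ^ 2) φ → (∀ p ∈ P, φ p.1 = φ p.2) →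
        Full G D s U E C P φ := by
  classical
  obtain ⟨U, hU, hmin⟩ := exists_min_bad G (D ^ 2) hno
  obtain ⟨C₀, hC₀U, hC₀, hC₀c⟩ := hA V G U D hdeg hD hU
  obtain ⟨E, hEU, hE1, hE2, hE3⟩ := hB01 V G U C₀ D hdeg hD hC₀U hC₀ hC₀c
  obtain ⟨P, hP, hPmax⟩ := hB02 V G E
  have hD2 : 10 ^ 8 * D ≤ D ^ 2 := by
    rw [sq]; exact Nat.mul_le_mul_right _ hD
  have hEne : E.Nonempty := by
    rw [← Finset.card_pos]; omega
  have hUE : U \ E ⊂ U := by
    refine Finset.sdiff_ssubset hEU hEne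
  obtain ⟨φ₀, hφ₀⟩ := hmin _ hUE
  have hPc : P.card < 5 * D := by
    by_contra hcon
    push Not at hcon
    obtain ⟨P', hP'P, hP'c⟩ := Finset.exists_subset_card_eq hcon
    have hP' := (hB03 V G E P hP).2.2 P' hP'P
    obtain ⟨φ, hφ, hφm⟩ := hB05 V G U E D P' φ₀ hdeg hD hEU hE1 hE2 hP' hP'c.le hφ₀
    exact hU (hB08 V G U E D P' φ hdeg hD hEU hE1 hE2 hP' hP'c hφ hφm)
  obtain ⟨φ₁, hφ₁, hφ₁m⟩ := hB05 V G U E D P φ₀ hdeg hD hEU hE1 hE2 hP hPc.le hφ₀
  obtain ⟨hpv, hpvE, -⟩ := hB03 V G E P hP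
  set C := E \ pv P with hC
  have hCc : C.card + 2 * P.card = E.card := by
    rw [hC, Finset.card_sdiff_of_subset hpvE, hpv]
    have := Finset.card_le_card hpvE
    omega
  have hclq : ∀ u ∈ C, ∀ v ∈ C, u ≠ v → HA G u v := hPmax
  have hCle : C.card ≤ D ^ 2 + 1 := by
    rcases C.eq_empty_or_nonempty with h0 | ⟨v, hv⟩
    · rw [h0]; simp
    · have h1 : C.erase v ⊆ hn G univ v := by
        intro u hu
        have hu' := Finset.mem_erase.mp hu
        exact mem_hn.mpr ⟨mem_univ _, hclq v hv u hu'.2 hu'.1.symm⟩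
      have h2 := Finset.card_le_card h1
      rw [Finset.card_erase_of_mem hv] at h2
      have h3 := (hD01 V G D hdeg v).2
      omega
  have hbase : Base G D (D ^ 2 + 1 - C.card) U C :=
    { deg := hdeg
      big := hD
      CU := (Finset.sdiff_subset).trans hEU
      clq := hclq
      cards := by omega
      s_le := by omega }
  refine ⟨D ^ 2 + 1 - C.card, U, E, C, P, hbase, hEU, rfl, hP, ⟨φ₁, hφ₁, hφ₁m⟩, ?_⟩
  intro φ hφ hφm
  have hF : Fail G D (D ^ 2 + 1 - C.card) U C φ := hC07 V G D _ U C φ hbase hφ hU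
  exact
    { toFail := hF
      EU := hEU
      Cdef := rfl
      pairs := hP
      Pcard := hPc.le
      s_ref := by omega
      mono := hφm
      c2 := hE2
      c3 := hE3 }

/-- **Main theorem**, from the statements of the modules. -/
theorem main_of (hA : Stmt_A2) (hB01 : Stmt_B01) (hB02 : Stmt_B02) (hB03 : Stmt_B03)
    (hB05 : Stmt_B05) (hB08 : Stmt_B08) (hC07 : Stmt_C07) (hD01 : Stmt_D01)
    (hD08 : Stmt_D08) (hD09 : Stmt_D09) (hE06 : Stmt_E06) (hG17 : Stmt_G17)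
    {V : Type} [Fintype V] [DecidableEq V] (G : SimpleGraph V) (D : ℕ) (hD : 10 ^ 8 ≤ D)
    (hdeg : ∀ v, (gn G univ v).card ≤ D) : ∃ φ : V → ℕ, Lab G univ (D ^ 2) φ := by
  by_contra hno
  obtain ⟨s, U, E, C, P, hbase, hEU, hC, hP, hex, hfull⟩ :=
    setup hA hB01 hB02 hB03 hB05 hB08 hC07 hD01 G D hD hdeg hno
  rcases hD08 V G D s U C hbase with hI | hII
  · obtain ⟨φ, h1, h2, h3⟩ := hD09 V G D U E C P (fun y => (hn G C y).card) hEU hC hP hex
    exact hG17 V G D s U E C P φ (hfull φ h1 h2) hI h3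
  · obtain ⟨φ, h1, h2, h3⟩ := hD09 V G D U E C P (fun y => (gn G C y).card) hEU hC hP hex
    exact hE06 V G D s U E C P φ (hfull φ h1 h2) (fun v hv => (hII v hv).2) h3

end GYD
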