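import Pool.Agent.GYD.Defs

set_option autoImplicit false
set_option linter.unusedVariables false

/-!
# Statements of Part 2 (closure, pairs, completion lemma)
-/

namespace GYD

open Finset

/-- Theorem A (helper88, `GYA.near_clique`) -/
def Stmt_A : Prop := ∀ (W : Type) [Fintype W] [DecidableEq W] (A N : SimpleGraph W) (D : ℕ),
    20000 ≤ D → (∀ u v, A.Adj u v → N.Adj u v) → (∀ v, (gn A univ v).card ≤ D) →
    (∀ v, (gn N univ v).card ≤ D ^ 2) →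
    (¬ ∃ f : W → ℕ, (∀ v, f v ≤ D ^ 2) ∧ (∀ u v, N.Adj u v → f u ≠ f v) ∧
      (∀ u v, A.Adj u v → f u + 2 ≤ f v ∨ f v + 2 ≤ f u)) →
    ∃ K : Finset W, (∀ a ∈ K, ∀ b ∈ K, a ≠ b → N.Adj a b) ∧ D ^ 2 + 1 ≤ K.card + 61 * D

/-- Theorem A inside a graph: a set which cannot be labelled contains a large clique of the square -/
def Stmt_A2 : Prop := ∀ (V : Type) [Fintype V] [DecidableEq V] (G : SimpleGraph V)
  (U : Finset V) (D : ℕ), (∀ v, (gn G univ v).card ≤ D) → 10 ^ 8 ≤ D →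
    (¬ ∃ φ : V → ℕ, Lab G U (D ^ 2) φ) →
    ∃ C₀ ⊆ U, (∀ u ∈ C₀, ∀ v ∈ C₀, u ≠ v → HA G u v) ∧ D ^ 2 + 1 ≤ C₀.card + 61 * D

/-- the closure of a large clique -/
def Stmt_B01 : Prop := ∀ (V : Type) [Fintype V] [DecidableEq V] (G : SimpleGraph V)
  (U C₀ : Finset V) (D : ℕ), (∀ v, (gn G univ v).card ≤ D) → 10 ^ 8 ≤ D → C₀ ⊆ U →
    (∀ u ∈ C₀, ∀ v ∈ C₀, u ≠ v → HA G u v) → D ^ 2 + 1 ≤ C₀.card + 61 * D →
    ∃ E ⊆ U, D ^ 2 + 1 ≤ E.card + 61 * D ∧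
      (∀ x ∈ E, 5 * (E.card - (hn G E x).card) ≤ D ^ 2 + 400 * D) ∧
      (∀ y ∈ U, y ∉ E → 5 * (hn G E y).card ≤ 4 * D ^ 2 + 400 * D)

/-- a maximal set of disjoint non-adjacent pairs -/
def Stmt_B02 : Prop := ∀ (V : Type) [Fintype V] [DecidableEq V] (G : SimpleGraph V)
  (E : Finset V), ∃ P : Finset (V × V), Pairs G E P ∧
    ∀ x ∈ E \ pv P, ∀ y ∈ E \ pv P, x ≠ y → HA G x y

/-- number of vertices of a set of pairs, subsets -/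
def Stmt_B03 : Prop := ∀ (V : Type) [Fintype V] [DecidableEq V] (G : SimpleGraph V)
  (E : Finset V) (P : Finset (V × V)), Pairs G E P →
    (pv P).card = 2 * P.card ∧ pv P ⊆ E ∧ ∀ P' ⊆ P, Pairs G E P'

/-- extension of a labelling by one vertex, or by two non-adjacent vertices with the same label -/
def Stmt_B04 : Prop := ∀ (V : Type) [Fintype V] [DecidableEq V] (G : SimpleGraph V)
  (W : Finset V) (N : ℕ) (φ : V → ℕ) (x y : V), Lab G W N φ → x ∉ W → y ∉ W → ¬ HA G x y →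
    (forb G W φ x ∪ forb G W φ y).card ≤ N →
    ∃ φ' : V → ℕ, Lab G (insert x (insert y W)) N φ' ∧ (∀ u ∈ W, φ' u = φ u) ∧ φ' x = φ' y

/-- labelling the pairs -/
def Stmt_B05 : Prop := ∀ (V : Type) [Fintype V] [DecidableEq V] (G : SimpleGraph V)
  (U E : Finset V) (D : ℕ) (P : Finset (V × V)) (φ₀ : V → ℕ),
    (∀ v, (gn G univ v).card ≤ D) → 10 ^ 8 ≤ D → E ⊆ U → D ^ 2 + 1 ≤ E.card + 61 * D →
    (∀ x ∈ E, 5 * (E.card - (hn G E x).card) ≤ D ^ 2 + 400 * D) → Pairs G E P →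
    P.card ≤ 5 * D → Lab G (U \ E) (D ^ 2) φ₀ →
    ∃ φ : V → ℕ, Lab G (U \ (E \ pv P)) (D ^ 2) φ ∧ ∀ p ∈ P, φ p.1 = φ p.2

/-- atypical vertices: `π(v) < 2 D` -/
def Stmt_B06 : Prop := ∀ (V : Type) [Fintype V] [DecidableEq V] (G : SimpleGraph V)
  (E : Finset V) (D : ℕ) (P : Finset (V × V)),
    (∀ v, (gn G univ v).card ≤ D) → 10 ^ 8 ≤ D →
    (∀ x ∈ E, 5 * (E.card - (hn G E x).card) ≤ D ^ 2 + 400 * D) → Pairs G E P →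
    P.card = 5 * D →
    ∃ A ⊆ E \ pv P, 3 * A.card ≤ 2 * D ^ 2 + 800 * D ∧
      ∀ v ∈ (E \ pv P) \ A, ∃ P' ⊆ P, 2 * D ≤ P'.card ∧ ∀ p ∈ P', HA G v p.1 ∧ HA G v p.2

/-- greedy labelling of a set all of whose vertices have few forbidden labels at any time -/
def Stmt_B07 : Prop := ∀ (V : Type) [Fintype V] [DecidableEq V] (G : SimpleGraph V)
  (W X : Finset V) (N : ℕ) (φ : V → ℕ), Lab G W N φ → Disjoint W X →
    (∀ (Y : Finset V) (ψ : V → ℕ) (x : V), Y ⊆ X → x ∈ X → x ∉ Y → Lab G (W ∪ Y) N ψ →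
      (∀ u ∈ W, ψ u = φ u) → (forb G (W ∪ Y) ψ x).card ≤ N) →
    ∃ φ' : V → ℕ, Lab G (W ∪ X) N φ' ∧ ∀ u ∈ W, φ' u = φ u

/-- many pairs: everything can be labelled -/
def Stmt_B08 : Prop := ∀ (V : Type) [Fintype V] [DecidableEq V] (G : SimpleGraph V)
  (U E : Finset V) (D : ℕ) (P : Finset (V × V)) (φ : V → ℕ),
    (∀ v, (gn G univ v).card ≤ D) → 10 ^ 8 ≤ D → E ⊆ U → D ^ 2 + 1 ≤ E.card + 61 * D →
    (∀ x ∈ E, 5 * (E.card - (hn G E x).card) ≤ D ^ 2 + 400 * D) → Pairs G E P →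
    P.card = 5 * D → Lab G (U \ (E \ pv P)) (D ^ 2) φ → (∀ p ∈ P, φ p.1 = φ p.2) →
    ∃ φ' : V → ℕ, Lab G U (D ^ 2) φ'

/-- blocked labels of a vertex of the clique -/
def Stmt_C01 : Prop := ∀ (V : Type) [Fintype V] [DecidableEq V] (G : SimpleGraph V)
  (D s : ℕ) (U C : Finset V) (φ : V → ℕ), Base G D s U C → Lab G (U \ C) (D ^ 2) φ →
    ∀ v ∈ C, (hn G (U \ C) v).card + slk G D U v = s ∧
      ∑ j ∈ range (D ^ 2 + 1), mult G (U \ C) φ v j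
        ≤ (hn G (U \ C) v).card + 2 * (gn G (U \ C) v).card

/-- the number of labels of `JJ` -/
def Stmt_C02 : Prop := ∀ (V : Type) [Fintype V] [DecidableEq V] (G : SimpleGraph V)
  (D s : ℕ) (U C : Finset V) (φ : V → ℕ), Base G D s U C → Lab G (U \ C) (D ^ 2) φ →
    (JJ G D C (U \ C) φ).card ≤ 75 * D ∧
    (JJ G D C (U \ C) φ).card * C.card ≤
      s * C.card + 2 * ∑ v ∈ C, (gn G (U \ C) v).card + TT G D C (U \ C) φ ∧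
    (JJ G D C (U \ C) φ).card ≤ s + 3 * D

/-- greedy choice of pairs (vertex, label) -/
def Stmt_C03 : Prop := ∀ (V : Type) [DecidableEq V] (J : Finset ℕ)
  (F : ℕ → Finset V) (m c q : ℕ), (∀ j ∈ J, (F j).card ≤ m) → J.card ≤ c →
    q * (3 * m + c) < ∑ j ∈ J, (F j).card →
    ∃ Q : Finset (V × ℕ), Q.card = q ∧ (∀ p ∈ Q, p.2 ∈ J ∧ p.1 ∈ F p.2) ∧
      ∀ p ∈ Q, ∀ p' ∈ Q, p ≠ p' → p.1 ≠ p'.1 ∧ (p.2 + 2 ≤ p'.2 ∨ p'.2 + 2 ≤ p.2)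

open Classical in
/-- Hall's theorem in the form needed -/
def Stmt_C04 : Prop := ∀ (V : Type) [DecidableEq V] (C : Finset V) (L : Finset ℕ)
  (Bl : V → ℕ → Prop) (r : ℕ), (∀ v ∈ C, (L.filter (fun j => Bl v j)).card ≤ r) →
    (∀ j ∈ L, r ≤ (C.filter (fun v => ¬ Bl v j)).card) → C.card ≤ L.card →
    ∃ ψ : V → ℕ, Set.InjOn ψ C ∧ ∀ v ∈ C, ψ v ∈ L ∧ ¬ Bl v (ψ v)

/-- removing the conflicts inside the clique by swaps -/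
def Stmt_C05 : Prop := ∀ (V : Type) [Fintype V] [DecidableEq V] (G : SimpleGraph V)
  (D s : ℕ) (U C : Finset V) (φ : V → ℕ), Base G D s U C → Lab G (U \ C) (D ^ 2) φ →
    ∀ (C₂ : Finset V) (ψ : V → ℕ), C₂ ⊆ C → Set.InjOn ψ C →
      (∀ v ∈ C, ψ v ≤ D ^ 2 ∧ mult G (U \ C) φ v (ψ v) = 0) →
      (∀ v ∈ C \ C₂, ∀ w ∈ C \ C₂, G.Adj v w → ψ v + 2 ≤ ψ w ∨ ψ w + 2 ≤ ψ v) →
      (∀ v ∈ C₂, s + 7 * D + 1 < (FF G C₂ (U \ C) φ (ψ v)).card) →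
      ∃ ψ' : V → ℕ, Set.InjOn ψ' C ∧
        (∀ v ∈ C, ψ' v ≤ D ^ 2 ∧ mult G (U \ C) φ v (ψ' v) = 0) ∧
        ∀ v ∈ C, ∀ w ∈ C, G.Adj v w → ψ' v + 2 ≤ ψ' w ∨ ψ' w + 2 ≤ ψ' v

/-- glueing a labelling of `U \ C` and one of the clique `C` -/
def Stmt_C06 : Prop := ∀ (V : Type) [Fintype V] [DecidableEq V] (G : SimpleGraph V)
  (D s : ℕ) (U C : Finset V) (φ ψ : V → ℕ), Base G D s U C → Lab G (U \ C) (D ^ 2) φ →
    Set.InjOn ψ C → (∀ v ∈ C, ψ v ≤ D ^ 2 ∧ mult G (U \ C) φ v (ψ v) = 0) →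
    (∀ v ∈ C, ∀ w ∈ C, G.Adj v w → ψ v + 2 ≤ ψ w ∨ ψ w + 2 ≤ ψ v) →
    ∃ χ : V → ℕ, Lab G U (D ^ 2) χ

/-- the completion lemma -/
def Stmt_C07 : Prop := ∀ (V : Type) [Fintype V] [DecidableEq V] (G : SimpleGraph V)
  (D s : ℕ) (U C : Finset V) (φ : V → ℕ), Base G D s U C → Lab G (U \ C) (D ^ 2) φ →
    (¬ ∃ χ : V → ℕ, Lab G U (D ^ 2) χ) → Fail G D s U C φ

end GYD
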